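import Pool.Agent.P.MP_95bcfc_an.Defs

set_option autoImplicit false
set_option linter.unusedSectionVars false
set_option linter.deprecated false

open scoped TensorProduct InnerProductSpace

namespace Pool.Agent.P.MP_95bcfc_an

/-- direct sum of `D` copies of `E` -/
abbrev HD (D E : Type) : Type := PiLp 2 (fun _ : D => E)

section Blk

variable {D : Type} [Fintype D] [DecidableEq D]
variable {E : Type} [NormedAddCommGroup E] [InnerProductSpace ℂ E]

/-- coordinate projection -/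
noncomputable def pr (E : Type) [NormedAddCommGroup E] [InnerProductSpace ℂ E] (i : D) :
    HD D E →L[ℂ] E := PiLp.proj 2 (fun _ : D => E) i

/-- coordinate inclusion -/
noncomputable def inc (E : Type) [NormedAddCommGroup E] [InnerProductSpace ℂ E] (i : D) :
    E →L[ℂ] HD D E :=
  (PiLp.continuousLinearEquiv 2 ℂ (fun _ : D => E)).symm.toContinuousLinearMap.comp
    (ContinuousLinearMap.single ℂ (fun _ : D => E) i)

@[simp] theorem pr_apply (i : D) (v : HD D E) : pr E i v = v i := rfl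

@[simp] theorem inc_apply (i j : D) (v : E) : inc E i v j = if j = i then v else 0 := by
  change Pi.single (M := fun _ : D => E) i v j = _
  rw [Pi.single_apply]

theorem inner_inc_left (i : D) (v : E) (w : HD D E) : ⟪inc E i v, w⟫_ℂ = ⟪v, w i⟫_ℂ := by
  rw [PiLp.inner_apply, Finset.sum_eq_single i]
  · simp
  · intro j _ hj
    simp [hj]
  · simp

theorem norm_inc (i : D) (v : E) : ‖inc E i v‖ = ‖v‖ := by
  have h := inner_inc_left i v (inc E i v)
  simp only [inc_apply, if_true, inner_self_eq_norm_sq_to_K] at h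
  have h2 : ‖inc E i v‖ ^ 2 = ‖v‖ ^ 2 := by exact_mod_cast h
  exact (sq_eq_sq₀ (norm_nonneg _) (norm_nonneg _)).1 h2

theorem sum_inc (v : HD D E) : ∑ i, inc E i (v i) = v := by
  ext j
  simp [WithLp.ofLp_sum, Finset.sum_apply]

/-- block operator -/
noncomputable def blkFun (M : Matrix D D (E →L[ℂ] E)) : HD D E →L[ℂ] HD D E :=
  ∑ i, ∑ j, (inc E i).comp ((M i j).comp (pr E j))

theorem blkFun_apply (M : Matrix D D (E →L[ℂ] E)) (v : HD D E) (i : D) :
    blkFun M v i = ∑ j, M i j (v j) := by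
  simp [blkFun, WithLp.ofLp_sum, Finset.sum_apply, Finset.sum_ite_eq]

/-- block operators as an algebra homomorphism -/
noncomputable def blk : Matrix D D (E →L[ℂ] E) →ₐ[ℂ] (HD D E →L[ℂ] HD D E) where
  toFun := blkFun
  map_one' := by
    ext v i
    rw [blkFun_apply, Finset.sum_eq_single i]
    · simp
    · intro k _ hk
      simp [Matrix.one_apply_ne hk.symm]
    · simp
  map_mul' M N := by
    ext v i
    simp only [blkFun_apply, Matrix.mul_apply, ContinuousLinearMap.sum_apply,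
      ContinuousLinearMap.mul_apply, map_sum]
    rw [Finset.sum_comm]
  map_zero' := by
    ext v i
    simp [blkFun_apply]
  map_add' M N := by
    ext v i
    simp [blkFun_apply, Finset.sum_add_distrib]
  commutes' c := by
    ext v i
    rw [blkFun_apply, Finset.sum_eq_single i]
    · simp [Algebra.algebraMap_eq_smul_one]
    · intro k _ hk
      simp [Algebra.algebraMap_eq_smul_one, Matrix.one_apply_ne hk.symm]
    · simp

theorem blk_apply (M : Matrix D D (E →L[ℂ] E)) (v : HD D E) (i : D) :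
    blk M v i = ∑ j, M i j (v j) := blkFun_apply M v i

theorem blk_inc (M : Matrix D D (E →L[ℂ] E)) (j : D) (v : E) (i : D) :
    blk M (inc E j v) i = M i j v := by
  rw [blk_apply, Finset.sum_eq_single j]
  · simp
  · intro k _ hk
    simp [hk]
  · simp

theorem norm_entry_le (M : Matrix D D (E →L[ℂ] E)) (i j : D) : ‖M i j‖ ≤ ‖blk M‖ := by
  refine ContinuousLinearMap.opNorm_le_bound _ (norm_nonneg (blk M)) fun v => ?_
  rw [← blk_inc]
  calc _ ≤ ‖blk M (inc E j v)‖ := PiLp.norm_apply_le _ i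
    _ ≤ ‖blk M‖ * ‖inc E j v‖ := ContinuousLinearMap.le_opNorm _ _
    _ = _ := by rw [norm_inc]

theorem norm_blk_le (M : Matrix D D (E →L[ℂ] E)) : ‖blk M‖ ≤ ∑ i, ∑ j, ‖M i j‖ := by
  refine ContinuousLinearMap.opNorm_le_bound _ (by positivity) fun v => ?_
  rw [← sum_inc (blk M v), Finset.sum_mul]
  refine (norm_sum_le _ _).trans (Finset.sum_le_sum fun i _ => ?_)
  rw [norm_inc, blk_apply, Finset.sum_mul]
  refine (norm_sum_le _ _).trans (Finset.sum_le_sum fun j _ => ?_)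
  exact ((M i j).le_opNorm _).trans
    (mul_le_mul_of_nonneg_left (PiLp.norm_apply_le v j) (norm_nonneg _))

/-- diagonal operator -/
noncomputable def diag (D : Type) [Fintype D] [DecidableEq D] (T : E →L[ℂ] E) :
    HD D E →L[ℂ] HD D E := blk (Matrix.diagonal fun _ => T)

theorem diag_apply (T : E →L[ℂ] E) (v : HD D E) (i : D) : diag D T v i = T (v i) := by
  rw [diag, blk_apply, Finset.sum_eq_single i]
  · simp
  · intro k _ hk
    simp [Matrix.diagonal_apply_ne _ hk.symm]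
  · simp

theorem norm_diag_le (T : E →L[ℂ] E) : ‖diag D T‖ ≤ ‖T‖ := by
  refine ContinuousLinearMap.opNorm_le_bound _ (norm_nonneg _) fun v => ?_
  refine (sq_le_sq₀ (norm_nonneg _) (by positivity)).1 ?_
  rw [PiLp.norm_sq_eq_of_L2, mul_pow, PiLp.norm_sq_eq_of_L2, Finset.mul_sum]
  refine Finset.sum_le_sum fun i _ => ?_
  rw [diag_apply, ← mul_pow]
  exact pow_le_pow_left₀ (norm_nonneg _) (T.le_opNorm _) 2

variable {Δ : Type} [Group Δ]

/-- evaluation of the group algebra in a representation -/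
noncomputable def ev (U : Δ →* (E →L[ℂ] E)) : MonoidAlgebra ℂ Δ →ₐ[ℂ] (E →L[ℂ] E) :=
  MonoidAlgebra.lift ℂ (E →L[ℂ] E) Δ U

@[simp] theorem ev_single (U : Δ →* (E →L[ℂ] E)) (g : Δ) (c : ℂ) :
    ev U (MonoidAlgebra.single g c) = c • U g := MonoidAlgebra.lift_single _ _ _

theorem ev_apply (U : Δ →* (E →L[ℂ] E)) (z : MonoidAlgebra ℂ Δ) :
    ev U z = z.coeff.sum fun p c => c • U p := MonoidAlgebra.lift_apply _ _

/-- evaluation of matrices over the group algebra -/
noncomputable def evM (U : Δ →* (E →L[ℂ] E)) :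
    Matrix D D (MonoidAlgebra ℂ Δ) →ₐ[ℂ] (HD D E →L[ℂ] HD D E) :=
  blk.comp (ev U).mapMatrix

theorem evM_eq (U : Δ →* (E →L[ℂ] E)) (Z : Matrix D D (MonoidAlgebra ℂ Δ)) :
    evM U Z = blk (Z.map (ev U)) := rfl

theorem evM_apply (U : Δ →* (E →L[ℂ] E)) (Z : Matrix D D (MonoidAlgebra ℂ Δ)) (v : HD D E)
    (i : D) : evM U Z v i = ∑ j, ev U (Z i j) (v j) := by
  rw [evM_eq, blk_apply]
  rfl

end Blk

/-- `U` is a unitary representation on a pre-Hilbert space -/
def IsUni {Δ : Type} [Group Δ] {E : Type} [NormedAddCommGroup E] [InnerProductSpace ℂ E]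
    (U : Δ →* (E →L[ℂ] E)) : Prop := ∀ g u v, ⟪U g u, v⟫_ℂ = ⟪u, U g⁻¹ v⟫_ℂ

theorem exists_adj {Δ : Type} [Group Δ] (z : MonoidAlgebra ℂ Δ) :
    ∃ z' : MonoidAlgebra ℂ Δ, ∀ (E : Type) [NormedAddCommGroup E] [InnerProductSpace ℂ E]
      (U : Δ →* (E →L[ℂ] E)), IsUni U → ∀ u v, ⟪ev U z' u, v⟫_ℂ = ⟪u, ev U z v⟫_ℂ := by
  induction z using MonoidAlgebra.induction_linear with
  | zero => exact ⟨0, fun E _ _ U _ u v => by simp⟩
  | add a b ha hb =>
    obtain ⟨a', ha⟩ := ha
    obtain ⟨b', hb⟩ := hb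
    refine ⟨a' + b', fun E _ _ U hU u v => ?_⟩
    simp only [map_add, ContinuousLinearMap.add_apply, inner_add_left, inner_add_right,
      ha E U hU, hb E U hU]
  | single g c =>
    refine ⟨MonoidAlgebra.single g⁻¹ (starRingEnd ℂ c), fun E _ _ U hU u v => ?_⟩
    simp only [ev_single, ContinuousLinearMap.smul_apply, inner_smul_left, inner_smul_right]
    rw [hU]
    simp

theorem exists_adjM {Δ : Type} [Group Δ] {D : Type} [Fintype D] [DecidableEq D]
    (Z : Matrix D D (MonoidAlgebra ℂ Δ)) :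
    ∃ Z' : Matrix D D (MonoidAlgebra ℂ Δ), ∀ (E : Type) [NormedAddCommGroup E]
      [InnerProductSpace ℂ E] (U : Δ →* (E →L[ℂ] E)), IsUni U →
      ∀ u v, ⟪evM U Z' u, v⟫_ℂ = ⟪u, evM U Z v⟫_ℂ := by
  choose f hf using exists_adj (Δ := Δ)
  refine ⟨Matrix.of fun i j => f (Z j i), fun E _ _ U hU u v => ?_⟩
  simp only [PiLp.inner_apply, evM_apply, sum_inner, inner_sum]
  rw [Finset.sum_comm]
  exact Finset.sum_congr rfl fun i _ => Finset.sum_congr rfl fun j _ => hf _ E U hU _ _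

theorem norm_le_of_adj {E E' : Type} [NormedAddCommGroup E] [InnerProductSpace ℂ E]
    [NormedAddCommGroup E'] [InnerProductSpace ℂ E'] {S : E →L[ℂ] E'} {T : E' →L[ℂ] E}
    (h : ∀ u v, ⟪S u, v⟫_ℂ = ⟪u, T v⟫_ℂ) : ‖S‖ ≤ ‖T‖ := by
  refine ContinuousLinearMap.opNorm_le_bound _ (norm_nonneg _) fun u => ?_
  have h1 : ‖S u‖ ^ 2 ≤ ‖u‖ * (‖T‖ * ‖S u‖) := by
    calc ‖S u‖ ^ 2 = ‖⟪S u, S u⟫_ℂ‖ := by simp [inner_self_eq_norm_sq_to_K]
      _ = ‖⟪u, T (S u)⟫_ℂ‖ := by rw [h]
      _ ≤ ‖u‖ * ‖T (S u)‖ := norm_inner_le_norm _ _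
      _ ≤ _ := mul_le_mul_of_nonneg_left (T.le_opNorm _) (norm_nonneg _)
  rcases (norm_nonneg (S u)).eq_or_lt with h0 | h0
  · rw [← h0]; positivity
  · nlinarith

section Reps

variable {Γ Λ : Type} [Group Γ] [Group Λ]
variable {H : Type} [NormedAddCommGroup H] [InnerProductSpace ℂ H] [CompleteSpace H]
variable {K : Type} [NormedAddCommGroup K] [InnerProductSpace ℂ K] [CompleteSpace K]

/-- underlying operators of a unitary representation -/
noncomputable def und (π : Γ →* unitary (H →L[ℂ] H)) : Γ →* (H →L[ℂ] H) := (unitary _).subtype.comp π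

@[simp] theorem und_apply (π : Γ →* unitary (H →L[ℂ] H)) (g : Γ) : und π g = π g := rfl

theorem uni_inner (u : unitary (H →L[ℂ] H)) (a b : H) :
    ⟪(u : H →L[ℂ] H) a, b⟫_ℂ = ⟪a, ((u⁻¹ : unitary (H →L[ℂ] H)) : H →L[ℂ] H) b⟫_ℂ := by
  rw [← Unitary.star_eq_inv, Unitary.coe_star, ContinuousLinearMap.star_eq_adjoint,
    ContinuousLinearMap.adjoint_inner_right]

theorem isUni_und (π : Γ →* unitary (H →L[ℂ] H)) : IsUni (und π) := fun g u v => by
  simp only [und_apply, map_inv]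
  exact uni_inner _ _ _

theorem uni_norm (u : unitary (H →L[ℂ] H)) (a : H) : ‖(u : H →L[ℂ] H) a‖ = ‖a‖ :=
  ContinuousLinearMap.norm_map_of_mem_unitary u.2 a

theorem uni_opNorm_le (u : unitary (H →L[ℂ] H)) : ‖(u : H →L[ℂ] H)‖ ≤ 1 :=
  ContinuousLinearMap.opNorm_le_bound _ zero_le_one fun a => by rw [uni_norm, one_mul]

/-- product of two commuting representations -/
noncomputable def pair (π : Γ →* unitary (H →L[ℂ] H)) (ρ : Λ →* unitary (H →L[ℂ] H))
    (h : ∀ g l, Commute (π g : H →L[ℂ] H) (ρ l : H →L[ℂ] H)) : Γ × Λ →* (H →L[ℂ] H) :=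
  (und π).noncommCoprod (und ρ) h

@[simp] theorem pair_apply (π : Γ →* unitary (H →L[ℂ] H)) (ρ : Λ →* unitary (H →L[ℂ] H))
    (h : ∀ g l, Commute (π g : H →L[ℂ] H) (ρ l : H →L[ℂ] H)) (p : Γ × Λ) :
    pair π ρ h p = (π p.1 : H →L[ℂ] H) * (ρ p.2 : H →L[ℂ] H) := rfl

theorem isUni_pair (π : Γ →* unitary (H →L[ℂ] H)) (ρ : Λ →* unitary (H →L[ℂ] H))
    (h : ∀ g l, Commute (π g : H →L[ℂ] H) (ρ l : H →L[ℂ] H)) : IsUni (pair π ρ h) := by
  intro p u v
  rw [pair_apply, pair_apply, (h _ _).eq, ContinuousLinearMap.mul_apply, uni_inner, uni_inner]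
  simp

/-- tensor product of two representations -/
noncomputable def tens (π : Γ →* unitary (H →L[ℂ] H)) (ρ : Λ →* unitary (K →L[ℂ] K)) :
    Γ × Λ →* (H ⊗[ℂ] K →L[ℂ] H ⊗[ℂ] K) where
  toFun p := TensorProduct.mapL (π p.1 : H →L[ℂ] H) (ρ p.2 : K →L[ℂ] K)
  map_one' := by
    simp only [Prod.fst_one, map_one, Prod.snd_one, OneMemClass.coe_one]
    exact TensorProduct.mapL_id_id
  map_mul' p q := by
    simp only [Prod.fst_mul, map_mul, Prod.snd_mul, Submonoid.coe_mul]
    exact TensorProduct.mapL_mul _ _ _ _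

@[simp] theorem tens_apply (π : Γ →* unitary (H →L[ℂ] H)) (ρ : Λ →* unitary (K →L[ℂ] K))
    (p : Γ × Λ) :
    tens π ρ p = TensorProduct.mapL (π p.1 : H →L[ℂ] H) (ρ p.2 : K →L[ℂ] K) := rfl

theorem isUni_tens (π : Γ →* unitary (H →L[ℂ] H)) (ρ : Λ →* unitary (K →L[ℂ] K)) :
    IsUni (tens π ρ) := by
  intro p u v
  induction u using TensorProduct.induction_on with
  | zero => simp
  | add a b ha hb => simp only [map_add, inner_add_left, ha, hb]
  | tmul a b =>
    induction v using TensorProduct.induction_on with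
    | zero => simp
    | add a b ha hb => simp only [map_add, inner_add_right, ha, hb]
    | tmul c d =>
      simp only [tens_apply, TensorProduct.mapL_tmul, TensorProduct.inner_tmul, uni_inner,
        Prod.fst_inv, Prod.snd_inv, map_inv]

end Reps

end Pool.Agent.P.MP_95bcfc_an
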