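import Pool.Agent.P.MP_95bcfc_an.Defs

set_option autoImplicit false

open scoped TensorProduct

namespace Pool.Agent.P.MP_95bcfc_an

section
variable {Γ : Type} [Group Γ]

/-- From unitaries to isometric equivalences. -/
noncomputable def toU {H : Type} [NormedAddCommGroup H] [InnerProductSpace ℂ H] [CompleteSpace H]
    (π : Γ →* unitary (H →L[ℂ] H)) : URep Γ H :=
  (Unitary.linearIsometryEquiv (𝕜 := ℂ) (H := H)).toMonoidHom.comp π

/-- From isometric equivalences to unitaries. -/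
noncomputable def ofU {H : Type} [NormedAddCommGroup H] [InnerProductSpace ℂ H] [CompleteSpace H]
    (π : URep Γ H) : Γ →* unitary (H →L[ℂ] H) :=
  (Unitary.linearIsometryEquiv (𝕜 := ℂ) (H := H)).symm.toMonoidHom.comp π

theorem toU_op {H : Type} [NormedAddCommGroup H] [InnerProductSpace ℂ H] [CompleteSpace H]
    (π : Γ →* unitary (H →L[ℂ] H)) (g : Γ) :
    (toU π).op g = (π g : H →L[ℂ] H).toLinearMap := rfl

theorem ofU_op {H : Type} [NormedAddCommGroup H] [InnerProductSpace ℂ H] [CompleteSpace H]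
    (π : URep Γ H) (g : Γ) :
    π.op g = (ofU π g : H →L[ℂ] H).toLinearMap := rfl

theorem sum_apply' {ι E : Type} [NormedAddCommGroup E] [InnerProductSpace ℂ E] (x : ι →₀ ℂ)
    (T : ι → E →L[ℂ] E) (v : E) :
    (x.sum fun p c => c • T p) v = x.sum fun p c => c • T p v := by
  unfold Finsupp.sum
  rw [ContinuousLinearMap.sum_apply]
  rfl

theorem sumLe_of_norm {ι E : Type} [NormedAddCommGroup E] [InnerProductSpace ℂ E] (x : ι →₀ ℂ)
    (T : ι → E →L[ℂ] E) {r : ℝ} (h : ‖x.sum fun p c => c • T p‖ ≤ r) :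
    SumLe x (fun p => (T p).toLinearMap) r := by
  intro v
  have h1 := (x.sum fun p c => c • T p).le_opNorm v
  rw [sum_apply'] at h1
  exact h1.trans (mul_le_mul_of_nonneg_right h (norm_nonneg v))

theorem norm_of_sumLe {ι E : Type} [NormedAddCommGroup E] [InnerProductSpace ℂ E] (x : ι →₀ ℂ)
    (T : ι → E →L[ℂ] E) {r : ℝ} (hr : 0 ≤ r) (h : SumLe x (fun p => (T p).toLinearMap) r) :
    ‖x.sum fun p c => c • T p‖ ≤ r := by
  refine ContinuousLinearMap.opNorm_le_bound _ hr fun v => ?_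
  rw [sum_apply']
  exact h v

theorem MinBound.nonneg {x : Γ × Γ →₀ ℂ} {r : ℝ} (h : MinBound x r) : 0 ≤ r := by
  have h1 := h ℂ ℂ 1 1 ((1 : ℂ) ⊗ₜ[ℂ] (1 : ℂ))
  rw [TensorProduct.norm_tmul] at h1
  simp only [norm_one, mul_one] at h1
  exact (norm_nonneg _).trans h1

theorem MaxBound.nonneg {x : Γ × Γ →₀ ℂ} {r : ℝ} (h : MaxBound x r) : 0 ≤ r := by
  have h1 := h ℂ 1 1 (fun _ _ => rfl) (1 : ℂ)
  simp only [norm_one, mul_one] at h1
  exact (norm_nonneg _).trans h1

theorem minBound_iff (x : Γ × Γ →₀ ℂ) (r : ℝ) : MinBound x r ↔ MinLe x r := by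
  constructor
  · intro h H _ _ _ K _ _ _ π ρ
    refine norm_of_sumLe x _ h.nonneg ?_
    have h1 := h H K (toU π) (toU ρ)
    simp only [TensorProduct.toLinearMap_mapL]
    exact h1
  · intro h H _ _ _ K _ _ _ π ρ
    have h1 := sumLe_of_norm x _ (h H K (ofU π) (ofU ρ))
    simp only [TensorProduct.toLinearMap_mapL] at h1
    exact h1

theorem maxBound_iff (x : Γ × Γ →₀ ℂ) (r : ℝ) : MaxBound x r ↔ MaxLe x r := by
  constructor
  · intro h L _ _ _ π ρ hc
    refine norm_of_sumLe x _ h.nonneg ?_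
    refine h L (toU π) (toU ρ) fun g k => ?_
    rw [toU_op, toU_op]
    exact congrArg ContinuousLinearMap.toLinearMap (hc g k).eq
  · intro h L _ _ _ π ρ hc
    refine sumLe_of_norm x _ (h L (ofU π) (ofU ρ) fun g k => ?_)
    apply ContinuousLinearMap.coe_injective
    exact hc g k

theorem kirchberg_iff (Γ : Type) [Group Γ] : KirchbergProperty Γ ↔ Kirchberg Γ := by
  unfold KirchbergProperty Kirchberg Nuc
  simp only [minBound_iff, maxBound_iff]

end

end Pool.Agent.P.MP_95bcfc_an
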