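import Mathlib

set_option autoImplicit false

namespace Pool.Agent.P.MP_95bcfc_an

theorem infinite_characterModule (A : Type) [AddCommGroup A] [Infinite A] :
    Infinite (CharacterModule A) := by
  by_contra hc
  rw [not_infinite_iff_finite] at hc
  set n := Nat.card (CharacterModule A) with hn
  have hn0 : 0 < n := Nat.card_pos
  have hfin : {u : AddCircle (1 : ℚ) | n • u = 0}.Finite := AddCircle.finite_torsion 1 hn0
  haveI := hfin.to_subtype
  let f : A → CharacterModule A → {u : AddCircle (1 : ℚ) | n • u = 0} := fun a c =>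
    ⟨c a, by
      have h1 : n • c = 0 := card_nsmul_eq_zero'
      exact congrArg (fun d : CharacterModule A => d a) h1⟩
  have hf : Function.Injective f := by
    intro a b hab
    rw [← sub_eq_zero]
    refine CharacterModule.eq_zero_of_character_apply fun c => ?_
    rw [map_sub, sub_eq_zero]
    exact congrArg Subtype.val (congrFun hab c)
  haveI := Finite.of_injective f hf
  exact not_finite A

/-- the embedding of the rational circle in the complex numbers -/
theorem exists_circle_emb : ∃ j : Multiplicative (AddCircle (1 : ℚ)) →* ℂ,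
    Function.Injective j ∧ ∀ x, ‖j x‖ = 1 := by
  let f : ℚ →+ AddCircle (1 : ℝ) := (QuotientAddGroup.mk' _).comp (Rat.castHom ℝ).toAddMonoidHom
  have hf : ∀ x : ℚ, f x = 0 ↔ x ∈ AddSubgroup.zmultiples (1 : ℚ) := by
    intro x
    change ((x : ℝ) : AddCircle (1 : ℝ)) = 0 ↔ _
    rw [AddCircle.coe_eq_zero_iff, AddSubgroup.mem_zmultiples_iff]
    refine exists_congr fun n => ?_
    simp only [zsmul_eq_mul, mul_one]
    exact_mod_cast Iff.rfl
  let g : AddCircle (1 : ℚ) →+ AddCircle (1 : ℝ) :=
    QuotientAddGroup.lift _ f fun x hx => (hf x).2 hx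
  have hg : Function.Injective g := by
    rw [injective_iff_map_eq_zero]
    intro x hx
    induction x using QuotientAddGroup.induction_on with
    | H x => exact (QuotientAddGroup.eq_zero_iff x).2 ((hf x).1 hx)
  refine ⟨⟨⟨fun x => (AddCircle.toCircle (g x.toAdd) : ℂ), by simp⟩, fun x y => by
    simp [AddCircle.toCircle_add]⟩, fun x y h => ?_, fun x => Circle.norm_coe _⟩
  exact hg (AddCircle.injective_toCircle one_ne_zero (Subtype.ext h))

theorem exists_chars (A : Type) [AddCommGroup A] [Infinite A] (Ω : Type) [Fintype Ω]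
    [DecidableEq Ω] : ∃ ch : Ω → (Multiplicative A →* ℂ), (∀ ω a, ‖ch ω a‖ = 1) ∧
      ∀ v : Ω, ∃ z : Multiplicative A →₀ ℂ, ∀ ω,
        (z.sum fun a c => c * ch ω a) = if ω = v then 1 else 0 := by
  haveI := infinite_characterModule A
  obtain ⟨j, hj, hj1⟩ := exists_circle_emb
  obtain ⟨u⟩ : Nonempty (Ω ↪ CharacterModule A) :=
    ⟨(Fintype.equivFin Ω).toEmbedding.trans
      (Fin.valEmbedding.trans (Infinite.natEmbedding _))⟩
  let ch : Ω → (Multiplicative A →* ℂ) := fun ω =>
    j.comp (AddMonoidHom.toMultiplicative (show A →+ AddCircle (1 : ℚ) from u ω))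
  have hch : Function.Injective ch := by
    intro ω ω' h
    refine u.injective (AddMonoidHom.ext fun a => ?_)
    exact hj (DFunLike.congr_fun h (Multiplicative.ofAdd a))
  refine ⟨ch, fun ω a => hj1 _, fun v => ?_⟩
  have hli := (linearIndependent_monoidHom (Multiplicative A) ℂ).comp ch hch
  have htop : Submodule.span ℂ (Set.range fun a : Multiplicative A => fun ω => ch ω a) = ⊤ := by
    by_contra hc
    obtain ⟨f, hf0, hf⟩ := Submodule.exists_le_ker_of_lt_top _ (lt_top_iff_ne_top.2 hc)
    have h1 : ∀ a, f (fun ω => ch ω a) = 0 := fun a => hf (Submodule.subset_span ⟨a, rfl⟩)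
    have h2 := Fintype.linearIndependent_iff.1 hli (fun ω => f (Pi.single ω 1)) (by
      funext a
      have := h1 a
      rw [LinearMap.pi_apply_eq_sum_univ] at this
      rw [Finset.sum_apply, Pi.zero_apply, ← this]
      refine Finset.sum_congr rfl fun ω _ => ?_
      have e : (fun j => if ω = j then (1 : ℂ) else 0) = Pi.single ω 1 := by
        funext j; simp [Pi.single_apply, eq_comm]
      simp [e, mul_comm])
    apply hf0
    ext ω
    simpa using h2 ω
  have hm : (fun ω => if ω = v then (1 : ℂ) else 0) ∈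
      Submodule.span ℂ (Set.range fun a : Multiplicative A => fun ω => ch ω a) := by
    rw [htop]; trivial
  obtain ⟨z, hz⟩ := Finsupp.mem_span_range_iff_exists_finsupp.1 hm
  refine ⟨z, fun ω => ?_⟩
  rw [← congrFun hz ω, Finsupp.sum, Finsupp.sum, Finset.sum_apply]
  rfl

end Pool.Agent.P.MP_95bcfc_an
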