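import Mathlib

set_option autoImplicit false

namespace Pool.Agent.P.MP_95bcfc_an

/-- a multigraph with edges labelled by a group -/
structure LG (V E F : Type) where
  /-- source -/
  src : E → V
  /-- target -/
  tgt : E → V
  /-- label -/
  lab : E → F

namespace LG

variable {V E F : Type} [Group F] (G : LG V E F)

/-- start of a directed step -/
def hd (s : E × Bool) : V := if s.2 then G.src s.1 else G.tgt s.1
/-- end of a directed step -/
def tl (s : E × Bool) : V := if s.2 then G.tgt s.1 else G.src s.1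
/-- label of a directed step -/
def sl (s : E × Bool) : F := if s.2 then G.lab s.1 else (G.lab s.1)⁻¹

/-- walks -/
def Walk : V → List (E × Bool) → V → Prop
  | v, [], v' => v = v'
  | v, s :: l, v' => G.hd s = v ∧ Walk (G.tl s) l v'

/-- label of a walk -/
def wl (l : List (E × Bool)) : F := (l.map G.sl).prod

/-- an edge that lies on no cycle -/
def Bridge (e : E) : Prop := ¬ ∃ l, G.Walk (G.tgt e) l (G.src e) ∧ ∀ s ∈ l, s.1 ≠ e

/-- joined by a walk of bridges with the given label -/
def Rel (v : V) (w : F) (v' : V) : Prop :=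
  ∃ l, G.Walk v l v' ∧ (∀ s ∈ l, G.Bridge s.1) ∧ G.wl l = w

/-- the reversed walk -/
def rev (l : List (E × Bool)) : List (E × Bool) := (l.map fun s => (s.1, !s.2)).reverse

variable {G}

omit [Group F] in
theorem Walk.append {v v' v'' : V} {l l' : List (E × Bool)} (h : G.Walk v l v')
    (h' : G.Walk v' l' v'') : G.Walk v (l ++ l') v'' := by
  induction l generalizing v with
  | nil => cases h; exact h'
  | cons s l ih => exact ⟨h.1, ih h.2⟩

omit [Group F] in
theorem Walk.split {v v'' : V} {l l' : List (E × Bool)} (h : G.Walk v (l ++ l') v'') :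
    ∃ v', G.Walk v l v' ∧ G.Walk v' l' v'' := by
  induction l generalizing v with
  | nil => exact ⟨v, rfl, h⟩
  | cons s l ih =>
    obtain ⟨v', h1, h2⟩ := ih h.2
    exact ⟨v', ⟨h.1, h1⟩, h2⟩

omit [Group F] in
theorem Walk.rev {v v' : V} {l : List (E × Bool)} (h : G.Walk v l v') : G.Walk v' (rev l) v := by
  induction l generalizing v with
  | nil => exact h.symm
  | cons s l ih =>
    have e : LG.rev (s :: l) = LG.rev l ++ [(s.1, !s.2)] := by simp [LG.rev]
    rw [e]
    refine (ih h.2).append ⟨?_, ?_⟩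
    · obtain ⟨e, b⟩ := s
      cases b <;> rfl
    · obtain ⟨e, b⟩ := s
      rw [← h.1]
      cases b <;> rfl

theorem mem_rev {l : List (E × Bool)} {s : E × Bool} (h : s ∈ rev l) : ∃ t ∈ l, t.1 = s.1 := by
  simp only [rev, List.mem_reverse, List.mem_map] at h
  obtain ⟨t, ht, rfl⟩ := h
  exact ⟨t, ht, rfl⟩

@[simp] theorem wl_nil : G.wl [] = 1 := rfl

@[simp] theorem wl_cons (s : E × Bool) (l : List (E × Bool)) :
    G.wl (s :: l) = G.sl s * G.wl l := by simp [wl]

@[simp] theorem wl_append (l l' : List (E × Bool)) : G.wl (l ++ l') = G.wl l * G.wl l' := by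
  simp [wl]

theorem wl_rev (l : List (E × Bool)) : G.wl (rev l) = (G.wl l)⁻¹ := by
  induction l with
  | nil => simp [rev]
  | cons s l ih =>
    have e : LG.rev (s :: l) = LG.rev l ++ [(s.1, !s.2)] := by simp [LG.rev]
    rw [e, wl_append, ih]
    obtain ⟨e, b⟩ := s
    cases b <;> simp [sl]

omit [Group F] in
theorem Bridge.not_walk {s : E × Bool} (h : G.Bridge s.1) {l : List (E × Bool)}
    (hw : G.Walk (G.tl s) l (G.hd s)) (hl : ∀ t ∈ l, t.1 ≠ s.1) : False := by
  obtain ⟨e, b⟩ := s
  cases b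
  · refine h ⟨rev l, hw.rev, fun t ht => ?_⟩
    obtain ⟨t', h1, h2⟩ := mem_rev ht
    rw [← h2]
    exact hl t' h1
  · exact h ⟨l, hw, hl⟩

theorem wl_closed (n : ℕ) : ∀ (l : List (E × Bool)) (v : V), l.length ≤ n → G.Walk v l v →
    (∀ s ∈ l, G.Bridge s.1) → G.wl l = 1 := by
  classical
  induction n with
  | zero =>
    intro l v hl _ _
    rw [List.length_eq_zero_iff.1 (Nat.le_zero.1 hl)]
    rfl
  | succ n ih =>
    intro l v hl hw hb
    cases l with
    | nil => rfl
    | cons s l =>
      obtain ⟨h1, h2⟩ := hw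
      subst h1
      have hs := hb s (by simp)
      have hex : ∃ t ∈ l, t.1 = s.1 := by
        by_contra hc
        push Not at hc
        exact hs.not_walk h2 hc
      obtain ⟨l1, t, l2, rfl, ht, hl1⟩ : ∃ l1 t l2, l = l1 ++ t :: l2 ∧ t.1 = s.1 ∧
          ∀ u ∈ l1, u.1 ≠ s.1 := by
        clear h2 hl hb
        induction l with
        | nil => simp at hex
        | cons a l ih' =>
          by_cases ha : a.1 = s.1
          · exact ⟨[], a, l, rfl, ha, by simp⟩
          · obtain ⟨t, ht, ht'⟩ := hex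
            rcases List.mem_cons.1 ht with rfl | ht
            · exact absurd ht' ha
            · obtain ⟨l1, t', l2, rfl, h3, h4⟩ := ih' ⟨t, ht, ht'⟩
              refine ⟨a :: l1, t', l2, rfl, h3, fun u hu => ?_⟩
              rcases List.mem_cons.1 hu with rfl | hu
              · exact ha
              · exact h4 u hu
      obtain ⟨v', h3, h4, h5⟩ := h2.split
      subst h4
      have hts : t = (s.1, !s.2) := by
        by_contra hc
        have : t = s := by
          obtain ⟨e, b⟩ := s
          obtain ⟨e', b'⟩ := t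
          simp only at ht
          subst ht
          cases b <;> cases b' <;> simp_all
        subst this
        exact hs.not_walk h3 hl1
      have e1 : G.hd t = G.tl s := by
        rw [hts]; obtain ⟨e, b⟩ := s; cases b <;> rfl
      have e2 : G.tl t = G.hd s := by
        rw [hts]; obtain ⟨e, b⟩ := s; cases b <;> rfl
      have e3 : G.sl s * G.sl t = 1 := by
        rw [hts]; obtain ⟨e, b⟩ := s; cases b <;> simp [sl]
      simp only [List.length_cons, List.length_append] at hl
      rw [e1] at h3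
      rw [e2] at h5
      have h6 := ih l1 _ (by omega) h3 fun u hu => hb u (by simp [hu])
      have h7 := ih l2 _ (by omega) h5 fun u hu => hb u (by simp [hu])
      simp [h6, h7, e3]

theorem Rel.refl (v : V) : G.Rel v 1 v := ⟨[], rfl, by simp, rfl⟩

theorem Rel.symm {v v' : V} {w : F} (h : G.Rel v w v') : G.Rel v' w⁻¹ v := by
  obtain ⟨l, h1, h2, rfl⟩ := h
  refine ⟨rev l, h1.rev, fun s hs => ?_, wl_rev l⟩
  obtain ⟨t, ht, e⟩ := mem_rev hs
  exact e ▸ h2 t ht

theorem Rel.trans {v v' v'' : V} {w w' : F} (h : G.Rel v w v') (h' : G.Rel v' w' v'') :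
    G.Rel v (w * w') v'' := by
  obtain ⟨l, h1, h2, rfl⟩ := h
  obtain ⟨l', h1', h2', rfl⟩ := h'
  refine ⟨l ++ l', h1.append h1', fun s hs => ?_, wl_append _ _⟩
  rcases List.mem_append.1 hs with hs | hs
  · exact h2 s hs
  · exact h2' s hs

theorem Rel.unique {v v' : V} {w w' : F} (h : G.Rel v w v') (h' : G.Rel v w' v') : w = w' := by
  obtain ⟨l, h1, h2, h3⟩ := h.trans h'.symm
  rw [wl_closed _ l v le_rfl h1 h2] at h3
  exact mul_inv_eq_one.1 h3.symm

theorem Bridge.rel {e : E} (h : G.Bridge e) : G.Rel (G.src e) (G.lab e) (G.tgt e) :=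
  ⟨[(e, true)], ⟨rfl, rfl⟩, by simpa using h, by simp [sl]⟩

variable (G) in
theorem exists_pot : ∃ (cl : V → V) (φ : V → F), ∀ v w v',
    G.Rel v w v' ↔ cl v = cl v' ∧ w = (φ v)⁻¹ * φ v' := by
  let s : Setoid V := ⟨fun v v' => ∃ w, G.Rel v w v', fun v => ⟨1, Rel.refl v⟩,
    fun ⟨_, h⟩ => ⟨_, h.symm⟩, fun ⟨_, h⟩ ⟨_, h'⟩ => ⟨_, h.trans h'⟩⟩
  have h1 : ∀ v, ∃ w, G.Rel (Quotient.mk s v).out w v := fun v => Quotient.mk_out (s := s) v
  choose φ hφ using h1
  refine ⟨fun v => (Quotient.mk s v).out, φ, fun v w v' => ⟨fun h => ?_, fun h => ?_⟩⟩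
  · have e : Quotient.mk s v = Quotient.mk s v' := Quotient.sound ⟨w, h⟩
    refine ⟨by simp only [e], ?_⟩
    have h2 := (hφ v).trans h
    rw [e] at h2
    rw [← h2.unique (hφ v')]
    simp
  · obtain ⟨h2, rfl⟩ := h
    have h3 := hφ v'
    simp only at h2
    rw [← h2] at h3
    exact (hφ v).symm.trans h3

omit [Group F] in
theorem Walk.nodup {v v' : V} {l : List (E × Bool)} (h : G.Walk v l v') :
    ∃ l', G.Walk v l' v' ∧ (l'.map Prod.fst).Nodup ∧ ∀ s ∈ l', s ∈ l := by
  induction l generalizing v with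
  | nil => exact ⟨[], h, by simp, by simp⟩
  | cons s l ih =>
    obtain ⟨l', h1, h2, h3⟩ := ih h.2
    by_cases hs : s.1 ∈ l'.map Prod.fst
    · obtain ⟨t, ht, e⟩ := List.mem_map.1 hs
      obtain ⟨l1, l2, rfl⟩ := List.append_of_mem ht
      obtain ⟨u, -, h4⟩ := h1.split
      have h5 : ((t :: l2).map Prod.fst).Nodup := by
        rw [List.map_append] at h2
        exact h2.of_append_right
      by_cases hb : t.2 = s.2
      · have e' : t = s := Prod.ext e hb
        subst e'
        exact ⟨t :: l2, ⟨h.1, h4.2⟩, h5, fun a ha => List.mem_cons_of_mem _ (h3 a (by simp [ha]))⟩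
      · have e2 : G.tl t = v := by
          rw [← h.1]
          obtain ⟨a, b⟩ := s
          obtain ⟨a', b'⟩ := t
          simp only at e hb
          subst e
          cases b <;> cases b' <;> simp_all [hd, tl]
        refine ⟨l2, e2 ▸ h4.2, (List.nodup_cons.1 h5).2, fun a ha =>
          List.mem_cons_of_mem _ (h3 a (by simp [ha]))⟩
    · refine ⟨s :: l', ⟨h.1, h1⟩, List.nodup_cons.2 ⟨hs, h2⟩, fun a ha => ?_⟩
      rcases List.mem_cons.1 ha with rfl | ha
      · simp
      · exact List.mem_cons_of_mem _ (h3 a ha)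

section Map

variable {G' : LG V E F} {fV : V ≃ V} {fE : E ≃ E}

/-- an isomorphism of labelled graphs -/
structure IsMap (G G' : LG V E F) (fV : V ≃ V) (fE : E ≃ E) : Prop where
  src : ∀ e, G'.src (fE e) = fV (G.src e)
  tgt : ∀ e, G'.tgt (fE e) = fV (G.tgt e)
  lab : ∀ e, G'.lab (fE e) = G.lab e

omit [Group F] in
theorem IsMap.symm (h : IsMap G G' fV fE) : IsMap G' G fV.symm fE.symm where
  src e := by rw [Equiv.eq_symm_apply, ← h.src]; simp
  tgt e := by rw [Equiv.eq_symm_apply, ← h.tgt]; simp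
  lab e := by rw [← h.lab]; simp

omit [Group F] in
theorem IsMap.walk (h : IsMap G G' fV fE) {v v' : V} {l : List (E × Bool)} (hw : G.Walk v l v') :
    G'.Walk (fV v) (l.map fun s => (fE s.1, s.2)) (fV v') := by
  induction l generalizing v with
  | nil => exact congrArg fV hw
  | cons s l ih =>
    have h2 := ih hw.2
    obtain ⟨e, b⟩ := s
    refine ⟨?_, ?_⟩
    · rw [← hw.1]
      cases b
      · exact h.tgt e
      · exact h.src e
    · cases b
      · change G'.Walk (G'.src (fE e)) _ _
        rw [h.src]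
        exact h2
      · change G'.Walk (G'.tgt (fE e)) _ _
        rw [h.tgt]
        exact h2

omit [Group F] in
theorem IsMap.bridge (h : IsMap G G' fV fE) {e : E} (hb : G.Bridge e) : G'.Bridge (fE e) := by
  rintro ⟨l, h1, h2⟩
  have h3 := h.symm.walk h1
  rw [h.src, h.tgt, Equiv.symm_apply_apply, Equiv.symm_apply_apply] at h3
  refine hb ⟨_, h3, fun s hs => ?_⟩
  obtain ⟨t, ht, rfl⟩ := List.mem_map.1 hs
  intro e'
  exact h2 t ht (by rw [← e']; simp)

theorem IsMap.rel (h : IsMap G G' fV fE) {v v' : V} {w : F} (hr : G.Rel v w v') :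
    G'.Rel (fV v) w (fV v') := by
  obtain ⟨l, h1, h2, rfl⟩ := hr
  refine ⟨_, h.walk h1, fun s hs => ?_, ?_⟩
  · obtain ⟨t, ht, rfl⟩ := List.mem_map.1 hs
    exact h.bridge (h2 t ht)
  · simp only [wl, List.map_map]
    congr 1
    refine List.map_congr_left fun s _ => ?_
    simp [sl, h.lab]

end Map

section Meas

variable {X : Type} [MeasurableSpace X] [Countable V] [Countable E] [Countable F]
  {G : X → LG V E F}

/-- a measurable family of labelled graphs -/
structure Meas (G : X → LG V E F) : Prop where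
  src : ∀ e v, MeasurableSet {ω | (G ω).src e = v}
  tgt : ∀ e v, MeasurableSet {ω | (G ω).tgt e = v}
  lab : ∀ e w, MeasurableSet {ω | (G ω).lab e = w}

omit [Group F] [Countable E] [Countable F] in
theorem Meas.walk (h : Meas G) (l : List (E × Bool)) (a b : X → V)
    (ha : ∀ v, MeasurableSet {ω | a ω = v}) (hb : ∀ v, MeasurableSet {ω | b ω = v}) :
    MeasurableSet {ω | (G ω).Walk (a ω) l (b ω)} := by
  have heq : ∀ (a b : X → V), (∀ v, MeasurableSet {ω | a ω = v}) →
      (∀ v, MeasurableSet {ω | b ω = v}) → MeasurableSet {ω | a ω = b ω} := by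
    intro a b ha hb
    have : {ω | a ω = b ω} = ⋃ v, {ω | a ω = v} ∩ {ω | b ω = v} := by
      ext ω; simp [eq_comm]
    rw [this]
    exact MeasurableSet.iUnion fun v => (ha v).inter (hb v)
  induction l generalizing a with
  | nil => exact heq a b ha hb
  | cons s l ih =>
    obtain ⟨e, c⟩ := s
    cases c
    · exact (heq _ a (h.tgt e) ha).inter (ih _ (h.src e))
    · exact (heq _ a (h.src e) ha).inter (ih _ (h.tgt e))

omit [Group F] [Countable F] in
theorem Meas.bridge (h : Meas G) (e : E) : MeasurableSet {ω | (G ω).Bridge e} := by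
  have : {ω | (G ω).Bridge e} = (⋃ l : List (E × Bool),
      {ω | (G ω).Walk ((G ω).tgt e) l ((G ω).src e)} ∩ {_ω | ∀ s ∈ l, s.1 ≠ e})ᶜ := by
    ext ω; simp [Bridge]
  rw [this]
  exact (MeasurableSet.iUnion fun l => (h.walk l _ _ (h.tgt e) (h.src e)).inter
    (MeasurableSet.const _)).compl

omit [Countable V] [Countable E] in
theorem Meas.wl (h : Meas G) (l : List (E × Bool)) (w : F) :
    MeasurableSet {ω | (G ω).wl l = w} := by
  induction l generalizing w with
  | nil => exact MeasurableSet.const (1 = w)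
  | cons s l ih =>
    have : {ω | (G ω).wl (s :: l) = w} = ⋃ u, {ω | (G ω).lab s.1 = u} ∩
        {ω | (G ω).wl l = (if s.2 then u else u⁻¹)⁻¹ * w} := by
      ext ω
      simp [sl, eq_inv_mul_iff_mul_eq]
    rw [this]
    exact MeasurableSet.iUnion fun u => (h.lab _ _).inter (ih _)

theorem Meas.rel (h : Meas G) (v : V) (w : F) (v' : V) :
    MeasurableSet {ω | (G ω).Rel v w v'} := by
  have : {ω | (G ω).Rel v w v'} = ⋃ l : List (E × Bool), {ω | (G ω).Walk v l v'} ∩
      ((⋂ s ∈ {s | s ∈ l}, {ω | (G ω).Bridge s.1}) ∩ {ω | (G ω).wl l = w}) := by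
    ext ω; simp [Rel]
  rw [this]
  refine MeasurableSet.iUnion fun l => (h.walk l _ _ (fun _ => MeasurableSet.const _)
    fun _ => MeasurableSet.const _).inter (MeasurableSet.inter ?_ (h.wl l w))
  exact MeasurableSet.biInter (Set.to_countable _) fun s _ => h.bridge _

end Meas

end LG

end Pool.Agent.P.MP_95bcfc_an
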