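import Pool.Agent.P.MP_95bcfc_an.Defs

set_option autoImplicit false
set_option linter.unusedSectionVars false

namespace Pool.Agent.P.MP_95bcfc_an

open Classical

variable {G : Type} [Group G]

/-- finitely supported functions with natural values -/
def FS (f : G → ℕ) : Prop := (Function.support f).Finite

/-- inner product -/
noncomputable def ip (f g : G → ℕ) : ℝ := ∑' x, (f x : ℝ) * (g x : ℝ)

/-- left translation -/
def sh (s : G) (f : G → ℕ) : G → ℕ := fun x => f (s⁻¹ * x)

/-- convolution by a family of group elements -/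
def cv {I : Type} [Fintype I] (s : I → G) (f : G → ℕ) : G → ℕ := fun x => ∑ a, f ((s a)⁻¹ * x)

theorem FS.sh {f : G → ℕ} (h : FS f) (s : G) : FS (sh s f) :=
  h.preimage (f := fun x => s⁻¹ * x) (mul_right_injective _).injOn

theorem FS.cv {I : Type} [Fintype I] {f : G → ℕ} (h : FS f) (s : I → G) : FS (cv s f) := by
  refine (Set.finite_iUnion fun a => h.sh (s a)).subset fun x hx => ?_
  obtain ⟨a, -, ha⟩ := Finset.exists_ne_zero_of_sum_ne_zero hx
  exact Set.mem_iUnion.2 ⟨a, ha⟩

theorem FS.summable {f : G → ℕ} (h : FS f) (u : G → ℝ) : Summable fun x => (f x : ℝ) * u x := by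
  refine summable_of_finite_support (h.subset fun x hx => ?_)
  intro h0
  exact hx (by simp [h0])

theorem ip_comm (f g : G → ℕ) : ip f g = ip g f := by simp only [ip, mul_comm]

theorem ip_sh (s : G) (f g : G → ℕ) : ip (sh s f) (sh s g) = ip f g :=
  (Equiv.mulLeft s⁻¹).tsum_eq fun x => (f x : ℝ) * (g x : ℝ)

theorem sh_sh (s t : G) (f : G → ℕ) : sh s (sh t f) = sh (s * t) f := by
  funext x; simp [sh, mul_assoc]

theorem sh_one (f : G → ℕ) : sh 1 f = f := by funext x; simp [sh]

theorem ip_nonneg (f g : G → ℕ) : 0 ≤ ip f g := tsum_nonneg fun _ => by positivity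

theorem ip_le {f g : G → ℕ} (hf : FS f) (hg : FS g) : 2 * ip f g ≤ ip f f + ip g g := by
  rw [ip, ip, ip, ← tsum_mul_left, ← (hf.summable _).tsum_add (hg.summable _)]
  refine Summable.tsum_le_tsum (fun x => ?_) ((hf.summable _).mul_left 2)
    ((hf.summable _).add (hg.summable _))
  nlinarith [sq_nonneg ((f x : ℝ) - g x)]

theorem ip_cv {I : Type} [Fintype I] (s : I → G) {f : G → ℕ} (hf : FS f) :
    ip (cv s f) (cv s f) = ∑ a, ∑ b, ip (sh (s a) f) (sh (s b) f) := by
  have e : ∀ x, ((cv s f x : ℕ) : ℝ) * ((cv s f x : ℕ) : ℝ) =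
      ∑ a, ∑ b, (sh (s a) f x : ℝ) * (sh (s b) f x : ℝ) := by
    intro x
    simp only [sh, cv, Nat.cast_sum, Finset.sum_mul_sum]
  simp only [ip, e]
  rw [Summable.tsum_finsetSum fun a _ => summable_sum fun b _ => (hf.sh (s a)).summable _]
  exact Finset.sum_congr rfl fun a _ =>
    Summable.tsum_finsetSum fun b _ => (hf.sh (s a)).summable _

theorem layer {S : Finset G} {ε : ℝ}
    (h : ∀ F : Finset G, F.Nonempty → ∃ s ∈ S, ε * (F.card : ℝ) ≤
      (((F.image fun x => s * x) \ F).card : ℝ)) {f : G → ℕ} (hf : FS f) :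
    ε * ∑' x, (f x : ℝ) ≤ ∑ s ∈ S, ∑' x, ((f (s⁻¹ * x) - f x : ℕ) : ℝ) := by
  obtain ⟨M, hM⟩ : ∃ M, ∀ x, f x ≤ M := by
    obtain ⟨M, hM⟩ := (hf.image f).bddAbove
    refine ⟨M, fun x => ?_⟩
    by_cases hx : f x = 0
    · omega
    · exact hM ⟨x, hx, rfl⟩
  let F : ℕ → Finset G := fun t => hf.toFinset.filter fun x => t < f x
  have hF : ∀ t x, x ∈ F t ↔ t < f x := by
    intro t x
    simp only [F, Finset.mem_filter, Set.Finite.mem_toFinset, Function.mem_support]
    omega
  have hcard : ∀ A : Finset G, (A.card : ℝ) = ∑' x, if x ∈ A then (1 : ℝ) else 0 := by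
    intro A
    rw [tsum_eq_sum (s := A) fun x hx => if_neg hx]
    simp
  have hsum : ∀ A : Finset G, Summable fun x => if x ∈ A then (1 : ℝ) else 0 := fun A =>
    summable_of_ne_finset_zero (s := A) fun x hx => if_neg hx
  have h1 : ∑' x, (f x : ℝ) = ∑ t ∈ Finset.range M, ((F t).card : ℝ) := by
    simp only [hcard]
    rw [← Summable.tsum_finsetSum fun t _ => hsum _]
    refine tsum_congr fun x => ?_
    simp only [hF, Finset.sum_boole]
    congr 1
    refine (Finset.card_range (f x)).symm.trans ?_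
    congr 1
    ext t
    have := hM x
    simp only [Finset.mem_range, Finset.mem_filter]
    omega
  have h2 : ∀ s, ∑' x, ((f (s⁻¹ * x) - f x : ℕ) : ℝ) =
      ∑ t ∈ Finset.range M, ((((F t).image fun x => s * x) \ F t).card : ℝ) := by
    intro s
    simp only [hcard]
    rw [← Summable.tsum_finsetSum fun t _ => hsum _]
    refine tsum_congr fun x => ?_
    have e : ∀ t, x ∈ ((F t).image fun x => s * x) \ F t ↔ t < f (s⁻¹ * x) ∧ f x ≤ t := by
      intro t
      simp only [Finset.mem_sdiff, Finset.mem_image, hF, not_lt]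
      refine and_congr_left fun _ => ⟨?_, fun h => ⟨_, h, by simp⟩⟩
      rintro ⟨y, hy, rfl⟩
      simpa using hy
    simp only [e, Finset.sum_boole]
    congr 1
    rw [← Nat.card_Ico]
    congr 1
    ext t
    have := hM (s⁻¹ * x)
    simp only [Finset.mem_range, Finset.mem_filter, Finset.mem_Ico]
    omega
  simp only [h1, h2]
  rw [Finset.sum_comm, Finset.mul_sum]
  refine Finset.sum_le_sum fun t _ => ?_
  rcases (F t).eq_empty_or_nonempty with h0 | h0
  · simp [h0]
  · obtain ⟨s, hs, h3⟩ := h _ h0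
    exact h3.trans (Finset.single_le_sum
      (f := fun s => ((((F t).image fun x => s * x) \ F t).card : ℝ)) (fun _ _ => by positivity) hs)

theorem gap (hG : ¬ Folner G) : ∃ (S : Finset G) (c : ℝ), 0 < c ∧ ∀ g : G → ℕ, FS g →
    ∑ s ∈ S, ip (sh s g) g ≤ (S.card - c) * ip g g := by
  simp only [Folner, not_forall, not_exists, not_and, not_lt] at hG
  obtain ⟨S, ε, hε, h⟩ := hG
  have h' : ∀ F : Finset G, F.Nonempty → ∃ s ∈ S, ε * (F.card : ℝ) ≤
      (((F.image fun x => s * x) \ F).card : ℝ) := fun F hF => by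
    obtain ⟨s, hs, h1⟩ := h F hF
    exact ⟨s, hs, h1⟩
  have hS : (0 : ℝ) < S.card := by
    obtain ⟨s, hs, -⟩ := h' {1} (by simp)
    exact_mod_cast Finset.card_pos.2 ⟨s, hs⟩
  set η : ℝ := ε / (4 * S.card) with hη
  have hη0 : 0 < η := by positivity
  refine ⟨S, η * ε / 2, by positivity, fun g hg => ?_⟩
  have hf : FS fun x => g x * g x := hg.subset fun x hx h0 => hx (by simp [h0])
  have h1 := layer h' hf
  have h2 : ∀ s, η * ∑' x, ((g (s⁻¹ * x) * g (s⁻¹ * x) - g x * g x : ℕ) : ℝ) ≤
      (ip g g - ip (sh s g) g) + 2 * η ^ 2 * ip g g := by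
    intro s
    have e : (ip g g - ip (sh s g) g) + 2 * η ^ 2 * ip g g =
        ∑' x, ((1 / 2 + η ^ 2) * ((sh s g x : ℝ) * sh s g x) + (1 / 2 + η ^ 2) * ((g x : ℝ) * g x) -
          (sh s g x : ℝ) * g x) := by
      rw [Summable.tsum_sub ((((hg.sh s).summable _).mul_left _).add ((hg.summable _).mul_left _))
        ((hg.sh s).summable _), Summable.tsum_add (((hg.sh s).summable _).mul_left _)
        ((hg.summable _).mul_left _), tsum_mul_left, tsum_mul_left]
      have := ip_sh s g g
      simp only [ip] at this ⊢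
      rw [this]
      ring
    rw [e, ← tsum_mul_left]
    refine Summable.tsum_le_tsum (fun x => ?_) (Summable.mul_left _ ?_)
      (((((hg.sh s).summable _).mul_left _).add ((hg.summable _).mul_left _)).sub
        ((hg.sh s).summable _))
    · simp only [sh]
      generalize g (s⁻¹ * x) = a
      generalize g x = b
      rcases le_total (a * a) (b * b) with hab | hab
      · rw [Nat.sub_eq_zero_of_le hab]
        nlinarith [sq_nonneg ((a : ℝ) - b), sq_nonneg (η * a), sq_nonneg (η * b)]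
      · rw [Nat.cast_sub hab]
        push_cast
        nlinarith [sq_nonneg ((a : ℝ) - b - η * (a + b)), sq_nonneg (η * (a - b))]
    · refine summable_of_finite_support ((hg.sh s).subset fun x hx h0 => hx ?_)
      simp only [sh] at h0
      simp [h0]
  have h3 : η * (ε * ip g g) ≤
      ∑ s ∈ S, ((ip g g - ip (sh s g) g) + 2 * η ^ 2 * ip g g) := by
    refine le_trans ?_ (Finset.sum_le_sum fun s _ => h2 s)
    rw [← Finset.mul_sum]
    refine mul_le_mul_of_nonneg_left ?_ hη0.le
    simpa only [ip, Nat.cast_mul] using h1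
  rw [Finset.sum_add_distrib, Finset.sum_sub_distrib, Finset.sum_const, Finset.sum_const,
    nsmul_eq_mul, nsmul_eq_mul] at h3
  have h4 : (S.card : ℝ) * (2 * η ^ 2) = η * ε / 2 := by rw [hη]; field_simp; ring
  have h5 : (S.card : ℝ) * (2 * η ^ 2 * ip g g) = η * ε / 2 * ip g g := by rw [← h4]; ring
  nlinarith

/-- both convolution operators of the family contract by the factor `θ` -/
def Contr {I : Type} [Fintype I] (s : I → G) (θ : ℝ) : Prop :=
  ∀ g : G → ℕ, FS g → ip (cv s g) (cv s g) ≤ θ * (Fintype.card I : ℝ) ^ 2 * ip g g ∧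
    ip (cv (fun a => (s a)⁻¹) g) (cv (fun a => (s a)⁻¹) g) ≤
      θ * (Fintype.card I : ℝ) ^ 2 * ip g g

theorem contr_base (hG : ¬ Folner G) : ∃ (I : Type) (_ : Fintype I) (_ : Nonempty I) (s : I → G)
    (θ : ℝ), 0 ≤ θ ∧ θ < 1 ∧ Contr s θ := by
  obtain ⟨S, c, hc, h⟩ := gap hG
  have key : ∀ (s : Option S → G) (g : G → ℕ), FS g → s none = 1 →
      ∑ a : S, ip (sh (s (some a)) g) g ≤ (S.card - c) * ip g g →
      ip (cv s g) (cv s g) ≤ max 0 (1 - c / (S.card + 1) ^ 2) *
        (Fintype.card (Option S) : ℝ) ^ 2 * ip g g := by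
    intro s g hg h1 h2
    have h3 : ∀ a b, ip (sh (s a) g) (sh (s b) g) ≤ ip g g := by
      intro a b
      have := ip_le (hg.sh (s a)) (hg.sh (s b))
      rw [ip_sh, ip_sh] at this
      linarith
    rw [ip_cv s hg, Finset.sum_comm, Fintype.sum_option, Fintype.sum_option]
    have h4 : ∑ b : S, ∑ a, ip (sh (s a) g) (sh (s (some b)) g) ≤
        ∑ _b : S, ∑ _a : Option S, ip g g :=
      Finset.sum_le_sum fun b _ => Finset.sum_le_sum fun a _ => h3 _ _
    simp only [Finset.sum_const, Finset.card_univ, Fintype.card_option, Fintype.card_coe,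
      nsmul_eq_mul, Nat.cast_add, Nat.cast_one] at h4 ⊢
    rw [h1, sh_one]
    have h5 := ip_nonneg g g
    have h6 : (1 - c / ((S.card : ℝ) + 1) ^ 2) * ((S.card : ℝ) + 1) ^ 2 =
        ((S.card : ℝ) + 1) ^ 2 - c := by field_simp
    have h7 := mul_le_mul_of_nonneg_right (mul_le_mul_of_nonneg_right
      (le_max_right 0 (1 - c / ((S.card : ℝ) + 1) ^ 2)) (sq_nonneg ((S.card : ℝ) + 1))) h5
    rw [h6] at h7
    nlinarith
  refine ⟨Option S, inferInstance, inferInstance, fun a => a.elim 1 Subtype.val,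
    max 0 (1 - c / (S.card + 1) ^ 2), le_max_left _ _, max_lt one_pos ?_, fun g hg => ⟨?_, ?_⟩⟩
  · have : 0 < c / ((S.card : ℝ) + 1) ^ 2 := by positivity
    linarith
  · refine key _ g hg rfl ?_
    have h1 := h g hg
    rw [← Finset.sum_coe_sort S] at h1
    exact h1
  · refine key _ g hg (by simp) ?_
    have h1 := h g hg
    rw [← Finset.sum_coe_sort S] at h1
    refine le_of_eq_of_le (Finset.sum_congr rfl fun a _ => ?_) h1
    rw [← ip_sh (a : G), sh_sh, ip_comm]
    simp [sh_one]

theorem cv_prod {I J : Type} [Fintype I] [Fintype J] (s : I → G) (t : J → G) (g : G → ℕ) :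
    cv (fun p : I × J => s p.1 * t p.2) g = cv s (cv t g) := by
  funext x
  simp [cv, Fintype.sum_prod_type, mul_assoc]

theorem cv_prod' {I J : Type} [Fintype I] [Fintype J] (s : I → G) (t : J → G) (g : G → ℕ) :
    cv (fun p : I × J => (s p.1 * t p.2)⁻¹) g =
      cv (fun b => (t b)⁻¹) (cv (fun a => (s a)⁻¹) g) := by
  funext x
  simp only [cv, Fintype.sum_prod_type, inv_inv, mul_assoc]
  rw [Finset.sum_comm]

theorem Contr.prod {I J : Type} [Fintype I] [Fintype J] {s : I → G} {t : J → G} {θ θ' : ℝ}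
    (h : Contr s θ) (h' : Contr t θ') (h0 : 0 ≤ θ) (h0' : 0 ≤ θ') :
    Contr (fun p : I × J => s p.1 * t p.2) (θ * θ') := by
  intro g hg
  rw [cv_prod, cv_prod', Fintype.card_prod]
  push_cast
  constructor
  · refine (h _ (hg.cv t)).1.trans ((mul_le_mul_of_nonneg_left (h' g hg).1 (by positivity)).trans
      (le_of_eq (by ring)))
  · refine (h' _ (hg.cv _)).2.trans ((mul_le_mul_of_nonneg_left (h g hg).2 (by positivity)).trans
      (le_of_eq (by ring)))

theorem exists_contr (hG : ¬ Folner G) {θ : ℝ} (hθ : 0 < θ) :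
    ∃ (I : Type) (_ : Fintype I) (_ : Nonempty I) (s : I → G), Contr s θ := by
  obtain ⟨I, _, _, s, θ0, h0, h1, h⟩ := contr_base hG
  have hk : ∀ k : ℕ, ∃ (I : Type) (_ : Fintype I) (_ : Nonempty I) (s : I → G),
      Contr s (θ0 ^ (k + 1)) := by
    intro k
    induction k with
    | zero => exact ⟨I, inferInstance, inferInstance, s, by simpa using h⟩
    | succ k ih =>
      obtain ⟨J, _, _, t, ht⟩ := ih
      exact ⟨J × I, inferInstance, inferInstance, _, ht.prod h (by positivity) h0⟩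
  obtain ⟨k, hk'⟩ := exists_pow_lt_of_lt_one hθ h1
  obtain ⟨J, _, _, t, ht⟩ := hk k
  have h2 : θ0 ^ (k + 1) ≤ θ := by
    rw [pow_succ]
    nlinarith [pow_nonneg h0 k]
  refine ⟨J, inferInstance, inferInstance, t, fun g hg => ⟨(ht g hg).1.trans ?_, (ht g hg).2.trans ?_⟩⟩
  all_goals
    exact mul_le_mul_of_nonneg_right (mul_le_mul_of_nonneg_right h2 (by positivity)) (ip_nonneg _ _)

/-- number of double steps sequences of length `n` with a given product -/
noncomputable def cnt {Q : Type} [Fintype Q] (s : Q → G) (n : ℕ) (x : G) : ℕ :=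
  (Finset.univ.filter fun v : Fin n → Q × Q =>
    ((List.ofFn v).map fun q => s q.1 * (s q.2)⁻¹).prod = x).card

theorem cnt_succ {Q : Type} [Fintype Q] (s : Q → G) (n : ℕ) :
    cnt s (n + 1) = cv s (cv (fun a => (s a)⁻¹) (cnt s n)) := by
  funext x
  rw [← cv_prod]
  simp only [cnt, cv, Finset.card_filter]
  rw [← (Fin.consEquiv fun _ : Fin (n + 1) => Q × Q).sum_comp, Fintype.sum_prod_type]
  refine Finset.sum_congr rfl fun q _ => Finset.sum_congr rfl fun v _ => ?_
  simp only [Fin.consEquiv_apply, List.ofFn_succ, Fin.cons_zero, Fin.cons_succ, List.map_cons,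
    List.prod_cons, eq_inv_mul_iff_mul_eq]

theorem cnt_le {Q : Type} [Fintype Q] {s : Q → G} {θ : ℝ} (h0 : 0 ≤ θ) (h : Contr s θ) (n : ℕ) :
    (cnt s n 1 : ℝ) ≤ (θ * (Fintype.card Q : ℝ) ^ 2) ^ n := by
  have key : FS (cnt s n) ∧ ip (cnt s n) (cnt s n) ≤ ((θ * (Fintype.card Q : ℝ) ^ 2) ^ n) ^ 2 := by
    induction n with
    | zero =>
      have e : ∀ x, cnt s 0 x = if x = 1 then 1 else 0 := by
        intro x
        simp only [cnt, List.ofFn_zero, List.map_nil, List.prod_nil]
        split_ifs with hx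
        · simp [hx]
        · simp [Ne.symm hx]
      refine ⟨(Set.finite_singleton 1).subset fun x hx => ?_, ?_⟩
      · by_contra hc
        exact hx (by rw [e, if_neg (show ¬ x = 1 from hc)])
      · rw [ip, tsum_eq_single 1 fun x hx => by simp [e, hx]]
        simp [e]
    | succ n ih =>
      rw [cnt_succ]
      refine ⟨(ih.1.cv _).cv _, (h _ (ih.1.cv _)).1.trans ?_⟩
      refine (mul_le_mul_of_nonneg_left ((h _ ih.1).2.trans
        (mul_le_mul_of_nonneg_left ih.2 (by positivity))) (by positivity)).trans (le_of_eq ?_)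
      ring
  refine (pow_le_pow_iff_left₀ (by positivity) (by positivity) two_ne_zero).1 (le_trans ?_ key.2)
  rw [sq]
  exact (key.1.summable fun x => (cnt s n x : ℝ)).le_tsum 1 fun _ _ => by positivity

theorem Contr.snd {I : Type} [Fintype I] {s : I → G} {θ : ℝ} (h : Contr s θ) (h0 : 0 ≤ θ)
    (D : Type) [Fintype D] : Contr (fun q : D × I => s q.2) θ := by
  have h1 : Contr (fun _ : D => (1 : G)) 1 := by
    intro g hg
    have : ip (cv (fun _ : D => (1 : G)) g) (cv (fun _ : D => (1 : G)) g) ≤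
        1 * (Fintype.card D : ℝ) ^ 2 * ip g g := by
      rw [ip_cv _ hg]
      simp [sh_one, sq, mul_assoc]
    simpa using this
  simpa using h1.prod h zero_le_one h0

end Pool.Agent.P.MP_95bcfc_an
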