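import Pool.Agent.P.MP_95bcfc_an.Core
import Pool.Agent.P.MP_95bcfc_an.Graph
import Pool.Agent.P.MP_95bcfc_an.Kesten

set_option autoImplicit false
set_option linter.unusedSectionVars false
set_option linter.deprecated false

open MeasureTheory ProbabilityTheory
open scoped ENNReal

namespace Pool.Agent.P.MP_95bcfc_an

/-- configurations -/
def Conf (G D I : Type) : Type := G × D → I

variable {G D I : Type} [Group G] [Countable G] [Fintype D] [Fintype I] [Nonempty I]
  [MeasurableSpace I] [DiscreteMeasurableSpace I]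

instance : MeasurableSpace (Conf G D I) := inferInstanceAs (MeasurableSpace (G × D → I))

instance : MulAction G (Conf G D I) where
  smul g ω := fun p => ω (g⁻¹ * p.1, p.2)
  one_smul ω := by
    funext p
    change ω (1⁻¹ * p.1, p.2) = ω p
    simp
  mul_smul g h ω := by
    funext p
    change ω ((g * h)⁻¹ * p.1, p.2) = ω (h⁻¹ * (g⁻¹ * p.1), p.2)
    simp [mul_assoc]

theorem Conf.smul_apply (g : G) (ω : Conf G D I) (x : G) (i : D) :
    (g • ω) (x, i) = ω (g⁻¹ * x, i) := rfl

theorem Conf.meas_eval (p : G × D) : Measurable fun ω : Conf G D I => ω p := measurable_pi_apply p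

instance : MeasurableConstSMul G (Conf G D I) where
  measurable_const_smul _ := measurable_pi_lambda _ fun _ => Conf.meas_eval _

/-- the uniform product measure -/
noncomputable def Conf.μ (G D I : Type) [Fintype I] [Nonempty I] [MeasurableSpace I] :
    Measure (Conf G D I) := Measure.infinitePi fun _ : G × D => uniformOn (Set.univ : Set I)

instance : IsProbabilityMeasure (Conf.μ G D I) :=
  inferInstanceAs (IsProbabilityMeasure
    (Measure.infinitePi fun _ : G × D => uniformOn (Set.univ : Set I)))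

instance : SMulInvariantMeasure G (Conf G D I) (Conf.μ G D I) where
  measure_preimage_smul g s hs := by
    have h := Measure.infinitePi_map_piCongrLeft (X := fun _ : G × D => I)
      (fun _ : G × D => uniformOn (Set.univ : Set I)) ((Equiv.mulLeft g).prodCongr (Equiv.refl D))
    have e : (fun ω : Conf G D I => g • ω) = MeasurableEquiv.piCongrLeft (fun _ : G × D => I)
        ((Equiv.mulLeft g).prodCongr (Equiv.refl D)) := by
      funext ω p
      rw [MeasurableEquiv.coe_piCongrLeft, Equiv.piCongrLeft_apply_eq_cast]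
      rfl
    rw [← Measure.map_apply (measurable_const_smul g) hs, e]
    exact congrArg (fun m : Measure (G × D → I) => m s) h

/-- a function that depends on finitely many sites -/
def Loc {β : Type} (f : Conf G D I → β) (F : Finset G) : Prop :=
  ∀ ω ω' : Conf G D I, (∀ x ∈ F, ∀ i, ω (x, i) = ω' (x, i)) → f ω = f ω'

theorem Loc.meas {β : Type} {f : Conf G D I → β} {F : Finset G} (h : Loc f F) (s : Set β) :
    MeasurableSet (f ⁻¹' s) := by
  let r : Conf G D I → (F × D → I) := fun ω p => ω (p.1, p.2)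
  have hr : Measurable r := measurable_pi_lambda _ fun _ => Conf.meas_eval _
  have : f ⁻¹' s = r ⁻¹' (r '' (f ⁻¹' s)) := by
    ext ω
    refine ⟨fun hω => ⟨ω, hω, rfl⟩, ?_⟩
    rintro ⟨ω', h1, h2⟩
    rw [Set.mem_preimage, ← h ω' ω fun x hx i => congrFun h2 (⟨x, hx⟩, i)]
    exact h1
  rw [this]
  exact hr (Set.toFinite _).measurableSet

theorem cyl_le (c : List ((G × D) × I)) (hc : (c.map Prod.fst).Nodup) :
    Conf.μ G D I {ω | ∀ a ∈ c, ω a.1 = a.2} ≤ ((Fintype.card I : ℝ≥0∞)⁻¹) ^ c.length := by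
  classical
  rcases Set.eq_empty_or_nonempty {ω : Conf G D I | ∀ a ∈ c, ω a.1 = a.2} with h | ⟨ω0, h0⟩
  · rw [h]; simp
  · have h1 : {ω : Conf G D I | ∀ a ∈ c, ω a.1 = a.2} ⊆
        Set.pi ((c.map Prod.fst).toFinset : Set (G × D)) fun p => {ω0 p} := by
      intro ω hω p hp
      simp only [List.coe_toFinset, List.mem_map, Set.mem_setOf_eq] at hp
      obtain ⟨a, ha, rfl⟩ := hp
      exact (hω a ha).trans (h0 a ha).symm
    refine (measure_mono h1).trans (le_of_eq ?_)
    have h2 := Measure.infinitePi_pi (fun _ : G × D => uniformOn (Set.univ : Set I))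
      (s := (c.map Prod.fst).toFinset) (t := fun p => {ω0 p}) fun _ _ => measurableSet_singleton _
    refine h2.trans ?_
    simp only [uniformOn_univ, Measure.count_singleton, one_div, Finset.prod_const]
    rw [List.toFinset_card_of_nodup hc, List.length_map]

/-- mass transport -/
theorem mass_transport {X J : Type} [MeasurableSpace X] [MulAction G X] [MeasurableConstSMul G X]
    (μ : Measure X) [SMulInvariantMeasure G X μ] [Fintype J]
    (A : G × D → G × J → Set X) (hA : ∀ p p', MeasurableSet (A p p'))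
    (heq : ∀ y i j, A (1, i) (y, j) ⊆ (fun ω => y⁻¹ • ω) ⁻¹' A (y⁻¹, i) (1, j))
    (hinj : ∀ p q j ω, ω ∈ A p (1, j) → ω ∈ A q (1, j) → p = q)
    (N : J → Set X) (hN : ∀ p j, A p (1, j) ⊆ N j) :
    ∑ i, μ (⋃ p', A (1, i) p') ≤ ∑ j, μ (N j) := by
  have h1 : ∀ i, μ (⋃ p', A (1, i) p') ≤ ∑ j, ∑' x, μ (A (x, i) (1, j)) := by
    intro i
    refine (measure_iUnion_le _).trans ?_
    rw [ENNReal.tsum_prod', ENNReal.tsum_comm, tsum_fintype]
    refine Finset.sum_le_sum fun j _ => ?_
    rw [← (Equiv.inv G).tsum_eq fun x => μ (A (x, i) (1, j))]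
    refine ENNReal.tsum_le_tsum fun y => (measure_mono (heq y i j)).trans (le_of_eq ?_)
    exact measure_preimage_smul μ _ _
  refine (Finset.sum_le_sum fun i _ => h1 i).trans ?_
  rw [Finset.sum_comm]
  refine Finset.sum_le_sum fun j _ => ?_
  rw [← tsum_fintype (L := SummationFilter.unconditional D), ENNReal.tsum_comm,
    ← ENNReal.tsum_prod' (f := fun p : G × D => μ (A p (1, j))), ← measure_iUnion ?_ fun p => hA _ _]
  · exact measure_mono (Set.iUnion_subset fun p => hN p j)
  · intro p q hpq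
    exact Set.disjoint_left.2 fun ω h2 h3 => hpq (hinj p q j ω h2 h3)

/-- two reflections of a finite set whose product is a cyclic shift -/
theorem exists_refl {Q : Type} (T : Finset Q) : ∃ (R : Fin 2 → Q → Q) (rk : Q → ℤ),
    (∀ m, ∀ q ∈ T, R m q ∈ T ∧ R m (R m q) = q) ∧
    ∀ q ∈ T, ∀ q' ∈ T, rk (R 0 (R 1 q)) ≠ rk q + 1 → rk (R 0 (R 1 q')) ≠ rk q' + 1 → q = q' := by
  classical
  let e := T.equivFin
  let r : Fin 2 → Fin T.card → Fin T.card := fun m a =>
    if m = 1 then ⟨T.card - 1 - a, by have := a.2; omega⟩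
    else if h : a.1 = 0 then a else ⟨T.card - a, by have := a.2; omega⟩
  have hr : ∀ m a, r m (r m a) = a := by
    intro m a
    have := a.2
    ext
    simp only [r]
    split_ifs <;> simp only at * <;> omega
  have hr2 : ∀ a, a.1 + 1 ≠ T.card → (r 0 (r 1 a)).1 = a.1 + 1 := by
    intro a ha
    have := a.2
    simp only [r, if_true, zero_ne_one, if_false]
    split_ifs <;> simp only at * <;> omega
  refine ⟨fun m q => if h : q ∈ T then (e.symm (r m (e ⟨q, h⟩)) : T) else q,
    fun q => if h : q ∈ T then ((e ⟨q, h⟩ : ℕ) : ℤ) else 0, fun m q hq => ?_,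
    fun q hq q' hq' h1 h2 => ?_⟩
  · simp [hq, hr]
  · simp only [hq, hq', dif_pos, Finset.coe_mem, Subtype.coe_eta, Equiv.apply_symm_apply] at h1 h2
    have h3 : (e ⟨q, hq⟩).1 + 1 = T.card := by
      by_contra hc
      exact h1 (by rw [hr2 _ hc]; simp)
    have h4 : (e ⟨q', hq'⟩).1 + 1 = T.card := by
      by_contra hc
      exact h2 (by rw [hr2 _ hc]; simp)
    have h5 : e ⟨q, hq⟩ = e ⟨q', hq'⟩ := Fin.ext (by omega)
    exact congrArg Subtype.val (e.injective h5)

/-- the points visited by a zigzag -/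
def pts (s : I → G) : G → List ((D × I) × (D × I)) → List ((G × D) × I)
  | _, [] => []
  | x, q :: l => ((x, q.1.1), q.1.2) :: ((x * s q.1.2 * (s q.2.2)⁻¹, q.2.1), q.2.2) ::
      pts s (x * s q.1.2 * (s q.2.2)⁻¹) l

theorem length_pts (s : I → G) (x : G) (l : List ((D × I) × (D × I))) :
    (pts s x l).length = 2 * l.length := by
  induction l generalizing x with
  | nil => rfl
  | cons q l ih => simp only [pts, List.length_cons, ih]; ring

theorem zigzag {F : Type} (s : I → G) (ω : Conf G D I) (Γ : LG (G ⊕ G) (G × D) F)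
    (hs : ∀ p, Γ.src p = Sum.inl p.1) (ht : ∀ p, Γ.tgt p = Sum.inr (p.1 * s (ω p))) (n : ℕ) :
    ∀ (l : List ((G × D) × Bool)) (x x' : G), l.length ≤ n → Γ.Walk (Sum.inl x) l (Sum.inl x') →
      ∃ z : List ((D × I) × (D × I)), (pts s x z).map Prod.fst = l.map Prod.fst ∧
        (∀ a ∈ pts s x z, ω a.1 = a.2) ∧
        x * (z.map fun q => s q.1.2 * (s q.2.2)⁻¹).prod = x' := by
  induction n with
  | zero =>
    intro l x x' hl hw
    rw [List.length_eq_zero_iff.1 (Nat.le_zero.1 hl)] at hw ⊢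
    exact ⟨[], rfl, by simp [pts], by simpa using Sum.inl.inj hw⟩
  | succ n ih =>
    intro l x x' hl hw
    match l, hl, hw with
    | [], _, hw => exact ⟨[], rfl, by simp [pts], by simpa using Sum.inl.inj hw⟩
    | [(p, b)], _, hw =>
      cases b
      · simp [LG.Walk, LG.hd, ht] at hw
      · simp [LG.Walk, LG.tl, ht] at hw
    | (p, b) :: (p', b') :: l, hl, hw =>
      cases b
      · simp [LG.Walk, LG.hd, ht] at hw
      · cases b'
        · simp only [LG.Walk, LG.hd, LG.tl, hs, ht, if_true, Sum.inl.injEq, Bool.false_eq_true,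
            if_false, Sum.inr.injEq] at hw
          obtain ⟨rfl, h2, h3⟩ := hw
          obtain ⟨z, h4, h5, h6⟩ := ih l p'.1 x' (by simp only [List.length_cons] at hl; omega) h3
          have e : p.1 * s (ω p) * (s (ω p'))⁻¹ = p'.1 := by rw [← h2]; simp
          refine ⟨((p.2, ω p), (p'.2, ω p')) :: z, ?_, ?_, ?_⟩
          · simp only [pts, e, List.map_cons, h4]
          · simp only [pts, e, List.mem_cons]
            rintro a (rfl | rfl | ha)
            · rfl
            · rfl
            · exact h5 a ha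
          · simp only [List.map_cons, List.prod_cons, ← mul_assoc, e, h6]
        · simp [LG.Walk, LG.hd, LG.tl, hs, ht] at hw

theorem nonbridge_le {F : Type} (s : I → G) (Γ : Conf G D I → LG (G ⊕ G) (G × D) F)
    (hs : ∀ ω p, (Γ ω).src p = Sum.inl p.1)
    (ht : ∀ ω p, (Γ ω).tgt p = Sum.inr (p.1 * s (ω p))) {θ : ℝ} (h0 : 0 ≤ θ) (hθ : Contr s θ)
    (h1 : θ * (Fintype.card D : ℝ) ^ 2 ≤ 1 / 2) (i : D) :
    Conf.μ G D I {ω | ¬ (Γ ω).Bridge (1, i)} ≤
      ENNReal.ofReal (2 * (θ * (Fintype.card D : ℝ) ^ 2)) := by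
  classical
  set β := θ * (Fintype.card D : ℝ) ^ 2 with hβ
  have hβ0 : 0 ≤ β := by positivity
  let V : (n : ℕ) → Finset (Fin n → (D × I) × (D × I)) := fun n => Finset.univ.filter fun v =>
    ((List.ofFn v).map fun q => s q.1.2 * (s q.2.2)⁻¹).prod = 1
  let E : List ((D × I) × (D × I)) → Set (Conf G D I) := fun z =>
    {ω | ((pts s 1 z).map Prod.fst).Nodup ∧ ∀ a ∈ pts s 1 z, ω a.1 = a.2}
  have hsub : {ω | ¬ (Γ ω).Bridge (1, i)} ⊆ ⋃ n, ⋃ v ∈ V (n + 1), E (List.ofFn v) := by
    intro ω hω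
    simp only [Set.mem_setOf_eq, LG.Bridge, not_not] at hω
    obtain ⟨l, h2, h3⟩ := hω
    obtain ⟨l', h4, h5, h6⟩ := h2.nodup
    have h7 : (Γ ω).Walk (Sum.inl 1) (((1, i), true) :: l') (Sum.inl 1) :=
      ⟨hs ω _, by rw [hs] at h4; exact h4⟩
    obtain ⟨z, h8, h9, h10⟩ := zigzag s ω (Γ ω) (hs ω) (ht ω) _ _ _ _ le_rfl h7
    have h11 : ((pts s 1 z).map Prod.fst).Nodup := by
      rw [h8, List.map_cons, List.nodup_cons]
      refine ⟨fun h => ?_, h5⟩
      obtain ⟨a, ha, e⟩ := List.mem_map.1 h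
      exact h3 a (h6 a ha) e
    cases z with
    | nil => simp [pts] at h8
    | cons q z =>
      refine Set.mem_iUnion.2 ⟨z.length, Set.mem_iUnion₂.2 ⟨(q :: z).get, ?_, ?_⟩⟩
      · simp only [V, Finset.mem_filter, Finset.mem_univ, true_and]
        have e := List.ofFn_get (q :: z)
        rw [one_mul] at h10
        exact (congrArg (fun l => (l.map fun q : (D × I) × (D × I) =>
          s q.1.2 * (s q.2.2)⁻¹).prod) e).trans h10
      · have e := List.ofFn_get (q :: z)
        exact (congrArg (fun l => ω ∈ E l) e).mpr ⟨h11, h9⟩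
  have hE : ∀ z, Conf.μ G D I (E z) ≤ ((Fintype.card I : ℝ≥0∞)⁻¹) ^ (2 * z.length) := by
    intro z
    by_cases h : ((pts s 1 z).map Prod.fst).Nodup
    · rw [← length_pts s 1 z]
      exact (measure_mono fun ω hω => hω.2).trans (cyl_le _ h)
    · rw [show E z = ∅ from Set.eq_empty_of_forall_notMem fun ω hω => h hω.1]
      simp
  have hI : (0 : ℝ) < Fintype.card I := by exact_mod_cast Fintype.card_pos
  have hn : ∀ n, Conf.μ G D I (⋃ v ∈ V n, E (List.ofFn v)) ≤ ENNReal.ofReal (β ^ n) := by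
    intro n
    refine (measure_biUnion_finset_le _ _).trans ((Finset.sum_le_sum fun v _ => hE _).trans ?_)
    have h2 : ((V n).card : ℝ) ≤ (θ * (Fintype.card (D × I) : ℝ) ^ 2) ^ n :=
      cnt_le h0 (hθ.snd h0 D) n
    simp only [List.length_ofFn, Finset.sum_const, nsmul_eq_mul]
    have e1 : ((Fintype.card I : ℝ≥0∞)⁻¹) = ENNReal.ofReal ((Fintype.card I : ℝ)⁻¹) := by
      rw [ENNReal.ofReal_inv_of_pos hI, ENNReal.ofReal_natCast]
    rw [e1, ← ENNReal.ofReal_pow (by positivity), ← ENNReal.ofReal_natCast,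
      ← ENNReal.ofReal_mul (by positivity)]
    refine ENNReal.ofReal_le_ofReal ((mul_le_mul_of_nonneg_right h2 (by positivity)).trans
      (le_of_eq ?_))
    rw [pow_mul, ← mul_pow, hβ, Fintype.card_prod]
    congr 1
    push_cast
    field_simp
  refine (measure_mono hsub).trans ((measure_iUnion_le _).trans
    ((ENNReal.tsum_le_tsum fun n => hn (n + 1)).trans ?_))
  have hs' : Summable fun n : ℕ => β ^ (n + 1) :=
    (summable_nat_add_iff 1).2 (summable_geometric_of_lt_one hβ0 (by linarith))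
  rw [← ENNReal.ofReal_tsum_of_nonneg (fun n => by positivity) hs']
  refine ENNReal.ofReal_le_ofReal ?_
  simp only [pow_succ]
  rw [tsum_mul_right, tsum_geometric_of_lt_one hβ0 (by linarith)]
  refine mul_le_mul_of_nonneg_right ?_ hβ0
  rw [inv_le_comm₀ (by linarith) (by norm_num)]
  linarith

end Pool.Agent.P.MP_95bcfc_an
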