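import Pool.Agent.P.MP_95bcfc_an.Induce

set_option autoImplicit false
set_option linter.unusedSectionVars false
set_option linter.deprecated false

open scoped InnerProductSpace ComplexConjugate
open MeasureTheory

namespace Pool.Agent.P.MP_95bcfc_an

variable {W G X Λ : Type} [Group W] [Group G] [Group Λ] [MeasurableSpace X] [MulAction G X]
  [MeasurableConstSMul G X] {μ : Measure X} [IsProbabilityMeasure μ] [SMulInvariantMeasure G X μ]
  {L : Type} [NormedAddCommGroup L] [InnerProductSpace ℂ L] [CompleteSpace L]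

open Classical in
/-- a local equivariant involution of `G × D` that is implemented in the group algebra -/
structure LocInv (S : Sys W G X) (D : Type) where
  /-- the image of the base points -/
  t : X → D → G × D
  /-- the range -/
  T : Finset G
  mem : ∀ ω i, (t ω i).1 ∈ T
  symm : ∀ h ∈ T, h⁻¹ ∈ T
  invol : ∀ ω i, t ((t ω i).1⁻¹ • ω) (t ω i).2 = ((t ω i).1⁻¹, i)
  meas : ∀ i p, MeasurableSet {ω | t ω i = p}
  symb : ∀ i h j, h ∈ T → ∃ z : W →₀ ℂ, (∀ γ ∈ z.support, S.q γ = h) ∧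
    ∀ ω, (z.sum fun γ c => c * (S.χ γ).1 ω) = if t ω i = (h, j) then 1 else 0

variable {S : Sys W G X} {D : Type} [Fintype D] [DecidableEq D]

/-- indicator of the value of the involution -/
noncomputable def LocInv.ind (J : LocInv S D) (i : D) (h : G) (j : D) : BM X :=
  BM.ind _ (J.meas i (h, j))

open Classical in
theorem LocInv.ind_apply (J : LocInv S D) (i : D) (h : G) (j : D) (ω : X) :
    (J.ind i h j).1 ω = if J.t ω i = (h, j) then 1 else 0 := by
  simp only [LocInv.ind, BM.ind, Set.mem_setOf_eq]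

theorem LocInv.sum_ind (J : LocInv S D) (i : D) (ω : X) (F : G → D → ℂ) :
    ∑ j, ∑ h ∈ J.T, (J.ind i h j).1 ω * F h j = F (J.t ω i).1 (J.t ω i).2 := by
  rw [Finset.sum_eq_single (J.t ω i).2, Finset.sum_eq_single (J.t ω i).1]
  · simp [J.ind_apply]
  · intro h _ hh
    rw [J.ind_apply, if_neg (fun e => hh (by rw [e])), zero_mul]
  · intro h; exact absurd (J.mem ω i) h
  · intro j _ hj
    refine Finset.sum_eq_zero fun h _ => ?_
    rw [J.ind_apply, if_neg (fun e => hj (by rw [e])), zero_mul]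
  · simp

theorem LocInv.ind_swap (J : LocInv S D) (i : D) (h : G) (j : D) (ω : X) :
    (J.ind j h i).1 (h • ω) = (J.ind i h⁻¹ j).1 ω := by
  rw [J.ind_apply, J.ind_apply]
  congr 1
  refine propext ⟨fun e => ?_, fun e => ?_⟩
  · simpa [e] using J.invol (h • ω) j
  · simpa [e] using J.invol ω i

section Rep

variable {σ : F2 →* unitary (L →L[ℂ] L)} {H : Type} [NormedAddCommGroup H] [InnerProductSpace ℂ H]
  [CompleteSpace H] {e : BM X × G × L → H}

theorem inner_sum_e (he : ∀ y y', ⟪e y, e y'⟫_ℂ = ∫ ω, S.kf σ y y' ω ∂μ) {ι : Type}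
    (s : Finset ι) (c : ι → ℂ) (y : ι → BM X × G × L) (y' : BM X × G × L) :
    ⟪e y', ∑ a ∈ s, c a • e (y a)⟫_ℂ = ∫ ω, ∑ a ∈ s, c a * S.kf σ y' (y a) ω ∂μ := by
  rw [inner_sum, integral_finset_sum _ fun a _ => (Sys.integrable_kf σ _ _).const_mul _]
  refine Finset.sum_congr rfl fun a _ => ?_
  rw [inner_smul_right, he, integral_const_mul]

theorem e_ext (he : ∀ y y', ⟪e y, e y'⟫_ℂ = ∫ ω, S.kf σ y y' ω ∂μ)
    (hd : Dense (Submodule.span ℂ (Set.range e) : Set H)) {ι ι' : Type}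
    (s : Finset ι) (c : ι → ℂ) (y : ι → BM X × G × L)
    (s' : Finset ι') (c' : ι' → ℂ) (y' : ι' → BM X × G × L)
    (h : ∀ ω (Φ : G → L → ℂ), ∑ a ∈ s, c a * ((y a).1.1 ω * Φ (y a).2.1 (y a).2.2) =
      ∑ a ∈ s', c' a * ((y' a).1.1 ω * Φ (y' a).2.1 (y' a).2.2)) :
    ∑ a ∈ s, c a • e (y a) = ∑ a ∈ s', c' a • e (y' a) := by
  have h1 : innerSL ℂ (∑ a ∈ s, c a • e (y a)) = innerSL ℂ (∑ a ∈ s', c' a • e (y' a)) := by
    refine ContinuousLinearMap.ext_on hd ?_
    rintro _ ⟨z, rfl⟩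
    simp only [innerSL_apply_apply]
    rw [← inner_conj_symm, inner_sum_e he, ← inner_conj_symm (∑ a ∈ s', _), inner_sum_e he]
    congr 2
    funext ω
    have := h ω fun g ξ => conj (z.1.1 ω) * S.κ σ ω z.2.1 g z.2.2 ξ
    simp only [Sys.kf]
    refine Eq.trans ?_ (this.trans ?_) <;> exact Finset.sum_congr rfl fun a _ => by ring
  exact ext_inner_right ℂ fun v => congrArg (fun T => T v) h1

theorem exists_Z (he : ∀ y y', ⟪e y, e y'⟫_ℂ = ∫ ω, S.kf σ y y' ω ∂μ)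
    (hd : Dense (Submodule.span ℂ (Set.range e) : Set H)) (π : W →* unitary (H →L[ℂ] H))
    (hπ : ∀ γ f g ξ, (π γ : H →L[ℂ] H) (e (f, g, ξ)) = e (S.χ γ * BM.sh (S.q γ) f, S.q γ * g, ξ))
    (J : LocInv S D) : ∃ Z : Matrix D D (MonoidAlgebra ℂ W), ∀ i j f g ξ,
      ev (und π) (Z i j) (e (f, g, ξ)) = ∑ h ∈ J.T, e (J.ind i h j * BM.sh h f, h * g, ξ) := by
  classical
  have h1 : ∀ i h j, ∃ z : MonoidAlgebra ℂ W, h ∈ J.T → ∀ f g ξ,
      ev (und π) z (e (f, g, ξ)) = e (J.ind i h j * BM.sh h f, h * g, ξ) := by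
    intro i h j
    by_cases hh : h ∈ J.T
    swap
    · exact ⟨0, fun h' => absurd h' hh⟩
    obtain ⟨z, hz1, hz2⟩ := J.symb i h j hh
    refine ⟨MonoidAlgebra.ofCoeff z, fun _ f g ξ => ?_⟩
    rw [ev_apply, Finsupp.sum, ContinuousLinearMap.sum_apply]
    simp only [ContinuousLinearMap.smul_apply, und_apply, hπ]
    have := e_ext he hd z.support z (fun γ => (S.χ γ * BM.sh (S.q γ) f, S.q γ * g, ξ))
      ({()} : Finset Unit) (fun _ => 1) (fun _ => (J.ind i h j * BM.sh h f, h * g, ξ)) (by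
        intro ω Φ
        have hz3 : (J.ind i h j).1 ω = z.sum fun γ c => c * (S.χ γ).1 ω := by
          rw [hz2, J.ind_apply]
          by_cases h5 : J.t ω i = (h, j) <;> simp [h5]
        simp only [Finset.sum_singleton, one_mul, MulMemClass.coe_mul, Pi.mul_apply]
        rw [hz3, Finsupp.sum, Finset.sum_mul, Finset.sum_mul]
        refine Finset.sum_congr rfl fun γ hγ => ?_
        rw [hz1 γ hγ]
        ring)
    simpa using this
  choose z hz using h1
  refine ⟨Matrix.of fun i j => ∑ h ∈ J.T, z i h j, fun i j f g ξ => ?_⟩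
  rw [Matrix.of_apply, map_sum, ContinuousLinearMap.sum_apply]
  exact Finset.sum_congr rfl fun h hh => hz i h j hh f g ξ

theorem comp_apply {M M' : Matrix D D (H →L[ℂ] H)} {J J' : LocInv S D}
    (hM : ∀ i j f g ξ, M i j (e (f, g, ξ)) = ∑ h ∈ J.T, e (J.ind i h j * BM.sh h f, h * g, ξ))
    (hM' : ∀ i j f g ξ, M' i j (e (f, g, ξ)) = ∑ h ∈ J'.T, e (J'.ind i h j * BM.sh h f, h * g, ξ))
    (i k : D) (f : BM X) (g : G) (ξ : L) :
    (M * M') i k (e (f, g, ξ)) = ∑ a ∈ (Finset.univ : Finset D) ×ˢ (J.T ×ˢ J'.T), (1 : ℂ) •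
      e (J.ind i a.2.1 a.1 * BM.sh a.2.1 (J'.ind a.1 a.2.2 k * BM.sh a.2.2 f),
        a.2.1 * (a.2.2 * g), ξ) := by
  rw [Matrix.mul_apply, ContinuousLinearMap.sum_apply, Finset.sum_product]
  refine Finset.sum_congr rfl fun j _ => ?_
  rw [ContinuousLinearMap.mul_apply, hM', map_sum, Finset.sum_product, Finset.sum_comm]
  refine Finset.sum_congr rfl fun h' _ => ?_
  rw [hM]
  simp

theorem invol_sq (he : ∀ y y', ⟪e y, e y'⟫_ℂ = ∫ ω, S.kf σ y y' ω ∂μ)
    (hd : Dense (Submodule.span ℂ (Set.range e) : Set H)) {M : Matrix D D (H →L[ℂ] H)}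
    {J : LocInv S D}
    (hM : ∀ i j f g ξ, M i j (e (f, g, ξ)) = ∑ h ∈ J.T, e (J.ind i h j * BM.sh h f, h * g, ξ)) :
    M * M = 1 := by
  refine Matrix.ext fun i k => ContinuousLinearMap.ext_on hd ?_
  rintro _ ⟨⟨f, g, ξ⟩, rfl⟩
  rw [comp_apply hM hM, e_ext he hd _ _ _ ({()} : Finset Unit) (fun _ => if i = k then 1 else 0)
    (fun _ => (f, g, ξ))]
  · by_cases h : i = k <;> simp [Matrix.one_apply, h]
  · intro ω Φ
    have h1 := J.sum_ind i ω fun h j => ∑ h' ∈ J.T, (J.ind j h' k).1 (h⁻¹ • ω) *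
      (f.1 (h'⁻¹ • h⁻¹ • ω) * Φ (h * (h' * g)) ξ)
    rw [Finset.sum_product]
    simp only [Finset.sum_product, one_mul, MulMemClass.coe_mul, Pi.mul_apply, BM.sh_apply,
      Finset.sum_singleton, mul_assoc, ← Finset.mul_sum]
    rw [h1, Finset.sum_eq_single (J.t ω i).1⁻¹]
    · rw [J.ind_apply, J.invol]
      simp
    · intro h' _ hh
      rw [J.ind_apply, J.invol, if_neg (fun e => hh (Prod.ext_iff.1 e).1.symm), zero_mul]
    · intro h; exact absurd (J.symm _ (J.mem ω i)) h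

theorem invol_adj (he : ∀ y y', ⟪e y, e y'⟫_ℂ = ∫ ω, S.kf σ y y' ω ∂μ)
    (hd : Dense (Submodule.span ℂ (Set.range e) : Set H)) {M : Matrix D D (H →L[ℂ] H)}
    {J : LocInv S D}
    (hM : ∀ i j f g ξ, M i j (e (f, g, ξ)) = ∑ h ∈ J.T, e (J.ind i h j * BM.sh h f, h * g, ξ)) :
    star (blk M) = blk M := by
  have h1 : ∀ i j, ContinuousLinearMap.adjoint (M j i) = M i j := by
    intro i j
    refine ContinuousLinearMap.ext_on hd ?_
    rintro _ ⟨⟨f, g, ξ⟩, rfl⟩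
    have h2 : innerSL ℂ (ContinuousLinearMap.adjoint (M j i) (e (f, g, ξ))) =
        innerSL ℂ (M i j (e (f, g, ξ))) := by
      refine ContinuousLinearMap.ext_on hd ?_
      rintro _ ⟨⟨f', g', ξ'⟩, rfl⟩
      simp only [innerSL_apply_apply]
      rw [ContinuousLinearMap.adjoint_inner_left, hM, hM, inner_sum, sum_inner]
      refine Finset.sum_equiv (Equiv.inv G) (fun h => ⟨J.symm h, fun hh => ?_⟩) fun h _ => ?_
      · simpa using J.symm _ hh
      · rw [he, he, ← integral_smul_eq_self (μ := μ) (g := h)]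
        congr 1
        funext ω
        have e1 := Sys.κ_smul (S := S) σ h ω (h⁻¹ * g) g' ξ ξ'
        rw [mul_inv_cancel_left] at e1
        have e2 : conj ((J.ind i h⁻¹ j).1 ω) = (J.ind i h⁻¹ j).1 ω := by
          rw [J.ind_apply]; split_ifs <;> simp
        simp only [Sys.kf, MulMemClass.coe_mul, Pi.mul_apply, BM.sh_apply, inv_smul_smul, e1,
          J.ind_swap, Equiv.inv_apply, inv_inv, map_mul, e2]
        ring
    exact ext_inner_right ℂ fun v => congrArg (fun T => T v) h2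
  rw [ContinuousLinearMap.star_eq_adjoint, eq_comm, ContinuousLinearMap.eq_adjoint_iff]
  intro u v
  simp only [PiLp.inner_apply, blk_apply, sum_inner, inner_sum]
  rw [Finset.sum_comm]
  refine Finset.sum_congr rfl fun i _ => Finset.sum_congr rfl fun j _ => ?_
  rw [← h1 j i, ContinuousLinearMap.adjoint_inner_left]

end Rep

variable (μ) in
theorem core [Nonempty D] (J : Fin 2 → Fin 2 → LocInv S D) (w : D → F2) (B : Fin 2 → D → Set X)
    (hB : ∀ k i, MeasurableSet (B k i)) {δ : ℝ} (hδ : 0 < δ)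
    (hμ : ∀ k, ∑ i, μ.real (B k i) ≤ δ ^ 2 / 4 * Fintype.card D)
    (hg : ∀ k i ω, ω ∉ B k i → ∀ h j h' j', (J k 1).t ω i = (h, j) →
      (J k 0).t (h⁻¹ • ω) j = (h', j') → S.Rel ω 1 (w i * FreeGroup.of k * (w j')⁻¹) (h * h'))
    (σ : F2 →* unitary (L →L[ℂ] L)) (ρ : Λ →* unitary (L →L[ℂ] L))
    (hc : ∀ g h, Commute (σ g : L →L[ℂ] L) (ρ h : L →L[ℂ] L)) :
    ∃ (Z : Fin 2 → Fin 2 → Matrix D D (MonoidAlgebra ℂ W)) (R : Rep W)
        (ρ' : Λ →* unitary (R.H →L[ℂ] R.H)) (V : L →L[ℂ] HD D R.H),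
        (∀ g l, Commute (R.π g : R.H →L[ℂ] R.H) (ρ' l : R.H →L[ℂ] R.H)) ∧
        (∀ ξ, ‖V ξ‖ = ‖ξ‖) ∧
        (∀ l ξ, diag D (ρ' l : R.H →L[ℂ] R.H) (V ξ) = V ((ρ l : L →L[ℂ] L) ξ)) ∧
        (∀ k m, star (evM (und R.π) (Z k m)) = evM (und R.π) (Z k m) ∧
          evM (und R.π) (Z k m) * evM (und R.π) (Z k m) = 1) ∧
        ∀ k ξ, ‖evM (und R.π) (Z k 1) (evM (und R.π) (Z k 0) (V ξ)) -
          V ((σ (FreeGroup.of k) : L →L[ℂ] L) ξ)‖ ≤ δ * ‖ξ‖ := by
  obtain ⟨R, e, he, hU, hd⟩ := S.exists_rep μ σ ρ hc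
  let π := R.π.comp (MonoidHom.inl W Λ)
  have hπ : ∀ γ f g ξ, (π γ : R.H →L[ℂ] R.H) (e (f, g, ξ)) =
      e (S.χ γ * BM.sh (S.q γ) f, S.q γ * g, ξ) := fun γ f g ξ => by
    have := hU γ 1 f g ξ
    rw [map_one, OneMemClass.coe_one, ContinuousLinearMap.one_apply] at this
    exact this
  choose Z hZ using fun k m => exists_Z he hd π hπ (J k m)
  have hN : (0 : ℝ) < Fintype.card D := by exact_mod_cast Fintype.card_pos
  set a : ℝ := (Real.sqrt (Fintype.card D))⁻¹ with ha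
  have haa : (Fintype.card D : ℝ) * (a * a) = 1 := by
    rw [ha, ← mul_inv, Real.mul_self_sqrt hN.le, mul_inv_cancel₀ hN.ne']
  have haa' : (Fintype.card D : ℂ) * ((a : ℂ) * a) = 1 := by exact_mod_cast haa
  obtain ⟨V, hV, hVn⟩ := exists_clm (H := HD D R.H)
    (fun ξ => WithLp.toLp 2 fun i => (a : ℂ) • e (1, 1, (σ (w i) : L →L[ℂ] L) ξ)) fun ξ η => by
      simp only [PiLp.inner_apply, inner_smul_left, inner_smul_right, he, Sys.kf,
        Sys.κ_of_rel σ (Sys.rel_refl _ _), map_one, OneMemClass.coe_one, Pi.one_apply,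
        ContinuousLinearMap.one_apply, uni_inner_map, one_mul, integral_const, probReal_univ,
        one_smul, Finset.sum_const, Finset.card_univ, nsmul_eq_mul, Complex.conj_ofReal]
      linear_combination ⟪ξ, η⟫_ℂ * haa'
  have hVi : ∀ ξ i, V ξ i = (a : ℂ) • e (1, 1, (σ (w i) : L →L[ℂ] L) ξ) := fun ξ i => by rw [hV]
  have h4 : ∀ k m, star (evM (und π) (Z k m)) = evM (und π) (Z k m) ∧
      evM (und π) (Z k m) * evM (und π) (Z k m) = 1 := fun k m =>
    ⟨invol_adj he hd (hZ k m), by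
      rw [evM_eq, ← map_mul, invol_sq he hd (M := (Z k m).map (ev (und π))) (hZ k m), map_one]⟩
  refine ⟨Z, ⟨R.H, π⟩, R.π.comp (MonoidHom.inr W Λ), V, fun g l => ?_, hVn, fun l ξ => ?_, h4,
    fun k ξ => ?_⟩
  · change _ * _ = _ * _
    simp only [π, MonoidHom.comp_apply, ← Submonoid.coe_mul, ← MonoidHom.map_mul]
    simp
  · ext i
    rw [diag_apply, hVi, hVi, map_smul]
    congr 1
    have h1 := hU 1 l 1 1 ((σ (w i) : L →L[ℂ] L) ξ)
    rw [← ContinuousLinearMap.mul_apply (ρ l : L →L[ℂ] L), ← (hc _ _).eq] at h1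
    refine h1.trans ?_
    congr 1
    refine Prod.ext ?_ (by simp)
    ext ω
    simp [S.χ_one]
  · change ‖evM (und π) (Z k 1) (evM (und π) (Z k 0) (V ξ)) - _‖ ≤ _
    have hu : ∀ m (v : HD D R.H), ‖evM (und π) (Z k m) v‖ = ‖v‖ := fun m v =>
      ContinuousLinearMap.norm_map_of_mem_unitary
        (Unitary.mem_iff.2 (by rw [(h4 k m).1]; exact ⟨(h4 k m).2, (h4 k m).2⟩)) v
    set η := (σ (FreeGroup.of k) : L →L[ℂ] L) ξ with hη
    have hηn : ‖η‖ = ‖ξ‖ := uni_norm _ _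
    have key : ∀ i, ‖ξ‖ ^ 2 * (1 - 2 * μ.real (B k i)) ≤
        (⟪e (1, 1, (σ (w i) : L →L[ℂ] L) η), ∑ j', ((Z k 1).map (ev (und π)) *
          (Z k 0).map (ev (und π))) i j' (e (1, 1, (σ (w j') : L →L[ℂ] L) ξ))⟫_ℂ).re := by
      intro i
      simp only [comp_apply (M := (Z k 1).map (ev (und π))) (M' := (Z k 0).map (ev (und π)))
        (hZ k 1) (hZ k 0)]
      rw [← Finset.sum_product' (s := Finset.univ), inner_sum_e he]
      have hI := integrable_finset_sum (μ := μ)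
        ((Finset.univ : Finset D) ×ˢ ((Finset.univ : Finset D) ×ˢ ((J k 1).T ×ˢ (J k 0).T)))
        fun x _ => (Sys.integrable_kf (S := S) σ (1, 1, (σ (w i) : L →L[ℂ] L) η)
          ((J k 1).ind i x.2.2.1 x.2.1 * BM.sh x.2.2.1 ((J k 0).ind x.2.1 x.2.2.2 x.1 *
            BM.sh x.2.2.2 1), x.2.2.1 * (x.2.2.2 * 1), (σ (w x.1) : L →L[ℂ] L) ξ)).const_mul 1
      refine le_of_le_of_eq ?_ (integral_re (𝕜 := ℂ) hI)
      have e1 : ‖ξ‖ ^ 2 * (1 - 2 * μ.real (B k i)) =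
          ∫ ω, (‖ξ‖ ^ 2 - (B k i).indicator (fun _ => 2 * ‖ξ‖ ^ 2) ω) ∂μ := by
        rw [integral_sub (integrable_const _) ((integrable_const _).indicator (hB k i)),
          integral_indicator_const _ (hB k i)]
        simp only [integral_const, probReal_univ, smul_eq_mul]
        ring
      rw [e1]
      refine integral_mono ((integrable_const _).sub ((integrable_const _).indicator (hB k i)))
        hI.re fun ω => ?_
      have h1 := (J k 1).sum_ind i ω fun h j => ∑ j', ∑ h' ∈ (J k 0).T,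
        ((J k 0).ind j h' j').1 (h⁻¹ • ω) *
          S.κ σ ω 1 (h * h') ((σ (w i) : L →L[ℂ] L) η) ((σ (w j') : L →L[ℂ] L) ξ)
      rw [(J k 0).sum_ind] at h1
      have h2 : ∑ x ∈ (Finset.univ : Finset D) ×ˢ ((Finset.univ : Finset D) ×ˢ
          ((J k 1).T ×ˢ (J k 0).T)), 1 * S.kf σ (1, 1, (σ (w i) : L →L[ℂ] L) η)
          ((J k 1).ind i x.2.2.1 x.2.1 * BM.sh x.2.2.1 ((J k 0).ind x.2.1 x.2.2.2 x.1 *
            BM.sh x.2.2.2 1), x.2.2.1 * (x.2.2.2 * 1), (σ (w x.1) : L →L[ℂ] L) ξ) ω =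
          ∑ j, ∑ h ∈ (J k 1).T, ((J k 1).ind i h j).1 ω * ∑ j', ∑ h' ∈ (J k 0).T,
            ((J k 0).ind j h' j').1 (h⁻¹ • ω) *
              S.κ σ ω 1 (h * h') ((σ (w i) : L →L[ℂ] L) η) ((σ (w j') : L →L[ℂ] L) ξ) := by
        rw [Finset.sum_product]
        simp only [Finset.sum_product, Finset.mul_sum]
        rw [Finset.sum_comm]
        refine Finset.sum_congr rfl fun j _ => ?_
        rw [Finset.sum_comm]
        refine Finset.sum_congr rfl fun h _ => Finset.sum_congr rfl fun j' _ =>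
          Finset.sum_congr rfl fun h' _ => ?_
        simp [Sys.kf, mul_assoc]
      simp only
      rw [h2, h1]
      by_cases hω : ω ∈ B k i
      · rw [Set.indicator_of_mem hω]
        have h3 := Sys.norm_κ_le (S := S) σ ω 1 (((J k 1).t ω i).1 *
          ((J k 0).t (((J k 1).t ω i).1⁻¹ • ω) ((J k 1).t ω i).2).1) ((σ (w i) : L →L[ℂ] L) η)
          ((σ (w ((J k 0).t (((J k 1).t ω i).1⁻¹ • ω) ((J k 1).t ω i).2).2) : L →L[ℂ] L) ξ)
        rw [uni_norm (σ (w i)), hηn, uni_norm] at h3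
        have h5 := (abs_le.1 ((Complex.abs_re_le_norm _).trans h3)).1
        change _ ≤ Complex.re _
        nlinarith
      · have e5 : ∀ u : F2, (σ (w i * FreeGroup.of k * u⁻¹) : L →L[ℂ] L) ((σ u : L →L[ℂ] L) ξ) =
            (σ (w i) : L →L[ℂ] L) η := by
          intro u
          rw [← ContinuousLinearMap.mul_apply, ← Submonoid.coe_mul, ← MonoidHom.map_mul,
            inv_mul_cancel_right, MonoidHom.map_mul, Submonoid.coe_mul,
            ContinuousLinearMap.mul_apply]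
        rw [Set.indicator_of_notMem hω, Sys.κ_of_rel σ (hg k i ω hω _ _ _ _ rfl rfl), e5,
          uni_inner_map, inner_self_eq_norm_sq_to_K, hηn]
        simp [← Complex.ofReal_pow]
    have e2 : (⟪V η, evM (und π) (Z k 1) (evM (und π) (Z k 0) (V ξ))⟫_ℂ).re =
        ∑ i, a * a * (⟪e (1, 1, (σ (w i) : L →L[ℂ] L) η), ∑ j', ((Z k 1).map (ev (und π)) *
          (Z k 0).map (ev (und π))) i j' (e (1, 1, (σ (w j') : L →L[ℂ] L) ξ))⟫_ℂ).re := by
      rw [← ContinuousLinearMap.mul_apply, evM_eq, evM_eq, ← map_mul, PiLp.inner_apply,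
        Complex.re_sum]
      refine Finset.sum_congr rfl fun i _ => ?_
      simp only [blk_apply, hVi, map_smul, ← Finset.smul_sum, inner_smul_left, inner_smul_right,
        Complex.conj_ofReal, Complex.re_ofReal_mul, mul_assoc]
    have h5 : ‖ξ‖ ^ 2 * (1 - δ ^ 2 / 2) ≤
        (⟪V η, evM (und π) (Z k 1) (evM (und π) (Z k 0) (V ξ))⟫_ℂ).re := by
      rw [e2]
      refine le_trans ?_ (Finset.sum_le_sum fun i _ =>
        mul_le_mul_of_nonneg_left (key i) (mul_self_nonneg a))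
      rw [← Finset.mul_sum, ← Finset.mul_sum, Finset.sum_sub_distrib, ← Finset.mul_sum]
      simp only [Finset.sum_const, Finset.card_univ, nsmul_eq_mul, mul_one]
      have h6 := mul_le_mul_of_nonneg_left (hμ k) (mul_nonneg (mul_self_nonneg a) (sq_nonneg ‖ξ‖))
      have h7 : a * a * ‖ξ‖ ^ 2 * (δ ^ 2 / 4 * Fintype.card D) = ‖ξ‖ ^ 2 * δ ^ 2 / 4 := by
        linear_combination (‖ξ‖ ^ 2 * δ ^ 2 / 4) * haa
      have h8 : a * a * ‖ξ‖ ^ 2 * Fintype.card D = ‖ξ‖ ^ 2 := by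
        linear_combination (‖ξ‖ ^ 2) * haa
      nlinarith
    refine (sq_le_sq₀ (norm_nonneg _) (by positivity)).1 ?_
    rw [norm_sub_rev, @norm_sub_sq ℂ, hu, hu, hVn, hVn, hηn]
    change _ - 2 * Complex.re _ + _ ≤ _
    nlinarith

end Pool.Agent.P.MP_95bcfc_an
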