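import Pool.Agent.P.MP_95bcfc_an.Stmt

set_option autoImplicit false

open scoped TensorProduct

namespace Pool.Agent.P.MP_95bcfc_an

/-- The minimal (spatial) C*-norm of `x`, an element of the algebraic tensor product of the group
algebras of `Γ` and `Λ`, is at most `r`: the bound holds in the Hilbert tensor product of any two
unitary representations. -/
def MinLe {Γ Λ : Type} [Group Γ] [Group Λ] (x : Γ × Λ →₀ ℂ) (r : ℝ) : Prop :=
  ∀ (H : Type) [NormedAddCommGroup H] [InnerProductSpace ℂ H] [CompleteSpace H]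
    (K : Type) [NormedAddCommGroup K] [InnerProductSpace ℂ K] [CompleteSpace K]
    (π : Γ →* unitary (H →L[ℂ] H)) (ρ : Λ →* unitary (K →L[ℂ] K)),
    ‖x.sum fun p c => c • TensorProduct.mapL (π p.1 : H →L[ℂ] H) (ρ p.2 : K →L[ℂ] K)‖ ≤ r

/-- The maximal C*-norm of `x` is at most `r`: the bound holds for any two commuting unitary
representations on one Hilbert space. -/
def MaxLe {Γ Λ : Type} [Group Γ] [Group Λ] (x : Γ × Λ →₀ ℂ) (r : ℝ) : Prop :=
  ∀ (L : Type) [NormedAddCommGroup L] [InnerProductSpace ℂ L] [CompleteSpace L]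
    (π : Γ →* unitary (L →L[ℂ] L)) (ρ : Λ →* unitary (L →L[ℂ] L)),
    (∀ g h, Commute (π g : L →L[ℂ] L) (ρ h : L →L[ℂ] L)) →
    ‖x.sum fun p c => c • ((π p.1 : L →L[ℂ] L) * (ρ p.2 : L →L[ℂ] L))‖ ≤ r

/-- The minimal and the maximal C*-norm agree on the algebraic tensor product of the full group
C*-algebras of `Γ` and `Λ`. -/
def Nuc (Γ Λ : Type) [Group Γ] [Group Λ] : Prop :=
  ∀ (x : Γ × Λ →₀ ℂ) (r : ℝ), MinLe x r → MaxLe x r

/-- Kirchberg's property. -/
def Kirchberg (Γ : Type) [Group Γ] : Prop := Nuc Γ Γ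

theorem shift_apply {A G : Type} [AddCommGroup A] [Group G] (g : G)
    (f : Multiplicative (G →₀ A)) (x : G) :
    (shift A G g f).toAdd x = f.toAdd (g⁻¹ * x) := rfl

end Pool.Agent.P.MP_95bcfc_an
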