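import Pool.Agent.P.MP_95bcfc_an.Transfer

set_option autoImplicit false
set_option linter.unusedSectionVars false
set_option linter.deprecated false

open scoped TensorProduct InnerProductSpace Nat

namespace Pool.Agent.P.MP_95bcfc_an

variable {Γ Λ : Type} [Group Γ] [Group Λ] {D : Type} [Fintype D] [DecidableEq D]

theorem Approx.one : Approx (Γ := Γ) (D := D) fun _ => 1 :=
  fun ε hε => ⟨1, fun R => by simpa using hε.le⟩

theorem Approx.mul {S T : ∀ R : Rep Γ, unitary (HD D R.H →L[ℂ] HD D R.H)}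
    (hS : Approx fun R => (S R : HD D R.H →L[ℂ] HD D R.H))
    (hT : Approx fun R => (T R : HD D R.H →L[ℂ] HD D R.H)) :
    Approx fun R => ((S R * T R : unitary (HD D R.H →L[ℂ] HD D R.H)) :
      HD D R.H →L[ℂ] HD D R.H) := by
  intro ε hε
  obtain ⟨Z, hZ⟩ := hS (min 1 (ε / 3)) (by positivity)
  obtain ⟨W, hW⟩ := hT (ε / 3) (by positivity)
  refine ⟨Z * W, fun R => ?_⟩
  have h1 := hZ R
  have h2 := hW R
  simp only at h1 h2 ⊢
  rw [map_mul, Submonoid.coe_mul]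
  have ha := uni_opNorm_le (S R)
  have hb := uni_opNorm_le (T R)
  generalize (S R).1 = a at *
  generalize (T R).1 = b at *
  generalize evM (und R.π) Z = z at *
  generalize evM (und R.π) W = w at *
  have e : a * b - z * w = (a - z) * b + (a - (a - z)) * (b - w) := by
    rw [sub_sub_cancel, sub_mul, mul_sub]
    abel
  have h3 : ‖a - (a - z)‖ ≤ 2 := (norm_sub_le _ _).trans (by linarith [min_le_left 1 (ε / 3)])
  rw [e]
  refine (norm_add_le _ _).trans ?_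
  have h4 := norm_mul_le (a - z) b
  have h5 := norm_mul_le (a - (a - z)) (b - w)
  have h6 := min_le_right 1 (ε / 3)
  nlinarith [norm_nonneg (a - z), norm_nonneg b, norm_nonneg (b - w), norm_nonneg (a - (a - z))]

theorem evM_adj {Z Z' : Matrix D D (MonoidAlgebra ℂ Γ)}
    (h : ∀ (E : Type) [NormedAddCommGroup E] [InnerProductSpace ℂ E] (U : Γ →* (E →L[ℂ] E)),
      IsUni U → ∀ u v, ⟪evM U Z' u, v⟫_ℂ = ⟪u, evM U Z v⟫_ℂ) (R : Rep Γ) :
    evM (und R.π) Z' = star (evM (und R.π) Z) := by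
  rw [ContinuousLinearMap.star_eq_adjoint, ContinuousLinearMap.eq_adjoint_iff]
  exact h _ _ (isUni_und R.π)

theorem Approx.inv {S : ∀ R : Rep Γ, unitary (HD D R.H →L[ℂ] HD D R.H)}
    (hS : Approx fun R => (S R : HD D R.H →L[ℂ] HD D R.H)) :
    Approx fun R => (((S R)⁻¹ : unitary (HD D R.H →L[ℂ] HD D R.H)) :
      HD D R.H →L[ℂ] HD D R.H) := by
  intro ε hε
  obtain ⟨Z, hZ⟩ := hS ε hε
  obtain ⟨Z', hZ'⟩ := exists_adjM Z
  refine ⟨Z', fun R => ?_⟩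
  have h1 := hZ R
  simp only at h1 ⊢
  rw [evM_adj hZ' R, ← Unitary.star_eq_inv, Unitary.coe_star]
  have h2 := norm_star ((S R).1 - evM (und R.π) Z)
  rw [star_sub] at h2
  exact h2.le.trans h1

theorem exists_bound (Z : Matrix D D (MonoidAlgebra ℂ Γ)) :
    ∃ C : ℝ, 0 ≤ C ∧ ∀ R : Rep Γ, ‖evM (und R.π) Z‖ ≤ C := by
  refine ⟨∑ i, ∑ j, ∑ g ∈ (Z i j).coeff.support, ‖(Z i j).coeff g‖, by positivity, fun R => ?_⟩
  rw [evM_eq]
  refine (norm_blk_le _).trans (Finset.sum_le_sum fun i _ => Finset.sum_le_sum fun j _ => ?_)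
  rw [Matrix.map_apply, ev_apply, Finsupp.sum]
  refine (norm_sum_le _ _).trans (Finset.sum_le_sum fun g _ => ?_)
  rw [norm_smul]
  exact mul_le_of_le_one_right (norm_nonneg _) (uni_opNorm_le _)

theorem approx_exp (Z : Matrix D D (MonoidAlgebra ℂ Γ)) :
    Approx fun R => NormedSpace.exp (evM (und R.π) Z) := by
  intro ε hε
  obtain ⟨C, hC0, hC⟩ := exists_bound Z
  have hs := Real.summable_pow_div_factorial C
  have ht := tendsto_sum_nat_add fun n : ℕ => C ^ n / (n ! : ℝ)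
  obtain ⟨N, hN, hN1⟩ := ((ht.eventually (gt_mem_nhds hε)).and
    (Filter.eventually_ge_atTop 1)).exists
  refine ⟨∑ n ∈ Finset.range N, ((n ! : ℂ)⁻¹) • Z ^ n, fun R => ?_⟩
  set a := evM (und R.π) Z with ha
  have h1 := NormedSpace.exp_series_hasSum_exp' (𝕂 := ℂ) a
  have h2 := (hasSum_nat_add_iff' N).2 h1
  simp only [map_sum, map_smul, map_pow]
  rw [← ha, ← h2.tsum_eq]
  refine (tsum_of_norm_bounded ((summable_nat_add_iff N).2 hs).hasSum fun n => ?_).trans hN.le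
  rw [norm_smul, norm_inv, Complex.norm_natCast, div_eq_inv_mul]
  refine mul_le_mul_of_nonneg_left ?_ (by positivity)
  exact (norm_pow_le' a (by omega)).trans (pow_le_pow_left₀ (norm_nonneg _) (hC R) _)

theorem exp_invol {A : Type} [NormedRing A] [NormedAlgebra ℂ A] [CompleteSpace A] {J : A}
    (hJ : J * J = 1) :
    NormedSpace.exp (((Real.pi : ℂ) * Complex.I) • ((1 / 2 : ℂ) • (1 - J))) = J := by
  set P : A := (1 / 2 : ℂ) • (1 - J) with hP
  set t : ℂ := (Real.pi : ℂ) * Complex.I with ht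
  have hPP : P * P = P := by
    rw [hP, smul_mul_smul_comm, sub_mul, mul_sub, mul_sub, hJ]
    simp only [mul_one, one_mul]
    rw [show (1 : A) - J - (J - 1) = (2 : ℂ) • (1 - J) by rw [two_smul]; abel, smul_smul]
    norm_num
  have hPn : ∀ n : ℕ, P ^ (n + 1) = P := by
    intro n
    induction n with
    | zero => simp
    | succ n ih => rw [pow_succ, ih, hPP]
  have h1 := NormedSpace.exp_series_hasSum_exp' (𝕂 := ℂ) (t • P)
  have h2 := (hasSum_nat_add_iff' 1).2 h1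
  have h3 := (hasSum_nat_add_iff' 1).2 (NormedSpace.exp_series_hasSum_exp' (𝕂 := ℂ) t)
  have h4 := h3.smul_const P
  have h5 : (fun n : ℕ => (((n + 1)! : ℂ)⁻¹) • (t • P) ^ (n + 1)) =
      fun n : ℕ => ((((n + 1)! : ℂ)⁻¹) • t ^ (n + 1)) • P := by
    funext n
    rw [smul_pow, hPn, smul_assoc]
  have h6 := h2.unique (h5 ▸ h4)
  rw [← Complex.exp_eq_exp_ℂ, ht, Complex.exp_pi_mul_I] at h6
  simp only [Finset.range_one, Finset.sum_singleton, Nat.factorial_zero, Nat.cast_one, inv_one,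
    pow_zero, one_smul] at h6
  rw [sub_eq_iff_eq_add.1 h6, hP, smul_smul]
  norm_num

theorem exists_lift (Z : Matrix D D (MonoidAlgebra ℂ Γ)) :
    ∃ S : ∀ R : Rep Γ, unitary (HD D R.H →L[ℂ] HD D R.H),
      (Approx fun R => (S R : HD D R.H →L[ℂ] HD D R.H)) ∧
      ∀ R : Rep Γ, star (evM (und R.π) Z) = evM (und R.π) Z →
        evM (und R.π) Z * evM (und R.π) Z = 1 → (S R : HD D R.H →L[ℂ] HD D R.H) = evM (und R.π) Z := by
  obtain ⟨Z', hZ'⟩ := exists_adjM Z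
  let Y : Matrix D D (MonoidAlgebra ℂ Γ) :=
    ((Real.pi : ℂ) * Complex.I) • ((1 / 2 : ℂ) • (1 - (1 / 2 : ℂ) • (Z + Z')))
  have hY : ∀ R : Rep Γ, evM (und R.π) Y = ((Real.pi : ℂ) * Complex.I) • ((1 / 2 : ℂ) •
      (1 - (1 / 2 : ℂ) • (evM (und R.π) Z + star (evM (und R.π) Z)))) := by
    intro R
    simp only [Y, map_smul, map_sub, map_one, map_add, evM_adj hZ' R]
  have hsk : ∀ R : Rep Γ, evM (und R.π) Y ∈ skewAdjoint (HD D R.H →L[ℂ] HD D R.H) := by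
    intro R
    rw [hY, skewAdjoint.mem_iff]
    simp only [star_smul, star_sub, star_one, star_add, star_star, star_mul', RCLike.star_def,
      Complex.conj_ofReal, Complex.conj_I, map_div₀, map_one, map_ofNat, add_comm (star _),
      mul_neg]
    exact neg_smul (M := HD D R.H →L[ℂ] HD D R.H) (Real.pi * Complex.I : ℂ) _
  refine ⟨fun R => ⟨NormedSpace.exp (evM (und R.π) Y), ?_⟩, approx_exp Y, fun R h1 h2 => ?_⟩
  · let +nondep : NormedAlgebra ℚ (HD D R.H →L[ℂ] HD D R.H) := .restrictScalars ℚ ℂ _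
    exact NormedSpace.exp_mem_unitary_of_mem_skewAdjoint (hsk R)
  · change NormedSpace.exp (evM (und R.π) Y) = _
    rw [hY, h1, ← two_smul ℂ (evM (und R.π) Z), smul_smul (1 / 2 : ℂ) 2]
    norm_num only [one_smul]
    exact exp_invol h2

/-- the free group of rank two -/
abbrev F2 : Type := FreeGroup (Fin 2)

theorem transfer (hN : Nuc Γ Λ)
    (hyp : ∀ (L : Type) [NormedAddCommGroup L] [InnerProductSpace ℂ L] [CompleteSpace L]
      (σ : F2 →* unitary (L →L[ℂ] L)) (ρ : Λ →* unitary (L →L[ℂ] L)),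
      (∀ g h, Commute (σ g : L →L[ℂ] L) (ρ h : L →L[ℂ] L)) → ∀ δ : ℝ, 0 < δ →
      ∃ (D : Type) (_ : Fintype D) (_ : DecidableEq D)
        (Z : Fin 2 → Fin 2 → Matrix D D (MonoidAlgebra ℂ Γ)) (R : Rep Γ)
        (ρ' : Λ →* unitary (R.H →L[ℂ] R.H)) (V : L →L[ℂ] HD D R.H),
        (∀ g l, Commute (R.π g : R.H →L[ℂ] R.H) (ρ' l : R.H →L[ℂ] R.H)) ∧
        (∀ ξ, ‖V ξ‖ = ‖ξ‖) ∧
        (∀ l ξ, diag D (ρ' l : R.H →L[ℂ] R.H) (V ξ) = V ((ρ l : L →L[ℂ] L) ξ)) ∧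
        (∀ k m, star (evM (und R.π) (Z k m)) = evM (und R.π) (Z k m) ∧
          evM (und R.π) (Z k m) * evM (und R.π) (Z k m) = 1) ∧
        ∀ k ξ, ‖evM (und R.π) (Z k 1) (evM (und R.π) (Z k 0) (V ξ)) -
          V ((σ (FreeGroup.of k) : L →L[ℂ] L) ξ)‖ ≤ δ * ‖ξ‖) : Nuc F2 Λ := by
  intro x r hx L _ _ _ σ ρ hc
  set C := ∑ p ∈ x.support, ‖x p‖ * (p.1.norm : ℝ) with hC
  have hC0 : 0 ≤ C := Finset.sum_nonneg fun _ _ => by positivity
  refine le_of_forall_pos_le_add fun η hη => ?_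
  have hδ : 0 < η / (C + 1) := by positivity
  set δ := η / (C + 1) with hδd
  obtain ⟨D, _, _, Z, R, ρ', V, h1, h2, h3, h4, h5⟩ := hyp L σ ρ hc δ hδ
  choose S hS hS' using fun k m => exists_lift (Z k m)
  let β : ∀ R : Rep Γ, F2 →* unitary (HD D R.H →L[ℂ] HD D R.H) := fun R =>
    FreeGroup.lift fun k => S k 1 R * S k 0 R
  have hβ : ∀ w, Approx fun R => (β R w : HD D R.H →L[ℂ] HD D R.H) := by
    intro w
    induction w using FreeGroup.induction_on with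
    | C1 => simpa using Approx.one
    | of k => simpa only [β, FreeGroup.lift_apply_of] using (hS k 1).mul (hS k 0)
    | inv_of k ih => simpa only [map_inv] using ih.inv
    | mul a b ha hb => simpa only [MonoidHom.map_mul] using ha.mul hb
  have hT := transfer1 hN β hβ hx R ρ' h1
  have hgen : ∀ k ξ, ‖(β R (FreeGroup.of k) : HD D R.H →L[ℂ] HD D R.H) (V ξ) -
      V ((σ (FreeGroup.of k) : L →L[ℂ] L) ξ)‖ ≤ δ * ‖ξ‖ := by
    intro k ξ
    simp only [β, FreeGroup.lift_apply_of, Submonoid.coe_mul, ContinuousLinearMap.mul_apply,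
      hS' k 1 R (h4 k 1).1 (h4 k 1).2, hS' k 0 R (h4 k 0).1 (h4 k 0).2]
    exact h5 k ξ
  have hmul : ∀ (a b : F2) (s t : ℝ),
      (∀ ξ, ‖(β R a : HD D R.H →L[ℂ] HD D R.H) (V ξ) - V ((σ a : L →L[ℂ] L) ξ)‖ ≤ s * ‖ξ‖) →
      (∀ ξ, ‖(β R b : HD D R.H →L[ℂ] HD D R.H) (V ξ) - V ((σ b : L →L[ℂ] L) ξ)‖ ≤ t * ‖ξ‖) →
      ∀ ξ, ‖(β R (a * b) : HD D R.H →L[ℂ] HD D R.H) (V ξ) - V ((σ (a * b) : L →L[ℂ] L) ξ)‖ ≤
        (s + t) * ‖ξ‖ := by
    intro a b s t ha hb ξ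
    have e : (β R (a * b) : HD D R.H →L[ℂ] HD D R.H) (V ξ) - V ((σ (a * b) : L →L[ℂ] L) ξ) =
        ((β R a : HD D R.H →L[ℂ] HD D R.H) (V ((σ b : L →L[ℂ] L) ξ)) -
          V ((σ a : L →L[ℂ] L) ((σ b : L →L[ℂ] L) ξ))) +
        (β R a : HD D R.H →L[ℂ] HD D R.H) ((β R b : HD D R.H →L[ℂ] HD D R.H) (V ξ) -
          V ((σ b : L →L[ℂ] L) ξ)) := by
      simp only [MonoidHom.map_mul, Submonoid.coe_mul, ContinuousLinearMap.mul_apply, map_sub]
      abel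
    rw [e]
    refine (norm_add_le _ _).trans ?_
    rw [uni_norm]
    have h6 := ha ((σ b : L →L[ℂ] L) ξ)
    rw [uni_norm] at h6
    linarith [hb ξ]
  have hinv : ∀ (a : F2) (s : ℝ),
      (∀ ξ, ‖(β R a : HD D R.H →L[ℂ] HD D R.H) (V ξ) - V ((σ a : L →L[ℂ] L) ξ)‖ ≤ s * ‖ξ‖) →
      ∀ ξ, ‖(β R a⁻¹ : HD D R.H →L[ℂ] HD D R.H) (V ξ) - V ((σ a⁻¹ : L →L[ℂ] L) ξ)‖ ≤ s * ‖ξ‖ := by
    intro a s ha ξ
    have h6 := ha ((σ a⁻¹ : L →L[ℂ] L) ξ)
    rw [uni_norm] at h6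
    rw [← uni_norm (β R a), map_sub, norm_sub_rev]
    have e1 : (β R a : HD D R.H →L[ℂ] HD D R.H) ((β R a⁻¹ : HD D R.H →L[ℂ] HD D R.H) (V ξ)) =
        V ξ := by
      rw [← ContinuousLinearMap.mul_apply, ← Submonoid.coe_mul, ← MonoidHom.map_mul]
      simp
    have e2 : (σ a : L →L[ℂ] L) ((σ a⁻¹ : L →L[ℂ] L) ξ) = ξ := by
      rw [← ContinuousLinearMap.mul_apply, ← Submonoid.coe_mul, ← MonoidHom.map_mul]
      simp
    rw [e1]
    rwa [e2] at h6
  have hlist : ∀ (l : List (Fin 2 × Bool)) (ξ : L),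
      ‖(β R (FreeGroup.mk l) : HD D R.H →L[ℂ] HD D R.H) (V ξ) -
        V ((σ (FreeGroup.mk l) : L →L[ℂ] L) ξ)‖ ≤ (l.length * δ) * ‖ξ‖ := by
    intro l
    induction l with
    | nil => intro ξ; simp [← FreeGroup.one_eq_mk]
    | cons a l ih =>
      have e : FreeGroup.mk (a :: l) = FreeGroup.mk [a] * FreeGroup.mk l := by
        rw [FreeGroup.mul_mk]; rfl
      have h7 : ∀ ξ, ‖(β R (FreeGroup.mk [a]) : HD D R.H →L[ℂ] HD D R.H) (V ξ) -
          V ((σ (FreeGroup.mk [a]) : L →L[ℂ] L) ξ)‖ ≤ δ * ‖ξ‖ := by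
        obtain ⟨k, b⟩ := a
        cases b
        · have e3 : FreeGroup.mk [(k, false)] = (FreeGroup.of k)⁻¹ := by
            rw [FreeGroup.of, FreeGroup.inv_mk]; rfl
          rw [e3]
          exact hinv _ _ (hgen k)
        · exact hgen k
      intro ξ
      have h8 := hmul _ _ _ _ h7 ih ξ
      rw [e]
      refine h8.trans (le_of_eq ?_)
      simp only [List.length_cons, Nat.cast_add, Nat.cast_one]
      ring
  have hall : ∀ (w : F2) (ξ : L), ‖(β R w : HD D R.H →L[ℂ] HD D R.H) (V ξ) -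
      V ((σ w : L →L[ℂ] L) ξ)‖ ≤ (w.norm * δ) * ‖ξ‖ := by
    intro w ξ
    have := hlist w.toWord ξ
    rwa [FreeGroup.mk_toWord] at this
  have hr : 0 ≤ r := (norm_nonneg _).trans hT
  refine ContinuousLinearMap.opNorm_le_bound _ (by positivity) fun ξ => ?_
  have e : V ((x.sum fun p c => c • ((σ p.1 : L →L[ℂ] L) * (ρ p.2 : L →L[ℂ] L))) ξ) =
      (x.sum fun p c => c • ((β R p.1 : HD D R.H →L[ℂ] HD D R.H) *
        diag D (ρ' p.2 : R.H →L[ℂ] R.H))) (V ξ) -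
      ∑ p ∈ x.support, x p • ((β R p.1 : HD D R.H →L[ℂ] HD D R.H) (V ((ρ p.2 : L →L[ℂ] L) ξ)) -
        V ((σ p.1 : L →L[ℂ] L) ((ρ p.2 : L →L[ℂ] L) ξ))) := by
    simp only [Finsupp.sum, ContinuousLinearMap.sum_apply, ContinuousLinearMap.smul_apply,
      ContinuousLinearMap.mul_apply, map_sum, map_smul, h3, smul_sub, Finset.sum_sub_distrib]
    abel
  rw [← h2, e]
  refine (norm_sub_le _ _).trans ?_
  have h6 := (ContinuousLinearMap.le_opNorm _ (V ξ)).trans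
    (mul_le_mul_of_nonneg_right hT (norm_nonneg _))
  rw [h2] at h6
  have h7 : ‖∑ p ∈ x.support, x p •
      ((β R p.1 : HD D R.H →L[ℂ] HD D R.H) (V ((ρ p.2 : L →L[ℂ] L) ξ)) -
        V ((σ p.1 : L →L[ℂ] L) ((ρ p.2 : L →L[ℂ] L) ξ)))‖ ≤ C * δ * ‖ξ‖ := by
    rw [hC, Finset.sum_mul, Finset.sum_mul]
    refine (norm_sum_le _ _).trans (Finset.sum_le_sum fun p _ => ?_)
    rw [norm_smul, mul_assoc, mul_assoc]
    refine mul_le_mul_of_nonneg_left ?_ (norm_nonneg _)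
    have h8 := hall p.1 ((ρ p.2 : L →L[ℂ] L) ξ)
    rw [uni_norm] at h8
    rwa [← mul_assoc]
  have h8 : (C + 1) * δ = η := by rw [hδd]; field_simp
  nlinarith [norm_nonneg ξ, mul_nonneg hδ.le (norm_nonneg ξ)]

end Pool.Agent.P.MP_95bcfc_an
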