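import Pool.Agent.P.MP_95bcfc_an.Exp

set_option autoImplicit false
set_option linter.unusedSectionVars false
set_option linter.deprecated false

open scoped TensorProduct InnerProductSpace ComplexConjugate

namespace Pool.Agent.P.MP_95bcfc_an

theorem exists_kernel_space {Y : Type} (k : Y → Y → ℂ) (hs : ∀ y y', conj (k y y') = k y' y)
    (hp : ∀ (s : Finset Y) (c : Y → ℂ),
      0 ≤ (∑ y ∈ s, ∑ y' ∈ s, conj (c y) * c y' * k y y').re) :
    ∃ (H : Type) (_ : NormedAddCommGroup H) (_ : InnerProductSpace ℂ H) (_ : CompleteSpace H)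
      (e : Y → H), (∀ y y', ⟪e y, e y'⟫_ℂ = k y y') ∧
        Dense (Submodule.span ℂ (Set.range e) : Set H) := by
  classical
  let K : Matrix Y Y (ℂ →L[ℂ] ℂ) := Matrix.of fun x y => k x y • (1 : ℂ →L[ℂ] ℂ)
  have hK : K.PosSemidef := by
    have ht := (RKHS.posSemidef_tfae (K := K)).out 2 0
    refine ht.mp ⟨?_, fun vv => ?_⟩
    · ext x y
      simp [K, Matrix.conjTranspose_apply, hs]
    · have := hp vv.support vv
      refine this.trans (le_of_eq ?_)
      change _ = Complex.re _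
      congr 1
      refine Finset.sum_congr rfl fun x _ => Finset.sum_congr rfl fun y _ => ?_
      simp [K, hs]
      ring
  haveI : Fact K.PosSemidef := ⟨hK⟩
  refine ⟨RKHS.OfKernel K, inferInstance, inferInstance, inferInstance,
    fun y => RKHS.kerFun (RKHS.OfKernel K) y 1, fun y y' => ?_, ?_⟩
  · rw [← RKHS.kernel_inner, RKHS.OfKernel.kernel_ofKernel]
    simp [K, hs]
  · have h := RKHS.kerFun_dense (𝕜 := ℂ) (RKHS.OfKernel K)
    rw [← Submodule.dense_iff_topologicalClosure_eq_top] at h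
    refine h.mono ?_
    refine Submodule.span_le.2 ?_
    rintro _ ⟨x, v, rfl⟩
    have : RKHS.kerFun (RKHS.OfKernel K) x v = v • RKHS.kerFun (RKHS.OfKernel K) x 1 := by
      rw [← map_smul]; simp
    rw [this]
    exact Submodule.smul_mem _ _ (Submodule.subset_span ⟨x, rfl⟩)

theorem gns {Y Δ : Type} [Group Δ] [MulAction Δ Y] (k : Y → Y → ℂ)
    (hs : ∀ y y', conj (k y y') = k y' y)
    (hp : ∀ (s : Finset Y) (c : Y → ℂ),
      0 ≤ (∑ y ∈ s, ∑ y' ∈ s, conj (c y) * c y' * k y y').re)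
    (hinv : ∀ (g : Δ) y y', k (g • y) (g • y') = k y y') :
    ∃ (R : Rep Δ) (e : Y → R.H), (∀ y y', ⟪e y, e y'⟫_ℂ = k y y') ∧
      (∀ g y, (R.π g : R.H →L[ℂ] R.H) (e y) = e (g • y)) ∧
        Dense (Submodule.span ℂ (Set.range e) : Set R.H) := by
  obtain ⟨H, _, _, _, e, he, hd⟩ := exists_kernel_space k hs hp
  let E : (Y →₀ ℂ) →ₗ[ℂ] H := Finsupp.linearCombination ℂ e
  have hE : DenseRange E := by
    have : Set.range E = (Submodule.span ℂ (Set.range e) : Set H) := by
      rw [← Finsupp.range_linearCombination]; rfl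
    rwa [DenseRange, this]
  let f : Δ → (Y →₀ ℂ) ≃ₗ[ℂ] (Y →₀ ℂ) := fun g => Finsupp.domLCongr (MulAction.toPerm g)
  have hf : ∀ g y, E (f g (Finsupp.single y 1)) = e (g • y) := by
    intro g y
    simp [E, f]
  have hE1 : ∀ y, E (Finsupp.single y 1) = e y := fun y => by simp [E]
  have hin : ∀ g a b, ⟪E (f g a), E (f g b)⟫_ℂ = ⟪E a, E b⟫_ℂ := by
    intro g a b
    induction a using Finsupp.induction_linear with
    | zero => simp
    | add a a' h1 h2 => simp only [map_add, inner_add_left, h1, h2]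
    | single y c =>
      induction b using Finsupp.induction_linear with
      | zero => simp
      | add a a' h1 h2 => simp only [map_add, inner_add_right, h1, h2]
      | single y' c' =>
        rw [← Finsupp.smul_single_one y c, ← Finsupp.smul_single_one y' c']
        simp only [map_smul, inner_smul_left, inner_smul_right, hf, hE1, he, hinv]
  have hn : ∀ g a, ‖E (f g a)‖ = ‖E a‖ := by
    intro g a
    rw [@norm_eq_sqrt_re_inner ℂ, @norm_eq_sqrt_re_inner ℂ, hin]
  let U : Δ → unitary (H →L[ℂ] H) := fun g =>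
    Unitary.linearIsometryEquiv.symm ((f g).extendOfIsometry E E hE hE (hn g))
  have hU : ∀ g y, (U g : H →L[ℂ] H) (e y) = e (g • y) := by
    intro g y
    rw [← hf, ← hE1]
    exact LinearEquiv.extendOfIsometry_eq _ _ _ hE hE (hn g) _
  refine ⟨⟨H, MonoidHom.mk' U fun g h => ?_⟩, e, he, hU, hd⟩
  refine Subtype.ext (ContinuousLinearMap.ext_on hd ?_)
  rintro _ ⟨y, rfl⟩
  simp only [Submonoid.coe_mul, ContinuousLinearMap.mul_apply, hU, mul_smul]

variable {Γ Λ : Type} [Group Γ] [Group Λ]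

theorem Nuc.symm (h : Nuc Γ Λ) : Nuc Λ Γ := by
  intro x r hx L _ _ _ π ρ hc
  have h1 := h (x.equivMapDomain (Equiv.prodComm Λ Γ)) r ?_ L ρ π fun g l => (hc l g).symm
  · rw [Finsupp.sum_equivMapDomain] at h1
    refine le_of_eq_of_le ?_ h1
    congr 1
    refine Finsupp.sum_congr fun p _ => ?_
    rw [(hc _ _).eq]
    rfl
  · intro H _ _ _ K _ _ _ π' ρ'
    have h2 := hx K H ρ' π'
    rw [Finsupp.sum_equivMapDomain]
    have hr : 0 ≤ r := (norm_nonneg (x.sum fun p c =>
      c • TensorProduct.mapL (ρ' p.1 : K →L[ℂ] K) (π' p.2 : H →L[ℂ] H))).trans h2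
    refine ContinuousLinearMap.opNorm_le_bound _ hr fun v => ?_
    have h3 := (ContinuousLinearMap.le_opNorm _ (TensorProduct.comm ℂ H K v)).trans
      (mul_le_mul_of_nonneg_right h2 (norm_nonneg _))
    rw [TensorProduct.norm_comm] at h3
    refine le_of_eq_of_le ?_ h3
    rw [← TensorProduct.norm_comm]
    congr 1
    simp only [Finsupp.sum, ContinuousLinearMap.sum_apply, ContinuousLinearMap.smul_apply,
      map_sum, map_smul]
    refine Finset.sum_congr rfl fun p _ => ?_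
    congr 1
    clear h3
    induction v using TensorProduct.induction_on with
    | zero => simp
    | add a b ha hb => simp only [map_add, ha, hb]
    | tmul a b => simp

/-- a sum of inner products over pairs in the same class is nonnegative -/
theorem sum_class_nonneg {Y C L : Type} [NormedAddCommGroup L] [InnerProductSpace ℂ L]
    [DecidableEq C] (s : Finset Y) (cl : Y → C) (v : Y → L) :
    0 ≤ (∑ y ∈ s, ∑ y' ∈ s, if cl y = cl y' then ⟪v y, v y'⟫_ℂ else 0).re := by
  have h : (∑ y ∈ s, ∑ y' ∈ s, if cl y = cl y' then ⟪v y, v y'⟫_ℂ else 0) =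
      ∑ c ∈ s.image cl, ⟪∑ y ∈ s with cl y = c, v y, ∑ y ∈ s with cl y = c, v y⟫_ℂ := by
    rw [← Finset.sum_fiberwise_of_maps_to (g := cl) (t := s.image cl)
      fun y hy => Finset.mem_image_of_mem _ hy]
    refine Finset.sum_congr rfl fun c _ => ?_
    rw [sum_inner]
    refine Finset.sum_congr rfl fun y hy => ?_
    rw [inner_sum, Finset.sum_filter]
    refine Finset.sum_congr rfl fun y' _ => ?_
    rw [(Finset.mem_filter.1 hy).2]
    simp only [eq_comm]
  rw [h, Complex.re_sum]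
  exact Finset.sum_nonneg fun c _ => inner_self_nonneg (𝕜 := ℂ)

theorem uni_inner_map {L : Type} [NormedAddCommGroup L] [InnerProductSpace ℂ L] [CompleteSpace L]
    (u : unitary (L →L[ℂ] L)) (a b : L) :
    ⟪(u : L →L[ℂ] L) a, (u : L →L[ℂ] L) b⟫_ℂ = ⟪a, b⟫_ℂ :=
  ContinuousLinearMap.inner_map_map_of_mem_unitary u.2 a b

/-- a map into a Hilbert space with the inner products of an isometry is a linear isometry -/
theorem exists_clm {L H : Type} [NormedAddCommGroup L] [InnerProductSpace ℂ L]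
    [NormedAddCommGroup H] [InnerProductSpace ℂ H] (f : L → H)
    (h : ∀ a b, ⟪f a, f b⟫_ℂ = ⟪a, b⟫_ℂ) :
    ∃ V : L →L[ℂ] H, (∀ a, V a = f a) ∧ ∀ a, ‖V a‖ = ‖a‖ := by
  have hn : ∀ a, ‖f a‖ = ‖a‖ := fun a => by
    rw [@norm_eq_sqrt_re_inner ℂ, @norm_eq_sqrt_re_inner ℂ, h]
  let g : L →ₗ[ℂ] H :=
    { toFun := f
      map_add' := fun a b => by
        rw [← sub_eq_zero, ← @inner_self_eq_zero ℂ]
        simp only [inner_sub_left, inner_sub_right, inner_add_left, inner_add_right, h]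
        ring
      map_smul' := fun c a => by
        rw [← sub_eq_zero, ← @inner_self_eq_zero ℂ]
        simp only [inner_sub_left, inner_sub_right, inner_smul_left, inner_smul_right, h,
          RingHom.id_apply]
        ring }
  exact ⟨g.mkContinuous 1 fun a => by simp [g, hn], fun a => rfl, hn⟩

theorem Nuc.subgroup (h : Nuc Γ Λ) (S : Subgroup Γ) : Nuc S Λ := by
  classical
  intro x r hx L _ _ _ σ ρ hc
  letI act : MulAction (Γ × Λ) (Γ × L) :=
    { smul := fun g y => (g.1 * y.1, (ρ g.2 : L →L[ℂ] L) y.2)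
      one_smul := fun y => by
        change ((1 : Γ × Λ).1 * y.1, (ρ (1 : Γ × Λ).2 : L →L[ℂ] L) y.2) = y
        simp
      mul_smul := fun g h y => by
        change ((g * h).1 * y.1, (ρ (g * h).2 : L →L[ℂ] L) y.2) =
          (g.1 * (h.1 * y.1), (ρ g.2 : L →L[ℂ] L) ((ρ h.2 : L →L[ℂ] L) y.2))
        simp [mul_assoc] }
  have hact : ∀ (g : Γ × Λ) (y : Γ × L),
      g • y = (g.1 * y.1, (ρ g.2 : L →L[ℂ] L) y.2) := fun _ _ => rfl
  let k : Γ × L → Γ × L → ℂ := fun y y' =>
    if hh : y.1⁻¹ * y'.1 ∈ S then ⟪y.2, (σ ⟨_, hh⟩ : L →L[ℂ] L) y'.2⟫_ℂ else 0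
  have hφ : ∀ g : Γ, ((g : Γ ⧸ S).out)⁻¹ * g ∈ S := fun g =>
    QuotientGroup.eq.1 (QuotientGroup.out_eq' (g : Γ ⧸ S))
  have hk : ∀ y y', k y y' = if (y.1 : Γ ⧸ S) = (y'.1 : Γ ⧸ S) then
      ⟪(σ ⟨_, hφ y.1⟩ : L →L[ℂ] L) y.2, (σ ⟨_, hφ y'.1⟩ : L →L[ℂ] L) y'.2⟫_ℂ else 0 := by
    intro y y'
    by_cases hh : y.1⁻¹ * y'.1 ∈ S
    · have h1 : (y.1 : Γ ⧸ S) = (y'.1 : Γ ⧸ S) := QuotientGroup.eq.2 hh
      simp only [k, dif_pos hh, if_pos h1]
      rw [uni_inner, ← ContinuousLinearMap.mul_apply, ← Submonoid.coe_mul, ← map_inv,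
        ← MonoidHom.map_mul]
      congr 4
      ext
      simp [h1]
    · have h1 : ¬ (y.1 : Γ ⧸ S) = (y'.1 : Γ ⧸ S) := fun h => hh (QuotientGroup.eq.1 h)
      simp only [k, dif_neg hh, if_neg h1]
  obtain ⟨R, e, he, hU, -⟩ := gns (Δ := Γ × Λ) k (fun y y' => by
      rw [hk, hk]
      by_cases h1 : (y.1 : Γ ⧸ S) = (y'.1 : Γ ⧸ S)
      · rw [if_pos h1, if_pos h1.symm, inner_conj_symm]
      · rw [if_neg h1, if_neg fun h => h1 h.symm, map_zero])
    (fun s c => by
      refine (sum_class_nonneg s (fun y => (y.1 : Γ ⧸ S))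
        fun y => c y • (σ ⟨_, hφ y.1⟩ : L →L[ℂ] L) y.2).trans (le_of_eq ?_)
      congr 1
      refine Finset.sum_congr rfl fun y _ => Finset.sum_congr rfl fun y' _ => ?_
      rw [hk, inner_smul_left, inner_smul_right]
      split_ifs <;> ring)
    (fun g y y' => by
      have e1 : (g.1 * y.1)⁻¹ * (g.1 * y'.1) = y.1⁻¹ * y'.1 := by group
      simp only [k, hact, e1]
      split_ifs with hh
      · rw [← ContinuousLinearMap.mul_apply, (hc _ _).eq, ContinuousLinearMap.mul_apply,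
          uni_inner_map]
      · rfl)
  obtain ⟨V, hV, hVn⟩ := exists_clm (fun ξ => e (1, ξ)) fun a b => by
    rw [he]
    simp [k, ← Subtype.ext_iff, show (⟨1, S.one_mem⟩ : S) = 1 from rfl]
  have hcomm : ∀ g l, Commute ((R.π.comp (MonoidHom.inl Γ Λ)) g : R.H →L[ℂ] R.H)
      ((R.π.comp (MonoidHom.inr Γ Λ)) l : R.H →L[ℂ] R.H) := by
    intro g l
    change _ * _ = _ * _
    simp only [MonoidHom.comp_apply, ← Submonoid.coe_mul, ← MonoidHom.map_mul]
    simp
  have h1 := h (x.mapDomain fun p => ((p.1 : Γ), p.2)) r ?_ R.H (R.π.comp (MonoidHom.inl Γ Λ))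
    (R.π.comp (MonoidHom.inr Γ Λ)) hcomm
  · rw [Finsupp.sum_mapDomain_index (by simp) (by simp [add_smul])] at h1
    have hr : 0 ≤ r := (norm_nonneg _).trans h1
    refine ContinuousLinearMap.opNorm_le_bound _ hr fun ξ => ?_
    have h2 := (ContinuousLinearMap.le_opNorm _ (V ξ)).trans
      (mul_le_mul_of_nonneg_right h1 (norm_nonneg _))
    rw [hVn] at h2
    refine le_of_eq_of_le ?_ h2
    rw [← hVn]
    congr 1
    simp only [Finsupp.sum, ContinuousLinearMap.sum_apply, ContinuousLinearMap.smul_apply,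
      map_sum, map_smul, ContinuousLinearMap.mul_apply, MonoidHom.comp_apply]
    refine Finset.sum_congr rfl fun p _ => ?_
    congr 1
    rw [hV, hV, hU, hU, ← sub_eq_zero, ← @inner_self_eq_zero ℂ]
    simp only [inner_sub_left, inner_sub_right, he, hact, k]
    simp only [MonoidHom.inl_apply, MonoidHom.inr_apply, mul_one, map_one, OneMemClass.coe_one,
      ContinuousLinearMap.one_apply, inv_one, one_mul, inv_mul_cancel, S.one_mem, dif_pos,
      p.1.2, S.inv_mem p.1.2]
    have e1 : (⟨(p.1 : Γ)⁻¹, S.inv_mem p.1.2⟩ : S) = p.1⁻¹ := rfl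
    have e2 : (⟨1, S.one_mem⟩ : S) = 1 := rfl
    simp only [e1, e2, map_inv, ← uni_inner, map_one, OneMemClass.coe_one,
      ContinuousLinearMap.one_apply, Subtype.coe_eta, uni_inner_map]
    ring
  · intro H _ _ _ K _ _ _ π' ρ'
    rw [Finsupp.sum_mapDomain_index (fun _ => ContinuousLinearMap.ext fun v => by simp)
      (fun _ _ _ => ContinuousLinearMap.ext fun v => by simp [add_smul])]
    exact hx H K (π'.comp S.subtype) ρ'

end Pool.Agent.P.MP_95bcfc_an
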