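import Pool.Agent.P.MP_95bcfc_an.Gns

set_option autoImplicit false
set_option linter.unusedSectionVars false
set_option linter.deprecated false

open scoped InnerProductSpace ComplexConjugate
open MeasureTheory

namespace Pool.Agent.P.MP_95bcfc_an

/-- bounded measurable functions -/
def BM (X : Type) [MeasurableSpace X] : Subalgebra ℂ (X → ℂ) where
  carrier := {f | Measurable f ∧ ∃ C, ∀ ω, ‖f ω‖ ≤ C}
  mul_mem' := by
    rintro f g ⟨h1, C, hC⟩ ⟨h2, C', hC'⟩
    refine ⟨h1.mul h2, C * C', fun ω => ?_⟩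
    rw [Pi.mul_apply, norm_mul]
    exact mul_le_mul (hC ω) (hC' ω) (norm_nonneg _) ((norm_nonneg _).trans (hC ω))
  add_mem' := by
    rintro f g ⟨h1, C, hC⟩ ⟨h2, C', hC'⟩
    exact ⟨h1.add h2, C + C', fun ω => (norm_add_le _ _).trans (add_le_add (hC ω) (hC' ω))⟩
  algebraMap_mem' c := ⟨measurable_const, ‖c‖, fun _ => le_rfl⟩

/-- the data from which a representation is induced -/
structure Sys (W G X : Type) [Group W] [Group G] [MeasurableSpace X] [MulAction G X] where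
  /-- quotient map -/
  q : W →* G
  /-- scalar cocycle -/
  χ : W → BM X
  χ_norm : ∀ γ ω, ‖(χ γ).1 ω‖ = 1
  χ_one : χ 1 = 1
  χ_mul : ∀ γ γ' ω, (χ (γ * γ')).1 ω = (χ γ).1 ω * (χ γ').1 ((q γ)⁻¹ • ω)
  /-- partial cocycle into the free group -/
  Rel : X → G → F2 → G → Prop
  pot : ∀ ω, ∃ (C : Type) (cl : G → C) (φ : G → F2), ∀ v w v',
    Rel ω v w v' ↔ cl v = cl v' ∧ w = (φ v)⁻¹ * φ v'
  rel_meas : ∀ v w v', MeasurableSet {ω | Rel ω v w v'}
  rel_smul : ∀ (g : G) ω v w v', Rel ω v w v' → Rel (g • ω) (g * v) w (g * v')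

variable {W G X Λ : Type} [Group W] [Group G] [Group Λ] [MeasurableSpace X] [MulAction G X]
  [MeasurableConstSMul G X] {μ : Measure X} [IsProbabilityMeasure μ] [SMulInvariantMeasure G X μ]
  {L : Type} [NormedAddCommGroup L] [InnerProductSpace ℂ L] [CompleteSpace L]

/-- translate of a function -/
def BM.sh (h : G) (f : BM X) : BM X :=
  ⟨fun ω => f.1 (h⁻¹ • ω), f.2.1.comp (measurable_const_smul _), f.2.2.imp fun _ hC _ => hC _⟩

@[simp] theorem BM.sh_apply (h : G) (f : BM X) (ω : X) : (BM.sh h f).1 ω = f.1 (h⁻¹ • ω) := rfl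

open Classical in
/-- indicator function -/
noncomputable def BM.ind (s : Set X) (hs : MeasurableSet s) : BM X :=
  ⟨fun ω => if ω ∈ s then 1 else 0, Measurable.ite hs measurable_const measurable_const, 1,
    fun ω => by by_cases h : ω ∈ s <;> simp [h]⟩

namespace Sys

variable (S : Sys W G X) (σ : F2 →* unitary (L →L[ℂ] L))

open Classical in
/-- the fibrewise kernel -/
noncomputable def κ (ω : X) (g g' : G) (ξ ξ' : L) : ℂ :=
  if h : ∃ w, S.Rel ω g w g' then ⟪ξ, (σ h.choose : L →L[ℂ] L) ξ'⟫_ℂ else 0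

variable {S}

theorem rel_unique {ω : X} {g g' : G} {w w' : F2} (h : S.Rel ω g w g') (h' : S.Rel ω g w' g') :
    w = w' := by
  obtain ⟨C, cl, φ, hp⟩ := S.pot ω
  rw [((hp _ _ _).1 h).2, ((hp _ _ _).1 h').2]

theorem rel_refl (ω : X) (g : G) : S.Rel ω g 1 g := by
  obtain ⟨C, cl, φ, hp⟩ := S.pot ω
  exact (hp _ _ _).2 ⟨rfl, by simp⟩

theorem κ_of_rel {ω : X} {g g' : G} {w : F2} (h : S.Rel ω g w g') (ξ ξ' : L) :
    S.κ σ ω g g' ξ ξ' = ⟪ξ, (σ w : L →L[ℂ] L) ξ'⟫_ℂ := by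
  have h1 : ∃ w, S.Rel ω g w g' := ⟨w, h⟩
  rw [κ, dif_pos h1, rel_unique h1.choose_spec h]

theorem κ_of_not {ω : X} {g g' : G} (h : ¬ ∃ w, S.Rel ω g w g') (ξ ξ' : L) :
    S.κ σ ω g g' ξ ξ' = 0 := dif_neg h

theorem norm_κ_le (ω : X) (g g' : G) (ξ ξ' : L) : ‖S.κ σ ω g g' ξ ξ'‖ ≤ ‖ξ‖ * ‖ξ'‖ := by
  by_cases h : ∃ w, S.Rel ω g w g'
  · obtain ⟨w, h⟩ := h
    rw [κ_of_rel σ h]
    exact (norm_inner_le_norm _ _).trans (by rw [uni_norm])
  · rw [κ_of_not σ h, norm_zero]; positivity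

theorem κ_smul (h : G) (ω : X) (g g' : G) (ξ ξ' : L) :
    S.κ σ (h • ω) (h * g) (h * g') ξ ξ' = S.κ σ ω g g' ξ ξ' := by
  by_cases h1 : ∃ w, S.Rel ω g w g'
  · obtain ⟨w, h1⟩ := h1
    rw [κ_of_rel σ h1, κ_of_rel σ (S.rel_smul h _ _ _ _ h1)]
  · rw [κ_of_not σ h1, κ_of_not]
    rintro ⟨w, h2⟩
    exact h1 ⟨w, by simpa using S.rel_smul h⁻¹ _ _ _ _ h2⟩

open Classical in
theorem κ_pot (ω : X) : ∃ (C : Type) (cl : G → C) (φ : G → F2), ∀ g g' (ξ ξ' : L), S.κ σ ω g g' ξ ξ' =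
    if cl g = cl g' then ⟪(σ (φ g) : L →L[ℂ] L) ξ, (σ (φ g') : L →L[ℂ] L) ξ'⟫_ℂ else 0 := by
  obtain ⟨C, cl, φ, hp⟩ := S.pot ω
  refine ⟨C, cl, φ, fun g g' ξ ξ' => ?_⟩
  split_ifs with h
  · rw [κ_of_rel σ ((hp _ _ _).2 ⟨h, rfl⟩), uni_inner, MonoidHom.map_mul, map_inv]
    rfl
  · exact κ_of_not σ (fun ⟨w, hw⟩ => h ((hp _ _ _).1 hw).1) _ _

theorem meas_κ (g g' : G) (ξ ξ' : L) : Measurable fun ω => S.κ σ ω g g' ξ ξ' := by
  classical
  letI : MeasurableSpace (Option F2) := ⊤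
  let c : X → Option F2 := fun ω => if h : ∃ w, S.Rel ω g w g' then some h.choose else none
  have hc : Measurable c := by
    refine measurable_to_countable' fun o => ?_
    cases o with
    | none =>
      have : c ⁻¹' {none} = (⋃ w, {ω | S.Rel ω g w g'})ᶜ := by
        ext ω
        by_cases h : ∃ w, S.Rel ω g w g'
        · simpa [c, h] using h
        · simpa [c, h] using fun w hw => h ⟨w, hw⟩
      rw [this]
      exact (MeasurableSet.iUnion fun w => S.rel_meas _ _ _).compl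
    | some w =>
      have : c ⁻¹' {some w} = {ω | S.Rel ω g w g'} := by
        ext ω
        by_cases h : ∃ w, S.Rel ω g w g'
        · simp only [c, Set.mem_preimage, dif_pos h, Set.mem_singleton_iff, Option.some.injEq,
            Set.mem_setOf_eq]
          exact ⟨fun e => e ▸ h.choose_spec, fun e => rel_unique h.choose_spec e⟩
        · simp only [c, Set.mem_preimage, dif_neg h, Set.mem_singleton_iff, Set.mem_setOf_eq]
          exact ⟨fun e => by simp at e, fun e => absurd ⟨w, e⟩ h⟩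
      rw [this]
      exact S.rel_meas _ _ _
  have e : (fun ω => S.κ σ ω g g' ξ ξ') =
      (fun o : Option F2 => o.elim 0 fun w => ⟪ξ, (σ w : L →L[ℂ] L) ξ'⟫_ℂ) ∘ c := by
    funext ω
    simp only [κ, c, Function.comp]
    split_ifs <;> rfl
  rw [e]
  exact measurable_from_top.comp hc

variable (S) in
/-- the integrand of the kernel -/
noncomputable def kf (y y' : BM X × G × L) (ω : X) : ℂ :=
  conj (y.1.1 ω) * y'.1.1 ω * S.κ σ ω y.2.1 y'.2.1 y.2.2 y'.2.2

theorem integrable_kf (y y' : BM X × G × L) : Integrable (S.kf σ y y') μ := by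
  obtain ⟨C, hC⟩ := y.1.2.2
  obtain ⟨C', hC'⟩ := y'.1.2.2
  refine Integrable.of_bound (((Complex.continuous_conj.measurable.comp y.1.2.1).mul
    y'.1.2.1).mul (meas_κ σ _ _ _ _)).aestronglyMeasurable (C * C' * (‖y.2.2‖ * ‖y'.2.2‖))
    (Filter.Eventually.of_forall fun ω => ?_)
  have h0 := (norm_nonneg _).trans (hC ω)
  have h0' := (norm_nonneg _).trans (hC' ω)
  rw [kf, norm_mul, norm_mul, RCLike.norm_conj]
  exact mul_le_mul (mul_le_mul (hC ω) (hC' ω) (norm_nonneg _) h0) (norm_κ_le σ _ _ _ _ _)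
    (norm_nonneg _) (by positivity)

variable (μ) in
theorem exists_rep (ρ : Λ →* unitary (L →L[ℂ] L))
    (hc : ∀ g h, Commute (σ g : L →L[ℂ] L) (ρ h : L →L[ℂ] L)) :
    ∃ (R : Rep (W × Λ)) (e : BM X × G × L → R.H),
      (∀ y y', ⟪e y, e y'⟫_ℂ = ∫ ω, S.kf σ y y' ω ∂μ) ∧
      (∀ γ l f g ξ, (R.π (γ, l) : R.H →L[ℂ] R.H) (e (f, g, ξ)) =
        e (S.χ γ * BM.sh (S.q γ) f, S.q γ * g, (ρ l : L →L[ℂ] L) ξ)) ∧
      Dense (Submodule.span ℂ (Set.range e) : Set R.H) := by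
  classical
  letI act : MulAction (W × Λ) (BM X × G × L) :=
    { smul := fun p y => (S.χ p.1 * BM.sh (S.q p.1) y.1, S.q p.1 * y.2.1,
        (ρ p.2 : L →L[ℂ] L) y.2.2)
      one_smul := fun y => by
        change (S.χ 1 * BM.sh (S.q 1) y.1, S.q 1 * y.2.1, (ρ 1 : L →L[ℂ] L) y.2.2) = y
        refine Prod.ext ?_ (by simp)
        ext ω
        simp [S.χ_one]
      mul_smul := fun p p' y => by
        change (S.χ (p.1 * p'.1) * BM.sh (S.q (p.1 * p'.1)) y.1, S.q (p.1 * p'.1) * y.2.1,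
          (ρ (p.2 * p'.2) : L →L[ℂ] L) y.2.2) =
          (S.χ p.1 * BM.sh (S.q p.1) (S.χ p'.1 * BM.sh (S.q p'.1) y.1),
            S.q p.1 * (S.q p'.1 * y.2.1), (ρ p.2 : L →L[ℂ] L) ((ρ p'.2 : L →L[ℂ] L) y.2.2))
        refine Prod.ext ?_ (by simp [mul_assoc])
        ext ω
        simp [S.χ_mul, mul_smul, mul_assoc] }
  have hact : ∀ (p : W × Λ) (y : BM X × G × L), p • y = (S.χ p.1 * BM.sh (S.q p.1) y.1,
      S.q p.1 * y.2.1, (ρ p.2 : L →L[ℂ] L) y.2.2) := fun _ _ => rfl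
  obtain ⟨R, e, h1, h2, h3⟩ := gns (Δ := W × Λ) (fun y y' => ∫ ω, S.kf σ y y' ω ∂μ)
    (fun y y' => by
      rw [← integral_conj]
      refine integral_congr_ae (Filter.Eventually.of_forall fun ω => ?_)
      obtain ⟨C, cl, φ, hp⟩ := κ_pot (S := S) σ ω
      simp only [kf, hp, map_mul, Complex.conj_conj]
      by_cases h : cl y.2.1 = cl y'.2.1
      · rw [if_pos h, if_pos h.symm, inner_conj_symm]; ring
      · rw [if_neg h, if_neg fun h' => h h'.symm]; simp)
    (fun s c => by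
      have e1 : ∑ y ∈ s, ∑ y' ∈ s, conj (c y) * c y' * ∫ ω, S.kf σ y y' ω ∂μ =
          ∫ ω, ∑ y ∈ s, ∑ y' ∈ s, conj (c y) * c y' * S.kf σ y y' ω ∂μ := by
        rw [integral_finset_sum _ fun y _ => integrable_finset_sum _ fun y' _ =>
          (integrable_kf σ y y').const_mul _]
        refine Finset.sum_congr rfl fun y _ => ?_
        rw [integral_finset_sum _ fun y' _ => (integrable_kf σ y y').const_mul _]
        exact Finset.sum_congr rfl fun y' _ => (integral_const_mul _ _).symm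
      rw [e1]
      have e2 := integral_re (μ := μ) (𝕜 := ℂ) (integrable_finset_sum s fun y _ =>
        integrable_finset_sum s fun y' _ => (integrable_kf (S := S) σ y y').const_mul
          (conj (c y) * c y'))
      refine le_of_le_of_eq (integral_nonneg fun ω => ?_) e2
      obtain ⟨C, cl, φ, hp⟩ := κ_pot (S := S) σ ω
      refine (sum_class_nonneg s (fun y => cl y.2.1)
        fun y => (c y * y.1.1 ω) • (σ (φ y.2.1) : L →L[ℂ] L) y.2.2).trans (le_of_eq ?_)
      change _ = Complex.re _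
      congr 1
      refine Finset.sum_congr rfl fun y _ => Finset.sum_congr rfl fun y' _ => ?_
      rw [kf, hp, inner_smul_left, inner_smul_right, map_mul]
      split_ifs <;> ring)
    (fun p y y' => by
      rw [← integral_smul_eq_self (μ := μ) (g := S.q p.1)]
      refine integral_congr_ae (Filter.Eventually.of_forall fun ω => ?_)
      have e1 : conj ((S.χ p.1).1 (S.q p.1 • ω)) * (S.χ p.1).1 (S.q p.1 • ω) = 1 := by
        rw [Complex.conj_mul', S.χ_norm]; simp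
      have e2 : S.κ σ ω y.2.1 y'.2.1 ((ρ p.2 : L →L[ℂ] L) y.2.2) ((ρ p.2 : L →L[ℂ] L) y'.2.2) =
          S.κ σ ω y.2.1 y'.2.1 y.2.2 y'.2.2 := by
        simp only [κ]
        split_ifs with h
        · rw [← ContinuousLinearMap.mul_apply, (hc _ _).eq, ContinuousLinearMap.mul_apply,
            uni_inner_map]
        · rfl
      simp only [kf, hact, κ_smul, e2, MulMemClass.coe_mul, Pi.mul_apply, BM.sh_apply,
        inv_smul_smul, map_mul]
      linear_combination (conj (y.1.1 ω) * y'.1.1 ω * S.κ σ ω y.2.1 y'.2.1 y.2.2 y'.2.2) * e1)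
  exact ⟨R, e, h1, fun γ l f g ξ => h2 (γ, l) (f, g, ξ), h3⟩

end Sys

end Pool.Agent.P.MP_95bcfc_an
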