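import Pool.Agent.P.MP_95bcfc_an.Model

set_option autoImplicit false
set_option linter.unusedSectionVars false
set_option linter.deprecated false

open MeasureTheory

namespace Pool.Agent.P.MP_95bcfc_an

theorem nuc_of_wreath {W Λ A G : Type} [Group W] [Group Λ] [AddCommGroup A] [Infinite A] [Group G]
    [Countable G] (hG : ¬ Folner G) (π : W →* Wreath A G) (hπ : Function.Surjective π)
    (hN : Nuc W Λ) : Nuc F2 Λ := by
  classical
  refine transfer hN fun L _ _ _ σ ρ hc δ hδ => ?_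
  obtain ⟨n, hn⟩ := exists_nat_ge (8 / δ ^ 2)
  have hn0 : (0 : ℝ) < n := lt_of_lt_of_le (by positivity) hn
  have hn1 : 8 ≤ δ ^ 2 * n := by rwa [div_le_iff₀ (by positivity), mul_comm] at hn
  haveI : Nonempty (Fin n) := ⟨⟨0, by exact_mod_cast hn0⟩⟩
  set β : ℝ := min (1 / 2) (δ ^ 2 / 32) with hβ
  have hβ0 : 0 < β := by positivity
  obtain ⟨I, _, _, s, hs⟩ := exists_contr hG (θ := β / (n : ℝ) ^ 2) (by positivity)
  letI : MeasurableSpace I := ⊤
  obtain ⟨ch, hch, hsp⟩ := exists_chars A (Fin n → I)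
  have e1 : β / (n : ℝ) ^ 2 * (Fintype.card (Fin n) : ℝ) ^ 2 = β := by
    rw [Fintype.card_fin]; field_simp
  let bad0 : Fin n → Set (Conf G (Fin n) I) := fun i =>
    {_ω | rk Finset.univ (rf Finset.univ 0 (rf Finset.univ 1 i)) ≠ rk Finset.univ i + 1}
  refine ⟨Fin n, inferInstance, inferInstance, core (Conf.μ G (Fin n) I)
    (S := sys s π ch hch) ![fun m => inv0 s π ch hch hπ hsp m, fun m => inv1 s π ch hch hπ hsp m]
    (fun i => FreeGroup.of 0 ^ rk Finset.univ i) ![bad0, bad s] ?_ hδ ?_ ?_ σ ρ hc⟩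
  · refine Fin.forall_fin_two.2 ⟨fun i => MeasurableSet.const _, fun i => bad_meas s i⟩
  · refine Fin.forall_fin_two.2 ⟨?_, ?_⟩
    · change ∑ i, (Conf.μ G (Fin n) I).real (bad0 i) ≤ _
      have h1 : ∑ i, (Conf.μ G (Fin n) I).real (bad0 i) ≤ 1 := by
        by_cases h : ∃ i, rk Finset.univ (rf Finset.univ 0 (rf Finset.univ 1 i)) ≠
            rk (Finset.univ : Finset (Fin n)) i + 1
        · obtain ⟨i, hi⟩ := h
          rw [Finset.sum_eq_single i]
          · exact measureReal_le_one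
          · intro j _ hj
            rw [show bad0 j = ∅ from Set.eq_empty_of_forall_notMem fun _ h =>
              hj (rk_unique (Finset.mem_univ _) (Finset.mem_univ _) h hi)]
            simp
          · simp
        · rw [Finset.sum_eq_zero fun j _ => by
            rw [show bad0 j = ∅ from Set.eq_empty_of_forall_notMem fun _ h' => h ⟨j, h'⟩]
            simp]
          exact zero_le_one
      rw [Fintype.card_fin]
      linarith
    · change ∑ i, (Conf.μ G (Fin n) I).real (bad s i) ≤ _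
      refine (bad_le s (by positivity) hs (by rw [e1]; exact min_le_left _ _)).trans ?_
      rw [e1, Fintype.card_fin]
      have := mul_le_mul_of_nonneg_right (min_le_right (1 / 2) (δ ^ 2 / 32)) hn0.le
      linarith
  · refine Fin.forall_fin_two.2 ⟨fun i ω hω h j h' j' h1 h2 => ?_,
      fun i ω hω h j h' j' h1 h2 => ?_⟩
    · obtain ⟨rfl, rfl⟩ : (1 : G) = h ∧ rf Finset.univ 1 i = j := Prod.ext_iff.1 h1
      obtain ⟨rfl, rfl⟩ : (1 : G) = h' ∧ rf Finset.univ 0 (rf Finset.univ 1 i) = j' :=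
        Prod.ext_iff.1 h2
      have h3 : rk Finset.univ (rf Finset.univ 0 (rf Finset.univ 1 i)) = rk Finset.univ i + 1 :=
        not_not.1 hω
      rw [h3, ← zpow_add_one, mul_inv_cancel, mul_one]
      exact Sys.rel_refl _ _
    · change ω ∉ bad s i at hω
      change tt s 1 ω i = (h, j) at h1
      change tt s 0 (h⁻¹ • ω) j = (h', j') at h2
      simp only [bad, Set.mem_union, Set.mem_iUnion, not_or, not_exists] at hω
      obtain ⟨⟨h3, h4⟩, h5⟩ := hω
      have h6 := good_rel s (not_not.1 h3) (not_not.1 fun h => h4 _ ⟨rfl, h⟩)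
        fun h => h5 (_, ()) ⟨rfl, h⟩
      obtain ⟨rfl, rfl⟩ := Prod.ext_iff.1 h1.symm
      have h7 := tt_shift s 0 ω (rf_mem 1 (one_mem_In s ω i))
      obtain ⟨rfl, rfl⟩ := Prod.ext_iff.1 (h2.symm.trans h7)
      have e : nxt s ω (1, i) = ((tt s 1 ω i).1 * (s (rf (In s ω (s (ω (1, i)))) 1
          (i, ω (1, i))).2 * (s (rf (In s ω (s (ω (1, i)))) 0 (rf (In s ω (s (ω (1, i)))) 1
          (i, ω (1, i)))).2)⁻¹), (rf (In s ω (s (ω (1, i)))) 0 (rf (In s ω (s (ω (1, i)))) 1
          (i, ω (1, i)))).1) := by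
        simp [nxt, nq, tt, mul_assoc]
      rw [e] at h6
      exact h6

theorem main_wreath {Γ A G : Type} [Group Γ] [AddCommGroup A] [Infinite A] [Group G]
    [Countable G] (hG : ¬ Folner G) (S : Subgroup Γ) (π : S →* Wreath A G)
    (hπ : Function.Surjective π) (hK : Kirchberg Γ) : Kirchberg (FreeGroup (Fin 2)) :=
  nuc_of_wreath hG π hπ ((nuc_of_wreath hG π hπ (Nuc.subgroup hK S)).symm.subgroup S)

end Pool.Agent.P.MP_95bcfc_an
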