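import Mathlib

set_option autoImplicit false

namespace Pool.Agent.P.MP_95bcfc_an

/-- Unitary representations of `Γ` on `H`. -/
abbrev URep (Γ H : Type) [Group Γ] [NormedAddCommGroup H] [InnerProductSpace ℂ H] : Type :=
  Γ →* (H ≃ₗᵢ[ℂ] H)

/-- The operator of `g` in the representation `π`, as a linear map. -/
def URep.op {Γ H : Type} [Group Γ] [NormedAddCommGroup H] [InnerProductSpace ℂ H]
    (π : URep Γ H) (g : Γ) : H →ₗ[ℂ] H :=
  (π g).toLinearEquiv.toLinearMap

/-- The operator `∑ x p • T p` has norm at most `r`. -/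
def SumLe {ι E : Type} [NormedAddCommGroup E] [InnerProductSpace ℂ E] (x : ι →₀ ℂ)
    (T : ι → E →ₗ[ℂ] E) (r : ℝ) : Prop :=
  ∀ v : E, ‖x.sum fun p c => c • T p v‖ ≤ r * ‖v‖

/-- The minimal (spatial) C*-norm of `x ∈ ℂ[Γ] ⊙ ℂ[Γ]` is at most `r`: the bound holds on the
tensor product `H ⊗ K`, with its inner product, of any two unitary representations. -/
def MinBound {Γ : Type} [Group Γ] (x : Γ × Γ →₀ ℂ) (r : ℝ) : Prop :=
  ∀ (H : Type) [NormedAddCommGroup H] [InnerProductSpace ℂ H] [CompleteSpace H]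
    (K : Type) [NormedAddCommGroup K] [InnerProductSpace ℂ K] [CompleteSpace K]
    (π : URep Γ H) (ρ : URep Γ K),
    SumLe x (fun p => TensorProduct.map (π.op p.1) (ρ.op p.2)) r

/-- The maximal C*-norm of `x ∈ ℂ[Γ] ⊙ ℂ[Γ]` is at most `r`: the bound holds for any two commuting
unitary representations on one Hilbert space. -/
def MaxBound {Γ : Type} [Group Γ] (x : Γ × Γ →₀ ℂ) (r : ℝ) : Prop :=
  ∀ (L : Type) [NormedAddCommGroup L] [InnerProductSpace ℂ L] [CompleteSpace L]
    (π ρ : URep Γ L), (∀ g h, π.op g ∘ₗ ρ.op h = ρ.op h ∘ₗ π.op g) →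
    SumLe x (fun p => π.op p.1 ∘ₗ ρ.op p.2) r

/-- Kirchberg's property: the maximal norm is at most the minimal norm on `ℂ[Γ] ⊙ ℂ[Γ]`. -/
def KirchbergProperty (Γ : Type) [Group Γ] : Prop :=
  ∀ (x : Γ × Γ →₀ ℂ) (r : ℝ), MinBound x r → MaxBound x r

open Classical in
/-- The Følner condition (amenability). -/
def Folner (G : Type) [Group G] : Prop :=
  ∀ (S : Finset G) (ε : ℝ), 0 < ε → ∃ F : Finset G, F.Nonempty ∧
    ∀ s ∈ S, (((F.image fun x => s * x) \ F).card : ℝ) < ε * (F.card : ℝ)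

/-- The shift action of `G` on finitely supported functions `G → A`. -/
noncomputable def shift (A G : Type) [AddCommGroup A] [Group G] :
    G →* MulAut (Multiplicative (G →₀ A)) where
  toFun g := AddEquiv.toMultiplicative (Finsupp.domCongr (Equiv.mulLeft g))
  map_one' := by
    ext f x
    change f.toAdd (1⁻¹ * x) = f.toAdd x
    simp
  map_mul' g h := by
    ext f x
    change f.toAdd ((g * h)⁻¹ * x) = f.toAdd (h⁻¹ * (g⁻¹ * x))
    simp [mul_assoc]

/-- The restricted wreath product `A ≀ G`. -/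
abbrev Wreath (A G : Type) [AddCommGroup A] [Group G] : Type :=
  SemidirectProduct (Multiplicative (G →₀ A)) G (shift A G)

end Pool.Agent.P.MP_95bcfc_an
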