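import Pool.Agent.P.MP_95bcfc_an.Blk

set_option autoImplicit false
set_option linter.unusedSectionVars false
set_option linter.deprecated false

open scoped TensorProduct InnerProductSpace

namespace Pool.Agent.P.MP_95bcfc_an

variable {Γ Λ : Type} [Group Γ] [Group Λ] {D : Type} [Fintype D] [DecidableEq D]

theorem le_of_pow_le {a r C : ℝ} (hr : 0 ≤ r) (h : ∀ k : ℕ, a ^ 2 ^ k ≤ C * r ^ 2 ^ k) :
    a ≤ r := by
  by_contra hc
  push Not at hc
  have ha : 0 < a := hr.trans_lt hc
  have h1 : r / a < 1 := (div_lt_one ha).2 hc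
  have h0 : 0 ≤ r / a := div_nonneg hr ha.le
  have ht : Filter.Tendsto (fun k : ℕ => C * (r / a) ^ 2 ^ k) Filter.atTop (nhds (C * 0)) :=
    ((tendsto_pow_atTop_nhds_zero_of_lt_one h0 h1).comp
      (tendsto_pow_atTop_atTop_of_one_lt one_lt_two)).const_mul C
  rw [mul_zero] at ht
  obtain ⟨k, hk⟩ := (ht.eventually (gt_mem_nhds zero_lt_one)).exists
  have h2 := h k
  rw [div_pow, ← mul_div_assoc, div_lt_one (by positivity)] at hk
  linarith

/-- the matrix version of `Nuc` -/
theorem Nuc.matrix (hN : Nuc Γ Λ) (X : Matrix D D (MonoidAlgebra ℂ (Γ × Λ))) {r : ℝ}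
    (hX : ∀ (H : Type) [NormedAddCommGroup H] [InnerProductSpace ℂ H] [CompleteSpace H]
      (K : Type) [NormedAddCommGroup K] [InnerProductSpace ℂ K] [CompleteSpace K]
      (π : Γ →* unitary (H →L[ℂ] H)) (ρ : Λ →* unitary (K →L[ℂ] K)), ‖evM (tens π ρ) X‖ ≤ r)
    (L : Type) [NormedAddCommGroup L] [InnerProductSpace ℂ L] [CompleteSpace L]
    (π : Γ →* unitary (L →L[ℂ] L)) (ρ : Λ →* unitary (L →L[ℂ] L))
    (h : ∀ g l, Commute (π g : L →L[ℂ] L) (ρ l : L →L[ℂ] L)) : ‖evM (pair π ρ h) X‖ ≤ r := by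
  have hr : 0 ≤ r := (norm_nonneg (evM (tens π ρ) X)).trans (hX L L π ρ)
  obtain ⟨X', hX'⟩ := exists_adjM X
  have hent : ∀ (n : ℕ), 0 < n → ∀ i j,
      ‖ev (pair π ρ h) (((X' * X) ^ n) i j)‖ ≤ (r * r) ^ n := by
    intro n hn i j
    rw [ev_apply]
    refine hN _ _ ?_ L π ρ h
    intro H _ _ _ K _ _ _ π' ρ'
    have h1 : ‖evM (tens π' ρ') X'‖ ≤ r :=
      (norm_le_of_adj (hX' _ _ (isUni_tens π' ρ'))).trans (hX H K π' ρ')
    have h2 : ‖evM (tens π' ρ') ((X' * X) ^ n)‖ ≤ (r * r) ^ n := by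
      rw [map_pow, map_mul]
      have h4 := norm_mul_le (evM (tens π' ρ') X') (evM (tens π' ρ') X)
      have h5 := h4.trans (mul_le_mul h1 (hX H K π' ρ') (norm_nonneg (evM (tens π' ρ') X)) hr)
      have h6 := norm_pow_le' (evM (tens π' ρ') X' * evM (tens π' ρ') X) hn
      exact h6.trans (pow_le_pow_left₀
        (norm_nonneg (evM (tens π' ρ') X' * evM (tens π' ρ') X)) h5 _)
    have h3 := norm_entry_le (((X' * X) ^ n).map (ev (tens π' ρ'))) i j
    rw [← evM_eq, Matrix.map_apply, ev_apply] at h3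
    exact h3.trans h2
  set T := evM (pair π ρ h) X with hT
  have hs : evM (pair π ρ h) X' = star T := by
    rw [ContinuousLinearMap.star_eq_adjoint, ContinuousLinearMap.eq_adjoint_iff]
    exact hX' _ _ (isUni_pair π ρ h)
  have h2 : ‖T‖ * ‖T‖ ≤ r * r := by
    refine le_of_pow_le (C := (Fintype.card D : ℝ) * Fintype.card D) (by positivity) fun k => ?_
    rw [← CStarRing.norm_star_mul_self, ← (IsSelfAdjoint.star_mul_self T).norm_pow_two_pow,
      ← hs, hT, ← map_mul, ← map_pow, evM_eq]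
    refine (norm_blk_le _).trans ?_
    calc _ ≤ ∑ _i : D, ∑ _j : D, (r * r) ^ 2 ^ k :=
          Finset.sum_le_sum fun i _ => Finset.sum_le_sum fun j _ => hent _ (by positivity) i j
      _ = _ := by simp [mul_assoc]
  nlinarith [norm_nonneg T]

section Psi

variable {H : Type} [NormedAddCommGroup H] [InnerProductSpace ℂ H]
variable {K : Type} [NormedAddCommGroup K] [InnerProductSpace ℂ K]

/-- regrouping a direct sum of tensor products -/
noncomputable def psi (D H K : Type) [Fintype D] [DecidableEq D] [NormedAddCommGroup H]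
    [InnerProductSpace ℂ H] [NormedAddCommGroup K] [InnerProductSpace ℂ K] :
    HD D (H ⊗[ℂ] K) →L[ℂ] (HD D H) ⊗[ℂ] K :=
  ∑ i : D, ((inc H i).rTensor K).comp (pr (H ⊗[ℂ] K) i)

/-- the inverse regrouping -/
noncomputable def psi' (D H K : Type) [Fintype D] [DecidableEq D] [NormedAddCommGroup H]
    [InnerProductSpace ℂ H] [NormedAddCommGroup K] [InnerProductSpace ℂ K] :
    (HD D H) ⊗[ℂ] K →L[ℂ] HD D (H ⊗[ℂ] K) :=
  ∑ i : D, (inc (H ⊗[ℂ] K) i).comp ((pr H i).rTensor K)

theorem psi_apply (u : HD D (H ⊗[ℂ] K)) : psi D H K u = ∑ i, (inc H i).rTensor K (u i) := by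
  simp only [psi, ContinuousLinearMap.sum_apply, ContinuousLinearMap.comp_apply, pr_apply]

theorem psi'_apply (v : (HD D H) ⊗[ℂ] K) (i : D) : psi' D H K v i = (pr H i).rTensor K v := by
  simp only [psi', ContinuousLinearMap.sum_apply, ContinuousLinearMap.comp_apply,
    WithLp.ofLp_sum, Finset.sum_apply, inc_apply]
  simp

theorem inner_rT (i : D) (a : H ⊗[ℂ] K) (v : (HD D H) ⊗[ℂ] K) :
    ⟪(inc H i).rTensor K a, v⟫_ℂ = ⟪a, (pr H i).rTensor K v⟫_ℂ := by
  induction a using TensorProduct.induction_on with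
  | zero => simp
  | add a b ha hb => simp only [map_add, inner_add_left, ha, hb]
  | tmul a b =>
    induction v using TensorProduct.induction_on with
    | zero => simp
    | add a b ha hb => simp only [map_add, inner_add_right, ha, hb]
    | tmul c d =>
      simp only [ContinuousLinearMap.rTensor_tmul, TensorProduct.inner_tmul, inner_inc_left,
        pr_apply]

theorem psi_adj (u : HD D (H ⊗[ℂ] K)) (v : (HD D H) ⊗[ℂ] K) :
    ⟪psi D H K u, v⟫_ℂ = ⟪u, psi' D H K v⟫_ℂ := by
  rw [psi_apply, sum_inner, PiLp.inner_apply]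
  exact Finset.sum_congr rfl fun i _ => by rw [inner_rT, psi'_apply]

theorem psi_conj (M : Matrix D D (H →L[ℂ] H)) (S : K →L[ℂ] K) :
    (psi' D H K).comp ((TensorProduct.mapL (blk M) S).comp (psi D H K)) =
      blk (M.map fun T => TensorProduct.mapL T S) := by
  refine ContinuousLinearMap.ext fun u => PiLp.ext fun i => ?_
  rw [blk_apply, ContinuousLinearMap.comp_apply, ContinuousLinearMap.comp_apply, psi'_apply,
    psi_apply, map_sum, map_sum]
  refine Finset.sum_congr rfl fun j _ => ?_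
  rw [Matrix.map_apply]
  induction u j using TensorProduct.induction_on with
  | zero => simp
  | add a b ha hb => simp only [map_add, ha, hb]
  | tmul a b =>
    simp only [ContinuousLinearMap.rTensor_tmul, TensorProduct.mapL_tmul, pr_apply, blk_inc]

theorem norm_psi_apply (u : HD D (H ⊗[ℂ] K)) : ‖psi D H K u‖ = ‖u‖ := by
  have h1 : psi' D H K (psi D H K u) = u := by
    ext i
    rw [psi'_apply, psi_apply, map_sum, Finset.sum_eq_single i]
    · induction u i using TensorProduct.induction_on with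
      | zero => simp
      | add a b ha hb => simp only [map_add, ha, hb]
      | tmul a b => simp only [ContinuousLinearMap.rTensor_tmul, pr_apply, inc_apply, if_true]
    · intro j _ hj
      induction u j using TensorProduct.induction_on with
      | zero => simp
      | add a b ha hb => simp only [map_add, ha, hb, add_zero]
      | tmul a b =>
        simp only [ContinuousLinearMap.rTensor_tmul, pr_apply, inc_apply, if_neg hj.symm,
          TensorProduct.zero_tmul]
    · simp
  have h := psi_adj u (psi D H K u)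
  rw [h1, inner_self_eq_norm_sq_to_K (𝕜 := ℂ) (psi D H K u),
    inner_self_eq_norm_sq_to_K (𝕜 := ℂ) u] at h
  have h2 : ‖psi D H K u‖ ^ 2 = ‖u‖ ^ 2 := by exact_mod_cast h
  exact (sq_eq_sq₀ (norm_nonneg _) (norm_nonneg _)).1 h2

theorem norm_psi_le : ‖psi D H K‖ ≤ 1 :=
  ContinuousLinearMap.opNorm_le_bound _ zero_le_one fun u => by rw [norm_psi_apply, one_mul]

theorem norm_psi'_le : ‖psi' D H K‖ ≤ 1 := by
  refine (norm_le_of_adj (T := psi D H K) fun u v => ?_).trans norm_psi_le
  rw [← inner_conj_symm (psi' D H K u) v, ← psi_adj]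
  exact inner_conj_symm (𝕜 := ℂ) u (psi D H K v)

theorem norm_psi_conj_le (T : (HD D H) ⊗[ℂ] K →L[ℂ] (HD D H) ⊗[ℂ] K) :
    ‖(psi' D H K).comp (T.comp (psi D H K))‖ ≤ ‖T‖ := by
  refine (ContinuousLinearMap.opNorm_comp_le _ _).trans ?_
  have h1 := ContinuousLinearMap.opNorm_comp_le T (psi D H K)
  have h2 := norm_psi_le (D := D) (H := H) (K := K)
  have h3 := norm_psi'_le (D := D) (H := H) (K := K)
  have h4 := norm_nonneg T
  have h5 := norm_nonneg (T.comp (psi D H K))
  have h6 := norm_nonneg (psi' D H K)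
  nlinarith

end Psi

/-- a unitary representation on a Hilbert space -/
structure Rep (Γ : Type) [Group Γ] where
  /-- the space -/
  H : Type
  [i1 : NormedAddCommGroup H]
  [i2 : InnerProductSpace ℂ H]
  [i3 : CompleteSpace H]
  /-- the representation -/
  π : Γ →* unitary (H →L[ℂ] H)

attribute [instance] Rep.i1 Rep.i2 Rep.i3

/-- a family of operators that is uniformly approximated by matrices over the group algebra -/
def Approx (T : ∀ R : Rep Γ, HD D R.H →L[ℂ] HD D R.H) : Prop :=
  ∀ ε : ℝ, 0 < ε → ∃ Z : Matrix D D (MonoidAlgebra ℂ Γ), ∀ R : Rep Γ,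
    ‖T R - evM (und R.π) Z‖ ≤ ε

theorem norm_finsuppSum_sub_le {ι A : Type} [NormedAddCommGroup A] [NormedSpace ℂ A]
    (x : ι →₀ ℂ) (f g : ι → A) {ε : ℝ} (h : ∀ p ∈ x.support, ‖f p - g p‖ ≤ ε) :
    ‖x.sum fun p c => c • f p‖ ≤ ‖x.sum fun p c => c • g p‖ + (∑ p ∈ x.support, ‖x p‖) * ε := by
  have h1 : (x.sum fun p c => c • f p) = (x.sum fun p c => c • g p) +
      ∑ p ∈ x.support, x p • (f p - g p) := by
    simp only [Finsupp.sum, smul_sub, Finset.sum_sub_distrib]
    abel
  rw [h1]
  refine (norm_add_le _ _).trans (add_le_add le_rfl ((norm_sum_le _ _).trans ?_))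
  rw [Finset.sum_mul]
  refine Finset.sum_le_sum fun p hp => ?_
  rw [norm_smul]
  exact mul_le_mul_of_nonneg_left (h p hp) (norm_nonneg _)

theorem transfer1 {F : Type} [Group F] (hN : Nuc Γ Λ)
    (β : ∀ R : Rep Γ, F →* unitary (HD D R.H →L[ℂ] HD D R.H))
    (hβ : ∀ w, Approx fun R => (β R w : HD D R.H →L[ℂ] HD D R.H))
    {x : F × Λ →₀ ℂ} {r : ℝ} (hx : MinLe x r) (R : Rep Γ) (ρ : Λ →* unitary (R.H →L[ℂ] R.H))
    (h : ∀ g l, Commute (R.π g : R.H →L[ℂ] R.H) (ρ l : R.H →L[ℂ] R.H)) :
    ‖x.sum fun p c => c • ((β R p.1 : HD D R.H →L[ℂ] HD D R.H) *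
      diag D (ρ p.2 : R.H →L[ℂ] R.H))‖ ≤ r := by
  set C := ∑ p ∈ x.support, ‖x p‖ with hC
  have hC0 : 0 ≤ C := Finset.sum_nonneg fun _ _ => norm_nonneg _
  refine le_of_forall_pos_le_add fun η hη => ?_
  have hε : 0 < η / (2 * C + 1) := by positivity
  set ε := η / (2 * C + 1) with hεd
  choose Z hZ using fun w => hβ w ε hε
  let Y : F × Λ → Matrix D D (MonoidAlgebra ℂ (Γ × Λ)) := fun p =>
    (Z p.1).map fun z => MonoidAlgebra.mapDomainAlgHom ℂ ℂ (MonoidHom.inl Γ Λ) z *
      MonoidAlgebra.single (1, p.2) 1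
  have hX := hN.matrix (x.sum fun p c => c • Y p) (r := r + C * ε) ?_ R.H R.π ρ h
  · have e1 : evM (pair R.π ρ h) (x.sum fun p c => c • Y p) =
        x.sum fun p c => c • (evM (und R.π) (Z p.1) * diag D (ρ p.2 : R.H →L[ℂ] R.H)) := by
      rw [map_finsuppSum]
      refine Finsupp.sum_congr fun p _ => ?_
      rw [map_smul, evM_eq, evM_eq, diag, ← map_mul]
      congr 2
      refine Matrix.ext fun i j => ?_
      rw [Matrix.mul_diagonal]
      simp only [Y, Matrix.map_apply, map_mul, ev_single, one_smul, pair_apply, map_one,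
        OneMemClass.coe_one, one_mul]
      congr 1
      induction Z p.1 i j using MonoidAlgebra.induction_linear with
      | zero => simp
      | add a b ha hb => simp only [map_add, ha, hb]
      | single g c => simp
    rw [e1] at hX
    have h2 := norm_finsuppSum_sub_le x
      (fun p => (β R p.1 : HD D R.H →L[ℂ] HD D R.H) * diag D (ρ p.2 : R.H →L[ℂ] R.H))
      (fun p => evM (und R.π) (Z p.1) * diag D (ρ p.2 : R.H →L[ℂ] R.H)) (ε := ε) (fun p _ => by
        rw [← sub_mul]
        refine (norm_mul_le _ _).trans ?_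
        have h3 := (norm_diag_le (D := D) _).trans (uni_opNorm_le (ρ p.2))
        have h4 := hZ p.1 R
        nlinarith [norm_nonneg (diag D (ρ p.2 : R.H →L[ℂ] R.H))])
    have h5 : (2 * C + 1) * ε = η := by rw [hεd]; field_simp
    nlinarith
  · intro H _ _ _ K _ _ _ π' ρ'
    let R' : Rep Γ := ⟨H, π'⟩
    have e1 : evM (tens π' ρ') (x.sum fun p c => c • Y p) =
        (psi' D H K).comp ((x.sum fun p c => c • TensorProduct.mapL (evM (und π') (Z p.1))
          (ρ' p.2 : K →L[ℂ] K)).comp (psi D H K)) := by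
      rw [map_finsuppSum, Finsupp.sum, Finsupp.sum, ContinuousLinearMap.finset_sum_comp,
        ContinuousLinearMap.comp_finset_sum]
      refine Finset.sum_congr rfl fun p _ => ?_
      rw [map_smul, ContinuousLinearMap.smul_comp, ContinuousLinearMap.comp_smul, evM_eq, evM_eq,
        psi_conj]
      congr 2
      refine Matrix.ext fun i j => ?_
      simp only [Y, Matrix.map_apply, map_mul, ev_single, one_smul, tens_apply, map_one,
        OneMemClass.coe_one]
      induction Z p.1 i j using MonoidAlgebra.induction_linear with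
      | zero => simp
      | add a b ha hb => simp only [map_add, add_mul, ha, hb, TensorProduct.mapL_add_left]
      | single g c =>
        simp only [MonoidAlgebra.mapDomainAlgHom_apply, MonoidAlgebra.mapDomain_single,
          ev_single, tens_apply, MonoidHom.inl_apply, map_one, OneMemClass.coe_one,
          und_apply, TensorProduct.mapL_smul_left]
        have h9 := TensorProduct.mapL_mul (π' g : H →L[ℂ] H) 1 1 (ρ' p.2 : K →L[ℂ] K)
        rw [mul_one, one_mul] at h9
        rw [h9]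
        rfl
    rw [e1]
    refine (norm_psi_conj_le _).trans ?_
    have h2 := norm_finsuppSum_sub_le x
      (fun p => TensorProduct.mapL (evM (und π') (Z p.1)) (ρ' p.2 : K →L[ℂ] K))
      (fun p => TensorProduct.mapL (β R' p.1 : HD D H →L[ℂ] HD D H) (ρ' p.2 : K →L[ℂ] K))
      (ε := ε) (fun p _ => by
        have e2 : TensorProduct.mapL (evM (und π') (Z p.1)) (ρ' p.2 : K →L[ℂ] K) -
            TensorProduct.mapL (β R' p.1 : HD D H →L[ℂ] HD D H) (ρ' p.2 : K →L[ℂ] K) =
            TensorProduct.mapL (evM (und π') (Z p.1) - (β R' p.1 : HD D H →L[ℂ] HD D H))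
              (ρ' p.2 : K →L[ℂ] K) := by
          rw [sub_eq_iff_eq_add, ← TensorProduct.mapL_add_left, sub_add_cancel]
        rw [e2]
        refine (TensorProduct.norm_mapL_le _ _).trans ?_
        have h3 := uni_opNorm_le (ρ' p.2)
        have h4 := hZ p.1 R'
        rw [norm_sub_rev] at h4
        nlinarith [norm_nonneg (ρ' p.2 : K →L[ℂ] K)])
    have h3 := hx (HD D H) K (β R') ρ'
    exact h2.trans (add_le_add h3 le_rfl)

end Pool.Agent.P.MP_95bcfc_an
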